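import Mathlib

/-!
# TANK G, block G1: fractions which are polynomials in a generic radial coordinate

`a ∈ k(l)` with `a ∈ κ_c[l_0 - c_0]`, `κ_c = k((l_i - c_i) / (l_0 - c_0))`, for a generic `c`,
is a polynomial: `a ∈ k[l]`.
-/

set_option autoImplicit false

namespace Pool.Agent.TG1h38

open MvPolynomial

section poly

variable {σ k : Type*} [Field k]

/-- `X_i ↦ X_i T`. -/
noncomputable def rad (σ k : Type*) [Field k] :
    MvPolynomial σ k →ₐ[k] Polynomial (MvPolynomial σ k) :=
  MvPolynomial.aeval fun i => Polynomial.C (X i) * Polynomial.X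

theorem rad_eval_one (g : MvPolynomial σ k) : (rad σ k g).eval 1 = g := by
  have h : ((Polynomial.aeval (1 : MvPolynomial σ k)).restrictScalars k).comp (rad σ k) =
      AlgHom.id k _ := by
    apply MvPolynomial.algHom_ext
    intro i
    rw [AlgHom.comp_apply, rad, aeval_X]
    simp
  have h1 := DFunLike.congr_fun h g
  rw [AlgHom.comp_apply, AlgHom.restrictScalars_apply, Polynomial.coe_aeval_eq_eval] at h1
  exact h1

theorem rad_coeff_zero (g : MvPolynomial σ k) : (rad σ k g).coeff 0 = C (constantCoeff g) := by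
  rw [Polynomial.coeff_zero_eq_eval_zero]
  have h : ((Polynomial.aeval (0 : MvPolynomial σ k)).restrictScalars k).comp (rad σ k) =
      (Algebra.ofId k (MvPolynomial σ k)).comp (MvPolynomial.aeval (fun _ => (0 : k))) := by
    apply MvPolynomial.algHom_ext
    intro i
    rw [AlgHom.comp_apply, rad, aeval_X]
    simp
  have h1 := DFunLike.congr_fun h g
  rw [AlgHom.comp_apply, AlgHom.restrictScalars_apply, Polynomial.coe_aeval_eq_eval] at h1
  rw [h1, AlgHom.comp_apply, MvPolynomial.aeval_zero']
  rfl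

theorem rad_homog {h : MvPolynomial σ k} {d : ℕ} (hd : h.IsHomogeneous d) :
    rad σ k h = Polynomial.C h * Polynomial.X ^ d := by
  have key : ∀ v ∈ h.support, rad σ k (monomial v (coeff v h)) =
      Polynomial.C (monomial v (coeff v h)) * Polynomial.X ^ d := by
    intro v hv
    have hv' : v.degree = d := by
      have := hd (mem_support_iff.1 hv)
      rw [← this, Finsupp.degree_eq_weight_one]
      rfl
    rw [rad, aeval_monomial]
    have h1 : (v.prod fun i e => (Polynomial.C (X i : MvPolynomial σ k) * Polynomial.X) ^ e) =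
        Polynomial.C (v.prod fun i e => (X i : MvPolynomial σ k) ^ e) * Polynomial.X ^ d := by
      simp only [mul_pow]
      rw [Finsupp.prod_mul, ← hv', Finsupp.degree_apply]
      congr 1
      · rw [Finsupp.prod, Finsupp.prod, map_prod]
        simp only [map_pow]
      · rw [Finsupp.prod, Finset.prod_pow_eq_pow_sum]
    rw [h1, ← mul_assoc]
    congr 1
    rw [MvPolynomial.monomial_eq, map_mul]
    rfl
  conv_lhs => rw [h.as_sum]
  rw [map_sum, Finset.sum_congr rfl key, ← Finset.sum_mul, ← map_sum, ← h.as_sum]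

/-- A divisor of a homogeneous polynomial with non-zero constant coefficient is constant. -/
theorem cone_const {g q : MvPolynomial σ k} {d : ℕ} (hd : (g * q).IsHomogeneous d)
    (hne : g * q ≠ 0) (h0 : constantCoeff g ≠ 0) : ∃ r : k, g = C r := by
  have h1 := rad_homog hd
  rw [map_mul] at h1
  have hg0 : g ≠ 0 := left_ne_zero_of_mul hne
  have hq0 : q ≠ 0 := right_ne_zero_of_mul hne
  have hinj : ∀ f : MvPolynomial σ k, f ≠ 0 → rad σ k f ≠ 0 := by
    intro f hf h2
    apply hf
    rw [← rad_eval_one f, h2, Polynomial.eval_zero]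
  have hG := hinj g hg0
  have hQ := hinj q hq0
  have h2 : (rad σ k g).natDegree + (rad σ k q).natDegree = d := by
    rw [← Polynomial.natDegree_mul hG hQ, h1, Polynomial.natDegree_C_mul_X_pow d _ hne]
  have h3 : (rad σ k g).natTrailingDegree + (rad σ k q).natTrailingDegree = d := by
    rw [← Polynomial.natTrailingDegree_mul hG hQ, h1, Polynomial.natTrailingDegree_mul_X_pow,
      Polynomial.natTrailingDegree_C, zero_add]
    rwa [Ne, Polynomial.C_eq_zero]
  have h4 : (rad σ k g).natTrailingDegree = 0 := by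
    apply Polynomial.natTrailingDegree_eq_zero_of_constantCoeff_ne_zero
    rw [Polynomial.constantCoeff_apply, rad_coeff_zero, Ne, C_eq_zero]
    exact h0
  have h5 := (rad σ k q).natTrailingDegree_le_natDegree
  have h6 : (rad σ k g).natDegree = 0 := by omega
  refine ⟨constantCoeff g, ?_⟩
  conv_lhs => rw [← rad_eval_one g, Polynomial.eq_C_of_natDegree_eq_zero h6]
  rw [Polynomial.eval_C, rad_coeff_zero]

end poly

section field

variable {n : ℕ} {k K : Type*} [Field k] [Field K] [Algebra k K]

/-- Fractions of homogeneous polynomials of the same degree. -/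
theorem exists_homog_rep {m : Fin (n + 1) → K} (hm : AlgebraicIndependent k m) {a : K}
    (ha : a ∈ IntermediateField.adjoin k (Set.range fun j => m j / m 0)) :
    ∃ (d : ℕ) (f h : MvPolynomial (Fin (n + 1)) k), f.IsHomogeneous d ∧ h.IsHomogeneous d ∧
      h ≠ 0 ∧ a * aeval m h = aeval m f := by
  have hinj : ∀ f : MvPolynomial (Fin (n + 1)) k, aeval m f = 0 → f = 0 := fun f hf =>
    (injective_iff_map_eq_zero _).1 hm f hf
  induction ha using IntermediateField.adjoin_induction with
  | mem x hx =>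
    obtain ⟨j, rfl⟩ := hx
    refine ⟨1, X j, X 0, isHomogeneous_X k j, isHomogeneous_X k 0, X_ne_zero 0, ?_⟩
    rw [aeval_X, aeval_X]
    have h0 : m 0 ≠ 0 := by
      intro h
      have := hinj (X 0) (by rw [aeval_X, h])
      exact X_ne_zero 0 this
    exact div_mul_cancel₀ _ h0
  | algebraMap x =>
    refine ⟨0, C x, 1, isHomogeneous_C _ x, isHomogeneous_one _ _, one_ne_zero, ?_⟩
    rw [map_one, mul_one, aeval_C]
  | add x y _ _ hx hy =>
    obtain ⟨d, f, h, hf, hh, h0, he⟩ := hx
    obtain ⟨d', f', h', hf', hh', h0', he'⟩ := hy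
    refine ⟨d + d', f * h' + h * f', h * h', (hf.mul hh').add (hh.mul hf'), hh.mul hh',
      mul_ne_zero h0 h0', ?_⟩
    rw [map_add, map_mul, map_mul, map_mul, ← he, ← he']
    ring
  | inv x _ hx =>
    obtain ⟨d, f, h, hf, hh, h0, he⟩ := hx
    by_cases hx0 : x = 0
    · refine ⟨0, 0, 1, isHomogeneous_zero _ _ _, isHomogeneous_one _ _, one_ne_zero, ?_⟩
      rw [hx0, inv_zero, zero_mul, map_zero]
    · refine ⟨d, h, f, hh, hf, ?_, ?_⟩
      · rintro rfl
        rw [map_zero, mul_eq_zero] at he
        rcases he with he | he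
        · exact hx0 he
        · exact h0 (hinj h he)
      · rw [← he, ← mul_assoc, inv_mul_cancel₀ hx0, one_mul]
  | mul x y _ _ hx hy =>
    obtain ⟨d, f, h, hf, hh, h0, he⟩ := hx
    obtain ⟨d', f', h', hf', hh', h0', he'⟩ := hy
    refine ⟨d + d', f * f', h * h', hf.mul hf', hh.mul hh', mul_ne_zero h0 h0', ?_⟩
    rw [map_mul, map_mul, ← he, ← he']
    ring

/-- Elements of `κ[m_0]`. -/
theorem exists_cone_rep {m : Fin (n + 1) → K} (hm : AlgebraicIndependent k m) {a : K}
    (ha : a ∈ Algebra.adjoin (IntermediateField.adjoin k (Set.range fun j => m j / m 0)) {m 0}) :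
    ∃ (d : ℕ) (f h : MvPolynomial (Fin (n + 1)) k), h.IsHomogeneous d ∧
      h ≠ 0 ∧ a * aeval m h = aeval m f := by
  induction ha using Algebra.adjoin_induction with
  | mem x hx =>
    rw [Set.mem_singleton_iff] at hx
    subst hx
    refine ⟨0, X 0, 1, isHomogeneous_one _ _, one_ne_zero, ?_⟩
    rw [map_one, mul_one, aeval_X]
  | algebraMap x =>
    obtain ⟨d, f, h, hf, hh, h0, he⟩ := exists_homog_rep hm x.2
    exact ⟨d, f, h, hh, h0, he⟩
  | add x y _ _ hx hy =>
    obtain ⟨d, f, h, hh, h0, he⟩ := hx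
    obtain ⟨d', f', h', hh', h0', he'⟩ := hy
    refine ⟨d + d', f * h' + h * f', h * h', hh.mul hh', mul_ne_zero h0 h0', ?_⟩
    rw [map_add, map_mul, map_mul, map_mul, ← he, ← he']
    ring
  | mul x y _ _ hx hy =>
    obtain ⟨d, f, h, hh, h0, he⟩ := hx
    obtain ⟨d', f', h', hh', h0', he'⟩ := hy
    refine ⟨d + d', f * f', h * h', hh.mul hh', mul_ne_zero h0 h0', ?_⟩
    rw [map_mul, map_mul, ← he, ← he']
    ring

/-- Translation of polynomials. -/
noncomputable def trp (c : Fin (n + 1) → k) :
    MvPolynomial (Fin (n + 1)) k →ₐ[k] MvPolynomial (Fin (n + 1)) k :=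
  aeval fun i => X i + C (c i)

theorem aeval_trp (c : Fin (n + 1) → k) (m : Fin (n + 1) → K) (f : MvPolynomial (Fin (n + 1)) k) :
    aeval m (trp c f) = aeval (fun i => m i + algebraMap k K (c i)) f := by
  have h : (aeval m).comp (trp c) = aeval (fun i => m i + algebraMap k K (c i)) := by
    apply MvPolynomial.algHom_ext
    intro i
    rw [AlgHom.comp_apply, trp, aeval_X, aeval_X, map_add, aeval_X, aeval_C]
  exact DFunLike.congr_fun h f

theorem trp_neg (c : Fin (n + 1) → k) (f : MvPolynomial (Fin (n + 1)) k) :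
    trp (-c) (trp c f) = f := by
  have h : (trp (-c)).comp (trp c) = AlgHom.id k _ := by
    apply MvPolynomial.algHom_ext
    intro i
    rw [AlgHom.comp_apply, trp, trp, aeval_X, map_add, aeval_X]
    simp
  exact DFunLike.congr_fun h f

theorem constantCoeff_trp (c : Fin (n + 1) → k) (f : MvPolynomial (Fin (n + 1)) k) :
    constantCoeff (trp c f) = eval c f := by
  have h1 := aeval_trp (K := k) c (fun _ => 0) f
  rw [MvPolynomial.aeval_zero'] at h1
  simpa [MvPolynomial.coe_aeval_eq_eval] using h1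

theorem algebraicIndependent_sub {l : Fin (n + 1) → K} (hl : AlgebraicIndependent k l)
    (c : Fin (n + 1) → k) : AlgebraicIndependent k fun i => l i - algebraMap k K (c i) := by
  rw [AlgebraicIndependent, injective_iff_map_eq_zero]
  intro f hf
  have h1 := aeval_trp (-c) l f
  have h2 : (fun i => l i + algebraMap k K ((-c) i)) = fun i => l i - algebraMap k K (c i) := by
    funext i
    rw [Pi.neg_apply, map_neg, sub_eq_add_neg]
  rw [h2, hf] at h1
  have h3 := (injective_iff_map_eq_zero _).1 hl _ h1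
  have h4 := trp_neg (-c) f
  rw [neg_neg, h3, map_zero] at h4
  exact h4.symm

/-- `a ∈ k(l)` and `a ∈ κ_c[l_0 - c_0]` for generic `c` implies `a ∈ k[l]`. -/
theorem exists_generic_cone {l : Fin (n + 1) → K} (hl : AlgebraicIndependent k l) {a : K}
    (ha : a ∈ IntermediateField.adjoin k (Set.range l)) :
    ∃ G : MvPolynomial (Fin (n + 1)) k, G ≠ 0 ∧ ∀ c, eval c G ≠ 0 →
      a ∈ Algebra.adjoin (IntermediateField.adjoin k
        (Set.range fun j => (l j - algebraMap k K (c j)) / (l 0 - algebraMap k K (c 0))))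
          {l 0 - algebraMap k K (c 0)} →
      a ∈ Algebra.adjoin k (Set.range l) := by
  have hinj : ∀ f : MvPolynomial (Fin (n + 1)) k, aeval l f = 0 → f = 0 := fun f hf =>
    (injective_iff_map_eq_zero _).1 hl f hf
  obtain ⟨r, s, hrs⟩ := (IntermediateField.mem_adjoin_range_iff k l a).1 ha
  by_cases hs : s = 0
  · refine ⟨1, one_ne_zero, fun c _ _ => ?_⟩
    rw [hrs, hs, map_zero, div_zero]
    exact zero_mem _
  obtain ⟨f, g, e, hfg, hf, hg⟩ := UniqueFactorizationMonoid.exists_reduced_factors' r s hs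
  have he : e ≠ 0 := by
    rintro rfl
    rw [zero_mul] at hg
    exact hs hg.symm
  have hg0 : g ≠ 0 := by
    rintro rfl
    rw [mul_zero] at hg
    exact hs hg.symm
  have hgl : aeval l g ≠ 0 := fun h => hg0 (hinj g h)
  have hel : aeval l e ≠ 0 := fun h => he (hinj e h)
  have hafg : a = aeval l f / aeval l g := by
    rw [hrs, ← hf, ← hg, map_mul, map_mul, mul_div_mul_left _ _ hel]
  refine ⟨g, hg0, fun c hc hac => ?_⟩
  obtain ⟨d, u, h, hh, h0, hu⟩ := exists_cone_rep (algebraicIndependent_sub hl c) hac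
  have htr : ∀ F : MvPolynomial (Fin (n + 1)) k,
      aeval (fun i => l i - algebraMap k K (c i)) F = aeval l (trp (-c) F) := by
    intro F
    rw [aeval_trp]
    congr 2
    funext i
    rw [Pi.neg_apply, map_neg, sub_eq_add_neg]
  rw [htr, htr, hafg, div_mul_eq_mul_div, div_eq_iff hgl, ← map_mul, ← map_mul] at hu
  have h1 : f * trp (-c) h = trp (-c) u * g := by
    rw [← sub_eq_zero]
    apply hinj
    rw [map_sub, hu, sub_self]
  have h2 : g ∣ trp (-c) h := by
    apply hfg.symm.dvd_of_dvd_mul_left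
    rw [h1]
    exact dvd_mul_left _ _
  obtain ⟨q, hq⟩ := h2
  have h3 : h = trp c g * trp c q := by
    rw [← map_mul, ← hq]
    have := trp_neg (-c) h
    rw [neg_neg] at this
    exact this.symm
  rw [h3] at hh h0
  obtain ⟨r', hr'⟩ := cone_const hh h0 (by rwa [constantCoeff_trp])
  have h4 : g = C r' := by
    have h5 := trp_neg c g
    rw [hr', trp, aeval_C] at h5
    exact h5.symm
  rw [hafg, h4, aeval_C, div_eq_mul_inv, ← map_inv₀, Algebra.adjoin_range_eq_range_aeval]
  refine ⟨f * C r'⁻¹, ?_⟩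
  change aeval l _ = _
  rw [map_mul, aeval_C]

end field

end Pool.Agent.TG1h38
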