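import Pool.Agent.Lib.TG1.FFI
import Pool.Agent.Lib.TG1.Cone
import Pool.Agent.Lib.TG_h38.Max

/-!
# TANK G, block G1: base points of maximal tuples

If `min (v x) (v (t_0 - c_0 x)) ≤ v s` at all places of `K / k((t_i - c_i x) / (t_0 - c_0 x))`, for
generic `c`, then `s / x` is integral over `k[t_i / x]`.
-/

set_option autoImplicit false

open IntermediateField Module

namespace Pool.Agent.TG1h38

open Pool.Agent.TG1
open Pool.Agent.TGh33 (Wr DB)
open Pool.Agent.TG (Ov ZDim IsMin ncl)

universe u

variable {k K : Type u} [Field k] [Field K] [Algebra k K] {n : ℕ}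
  {D : Fin (n + 1) → Derivation k K K} {z : Fin (n + 1) → K} {A : Subalgebra k K}

theorem crd_tr {x : K} (hx : x ≠ 0) (t : Fin (n + 1) → K) (c : Fin (n + 1) → k)
    (j : Fin (n + 1)) : tr x t c j / x = crd x t j - algebraMap k K (c j) := by
  unfold tr crd
  rw [sub_div, Algebra.smul_def, mul_div_cancel_right₀ _ hx]

theorem kq_tr' {x : K} (hx : x ≠ 0) (t : Fin (n + 1) → K) (c : Fin (n + 1) → k) :
    kq k x (tr x t c) = kq k x t := by
  unfold kq
  apply le_antisymm
  · rw [IntermediateField.adjoin_le_iff]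
    rintro _ ⟨j, rfl⟩
    change tr x t c j / x ∈ _
    rw [crd_tr hx]
    exact sub_mem (subset_adjoin _ _ ⟨j, rfl⟩) (IntermediateField.algebraMap_mem _ _)
  · rw [IntermediateField.adjoin_le_iff]
    rintro _ ⟨j, rfl⟩
    have h1 : t j / x = tr x t c j / x + algebraMap k K (c j) := by
      rw [crd_tr hx, sub_add_cancel]
      rfl
    change t j / x ∈ _
    rw [h1]
    exact add_mem (subset_adjoin _ _ ⟨j, rfl⟩) (IntermediateField.algebraMap_mem _ _)

theorem minpoly_rs {κ : IntermediateField k K} (E : IntermediateField κ K)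
    (F : IntermediateField k K) (h : IntermediateField.restrictScalars k E = F) (φ : K) (i : ℕ) :
    ((minpoly F φ).coeff i : K) = ((minpoly E φ).coeff i : K) := by
  subst h
  rfl

/-- The coordinates `t_j / x` are algebraically independent. -/
theorem algInd_crd (dat : Dat D z A) {x : K} {t : Fin (n + 1) → K}
    (hW : Wr D (Fin.cons x t) ≠ 0) : AlgebraicIndependent k (crd x t) := by
  have := kq_fin dat hW
  have h1 : Algebra.IsAlgebraic (kq k x t) K := Algebra.IsAlgebraic.of_finite _ _
  have h2 : Algebra.IsAlgebraic (Algebra.adjoin k (Set.range (crd x t))) K :=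
    IntermediateField.isAlgebraic_adjoin_iff_top.1 h1
  refine (Algebra.IsAlgebraic.isTranscendenceBasis_of_lift_le_trdeg_of_finite k (crd x t) ?_).1
  rw [dat.trd]
  simp

theorem exists_eval_ne {k : Type*} [Field k] [Infinite k] {n : ℕ}
    {F : MvPolynomial (Fin (n + 1)) k} (hF : F ≠ 0) : ∃ c, MvPolynomial.eval c F ≠ 0 := by
  by_contra h
  push Not at h
  exact hF (MvPolynomial.funext fun c => (h c).trans (map_zero (MvPolynomial.eval c)).symm)

theorem mem_ncl_crd [Infinite k] (dat : Dat D z A) {x : K} {t : Fin (n + 1) → K}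
    (hW : Wr D (Fin.cons x t) ≠ 0) 
    (hTr : ∀ c : Fin (n + 1) → k, Wr D (Fin.cons x (tr x t c)) ≠ 0) {s : K}
    {F : MvPolynomial (Fin (n + 1)) k} (hF : F ≠ 0)
    (h : ∀ c : Fin (n + 1) → k, MvPolynomial.eval c F ≠ 0 → ∀ P : PL k (tr x t c),
      min (P.v x) (P.v (tr x t c 0)) ≤ P.v s) (hs : s ≠ 0) :
    s / x ∈ ncl (Algebra.adjoin k (Set.range (crd x t))) := by
  classical
  have hx := ffi_x hW
  have hfin := kq_fin dat hW
  have hl := algInd_crd dat hW
  have hL : ∀ i : ℕ, ((minpoly (kq k x t) (s / x)).coeff i : K) ∈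
      IntermediateField.adjoin k (Set.range (crd x t)) := fun i =>
    ((minpoly (kq k x t) (s / x)).coeff i).2
  choose G hG0 hG using fun i => exists_generic_cone hl (hL i)
  set N := (minpoly (kq k x t) (s / x)).natDegree with hN
  have hprod : F * ∏ i ∈ Finset.range (N + 1), G i ≠ 0 :=
    mul_ne_zero hF (Finset.prod_ne_zero_iff.2 fun i _ => hG0 i)
  obtain ⟨c, hc⟩ := exists_eval_ne hprod
  rw [map_mul, map_prod] at hc
  have hcF := left_ne_zero_of_mul hc
  have hcG : ∀ i ∈ Finset.range (N + 1), MvPolynomial.eval c (G i) ≠ 0 :=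
    Finset.prod_ne_zero_iff.1 (right_ne_zero_of_mul hc)
  have ht0 := ffi_t (hTr c) 0
  have hcoef : ∀ i, ((minpoly (kq k x t) (s / x)).coeff i : K) ∈
      Algebra.adjoin k (Set.range (crd x t)) := by
    intro i
    by_cases hi : i ∈ Finset.range (N + 1)
    · refine hG i c (hcG i hi) ?_
      have h1 := PF.minpoly_coeff_mem_inv (ff dat (hTr c)) (transcendental_div dat (hTr c))
        (y := s / tr x t c 0) (fun P h0 => by
          rw [P.map_div hx ht0, P.map_div hs ht0]
          have := h c hcF P
          omega) i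
      rw [div_div_div_cancel_right₀ ht0, inv_div, crd_tr hx] at h1
      have h2 := minpoly_rs _ _ (rs_eq (k := k) (t := tr x t c) hx ht0) (s / x) i
      rw [← h2] at h1
      rw [kq_tr' hx t c] at h1
      have h3 : kap k (tr x t c) = IntermediateField.adjoin k (Set.range fun j =>
          (crd x t j - algebraMap k K (c j)) / (crd x t 0 - algebraMap k K (c 0))) := by
        unfold kap
        congr 2
        funext j
        rw [← crd_tr hx, ← crd_tr hx, div_div_div_cancel_right₀ hx]
      rw [h3] at h1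
      exact h1
    · have h1 : (minpoly (kq k x t) (s / x)).coeff i = 0 := by
        apply Polynomial.coeff_eq_zero_of_natDegree_lt
        rw [Finset.mem_range] at hi
        omega
      rw [h1]
      exact zero_mem _
  have hint : IsIntegral (kq k x t) (s / x) := Algebra.IsIntegral.isIntegral _
  refine TG.mem_ncl_of_root ((minpoly (kq k x t) (s / x)).map (algebraMap (kq k x t) K))
    ((minpoly.monic hint).map _) (fun i => ?_) ?_
  · rw [Polynomial.coeff_map]
    exact TG.le_ncl _ (hcoef i)
  · rw [Polynomial.eval_map]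
    exact minpoly.aeval (kq k x t) (s / x)

end Pool.Agent.TG1h38
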