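import Pool.Agent.Lib.TG1.Defs
import Pool.Agent.Lib.TG_h33.Wr2

/-!
# TANK G, block G1: `K / kap k t` is a function field of one variable; the degree of the poles
-/

set_option autoImplicit false

open Polynomial IntermediateField Module

namespace Pool.Agent.TG1

open Pool.Agent.TGh33 (Wr DB)
open Pool.Agent.TGh71 (dsum pol)

universe u

variable {k K : Type u} [Field k] [Field K] [Algebra k K] {n : ℕ}
  {D : Fin (n + 1) → Derivation k K K} {z : Fin (n + 1) → K} {A : Subalgebra k K}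

theorem ffi_entry {m : ℕ} {D : Fin m → Derivation k K K} {f : Fin (m + 1) → K}
    (h : Wr D f ≠ 0) (j : Fin (m + 1)) : f j ≠ 0 := by
  intro h0
  apply h
  rw [Pool.Agent.TGh33.Wr_def]
  apply Matrix.det_eq_zero_of_row_eq_zero j
  intro i
  rw [Matrix.of_apply, h0, map_zero, Pi.zero_apply]

theorem ffi_x {x : K} {t : Fin (n + 1) → K} (hW : Wr D (Fin.cons x t) ≠ 0) : x ≠ 0 :=
  ffi_entry hW 0

theorem ffi_t {x : K} {t : Fin (n + 1) → K} (hW : Wr D (Fin.cons x t) ≠ 0)
    (j : Fin (n + 1)) : t j ≠ 0 :=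
  ffi_entry hW j.succ

theorem Dat.ess (dat : Dat D z A) : Algebra.EssFiniteType k K :=
  IntermediateField.fg_top_iff.1 dat.fgK

theorem kq_sep (dat : Dat D z A) {x : K} {t : Fin (n + 1) → K}
    (hW : Wr D (Fin.cons x t) ≠ 0) : Algebra.IsSeparable (kq k x t) K := by
  have := dat.ess
  exact (Pool.Agent.TGh33.Wr_ne_zero_iff dat.db (Fin.cons x t) (ffi_x hW)).1 hW

theorem kq_fin (dat : Dat D z A) {x : K} {t : Fin (n + 1) → K}
    (hW : Wr D (Fin.cons x t) ≠ 0) : FiniteDimensional (kq k x t) K := by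
  have := dat.ess
  have := Algebra.EssFiniteType.of_comp k (kq k x t) K
  have := kq_sep dat hW
  exact Algebra.finite_of_essFiniteType_of_isAlgebraic

theorem trdeg_le_of_isAlgebraic {ι : Type} [Fintype ι] (y : ι → K)
    (h : Algebra.IsAlgebraic (IntermediateField.adjoin k (Set.range y)) K) :
    Algebra.trdeg k K ≤ Fintype.card ι := by
  have := IntermediateField.isAlgebraic_adjoin_iff_top.1 h
  refine (Algebra.IsAlgebraic.trdeg_le_cardinalMk k (Set.range y)).trans ?_
  have h1 := Cardinal.mk_range_le_lift (f := y)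
  rw [Cardinal.lift_id'.{0, u}] at h1
  simpa using h1

theorem rs_eq {x : K} {t : Fin (n + 1) → K} (hx : x ≠ 0) (h0 : t 0 ≠ 0) :
    IntermediateField.restrictScalars k (kap k t)⟮x / t 0⟯ = kq k x t := by
  unfold kap kq
  rw [IntermediateField.adjoin_adjoin_left]
  apply le_antisymm
  · rw [IntermediateField.adjoin_le_iff, Set.union_subset_iff]
    have h1 : ∀ j, t j / x ∈ adjoin k (Set.range fun j => t j / x) := fun j =>
      subset_adjoin _ _ ⟨j, rfl⟩
    constructor
    · rintro _ ⟨j, rfl⟩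
      have h2 : t j / t 0 = (t j / x) / (t 0 / x) := by
        rw [div_div_div_cancel_right₀ hx]
      change t j / t 0 ∈ _
      rw [h2]
      exact div_mem (h1 j) (h1 0)
    · rw [Set.singleton_subset_iff]
      have h2 : x / t 0 = (t 0 / x)⁻¹ := by rw [inv_div]
      rw [h2]
      exact inv_mem (h1 0)
  · rw [IntermediateField.adjoin_le_iff]
    rintro _ ⟨j, rfl⟩
    have h2 : t j / x = (t j / t 0) / (x / t 0) := by
      rw [div_div_div_cancel_right₀ h0]
    change t j / x ∈ _
    rw [h2]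
    exact div_mem (subset_adjoin _ _ (Or.inl ⟨j, rfl⟩)) (subset_adjoin _ _ (Or.inr rfl))

theorem kapu_fin (dat : Dat D z A) {x : K} {t : Fin (n + 1) → K}
    (hW : Wr D (Fin.cons x t) ≠ 0) : FiniteDimensional (kap k t)⟮x / t 0⟯ K := by
  have h1 := kq_fin dat hW
  rw [← rs_eq (ffi_x hW) (ffi_t hW 0)] at h1
  exact h1

theorem finrank_kapu {x : K} {t : Fin (n + 1) → K} (hx : x ≠ 0) (h0 : t 0 ≠ 0) :
    finrank (kap k t)⟮x / t 0⟯ K = dg k x t := by
  unfold dg
  rw [← rs_eq hx h0]
  rfl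

/-- `x / t 0` is transcendental over `kap k t`. -/
theorem transcendental_div (dat : Dat D z A) {x : K} {t : Fin (n + 1) → K}
    (hW : Wr D (Fin.cons x t) ≠ 0) : Transcendental (kap k t) (x / t 0) := by
  intro h
  have h1 := kapu_fin dat hW
  have h2 : Algebra.IsAlgebraic (kap k t) (kap k t)⟮x / t 0⟯ := isAlgebraic_adjoin_simple h.isIntegral
  have h3 : Algebra.IsAlgebraic (kap k t) K :=
    Algebra.IsAlgebraic.trans (kap k t) (kap k t)⟮x / t 0⟯ K
  have h4 : kap k t = adjoin k (Set.range fun j : Fin n => t j.succ / t 0) := by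
    apply le_antisymm
    · unfold kap
      rw [IntermediateField.adjoin_le_iff]
      rintro _ ⟨j, rfl⟩
      refine Fin.cases ?_ (fun j => ?_) j
      · change t 0 / t 0 ∈ _
        rw [div_self (ffi_t hW 0)]
        exact one_mem _
      · exact subset_adjoin _ _ ⟨j, rfl⟩
    · rw [IntermediateField.adjoin_le_iff]
      rintro _ ⟨j, rfl⟩
      exact subset_adjoin _ _ ⟨j.succ, rfl⟩
  rw [h4] at h3
  have h5 := trdeg_le_of_isAlgebraic _ h3
  rw [dat.trd, Fintype.card_fin] at h5
  have h6 : n + 1 ≤ n := by exact_mod_cast h5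
  omega

theorem ff (dat : Dat D z A) {x : K} {t : Fin (n + 1) → K} (hW : Wr D (Fin.cons x t) ≠ 0) :
    PF.FF (kap k t) K :=
  PF.FF.of (transcendental_div dat hW) (kapu_fin dat hW)

theorem pls_eq (dat : Dat D z A) {x : K} {t : Fin (n + 1) → K} (hW : Wr D (Fin.cons x t) ≠ 0) :
    pls k x t = dg k x t := by
  have h1 := PF.sum_poles (ff dat hW) (transcendental_div dat hW)
  rw [finrank_kapu (ffi_x hW) (ffi_t hW 0)] at h1
  rw [← h1]
  unfold pls dsum
  have h2 : ∀ P : PL k t, pol (fun P => P.v (t 0)) (fun P => P.v x) P * (P.deg : ℤ) =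
      (((-P.v (x / t 0)).toNat * P.deg : ℕ) : ℤ) := by
    intro P
    rw [P.map_div (ffi_x hW) (ffi_t hW 0)]
    push_cast
    congr 1
    change max 0 (P.v (t 0) - P.v x) = _
    omega
  rw [finsum_congr h2]
  exact ((Nat.castAddMonoidHom ℤ).map_finsum_of_injective Nat.cast_injective _).symm

theorem dg_pos (dat : Dat D z A) {x : K} {t : Fin (n + 1) → K} (hW : Wr D (Fin.cons x t) ≠ 0) :
    0 < dg k x t := by
  have := kq_fin dat hW
  exact finrank_pos

end Pool.Agent.TG1
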