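import Pool.Agent.Lib.TG1.Good0
import Pool.Agent.Lib.TG1.FFI

/-!
# TANK G, block G1, row GOOD
-/

set_option autoImplicit false

namespace Pool.Agent.TG1

open Pool.Agent.TG (Ov ZDim IsMin)
open Pool.Agent.TGh33 (Wr DB)

universe u

variable {k K : Type u} [Field k] [Field K] [Algebra k K]
variable {n : ℕ} {D : Fin (n + 1) → Derivation k K K} {z : Fin (n + 1) → K} {A : Subalgebra k K}

theorem good_of [IsAlgClosed k] (dat : Dat D z A) {x : K} {t : Fin (n + 1) → K}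
    (hW : Wr D (Fin.cons x t) ≠ 0) (ht : ∀ j, t j ∈ A) (P : PL k t) (hA : ∀ a ∈ A, a ∈ P.vs)
    (h0 : P.v (t 0) = 0) : Good D A P.vs :=
  good_of_ff dat (ff dat hW) ht P hA (ne_zero_of_Wr hW 0) h0

theorem finite_gd_compl [IsAlgClosed k] (dat : Dat D z A) {x : K} {t : Fin (n + 1) → K}
    (hW : Wr D (Fin.cons x t) ≠ 0) (ht : ∀ j, t j ∈ A) : ((gd D A t)ᶜ).Finite :=
  finite_gd_compl_ff dat (ff dat hW) ht (ne_zero_of_Wr hW 0)

end Pool.Agent.TG1
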