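import Pool.Agent.Lib.TG1.StepCore
import Pool.Agent.Lib.TG1.Good

/-!
# TANK G, block G1: row STEP
-/

set_option autoImplicit false

namespace Pool.Agent.TG1

open Pool.Agent.TG (Ov ZDim IsMin)
open Pool.Agent.TGh33 (Wr DB)
open Pool.Agent.TGh71 (dsum pol wgt)

universe u

variable {k K : Type u} [Field k] [Field K] [Algebra k K] {n : ℕ}
  {D : Fin (n + 1) → Derivation k K K} {z : Fin (n + 1) → K} {A : Subalgebra k K}

/-- **Row STEP.** -/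
theorem step [IsAlgClosed k] (dat : Dat D z A) {x : K} {t : Fin (n + 1) → K}
    (hW : Wr D (Fin.cons x t) ≠ 0) (ht : ∀ j, t j ∈ A) (S : Submodule k K) (hS : S.FG)
    (hSA : ∀ s ∈ S, s ∈ A) (hx : x ∈ S) :
    ∃ F : Set (Submodule k K), F.Finite ∧ (∀ H ∈ F, ¬ S ≤ H) ∧ ∀ y ∈ S, (∀ H ∈ F, y ∉ H) →
      Wr D (Fin.cons y t) ≠ 0 ∧ Th D A x t + (dg k y t - dg k x t : ℤ) ≤ Th D A y t ∧
      dg k x t ≤ dg k y t ∧
      (∀ P : PL k t, ∀ s ∈ S, s ≠ 0 → min (P.v y) (P.v (t 0)) ≤ P.v s) ∧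
      ∀ C : Set (PL k t), (∀ P ∈ C, P.v (t 0) ≤ P.v x) →
        (dg k x t : ℤ) + dsum (fun P : PL k t => P.deg)
          (C.indicator (pol (fun P => P.v (t 0)) fun P => P.v y)) ≤ dg k y t :=
  step_of (ff dat hW) (finite_gd_compl dat hW ht) (fun _ h => pls_eq dat h) hW S hS hSA hx

end Pool.Agent.TG1
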