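import Pool.Agent.Lib.TG1.Defs
import Pool.Agent.Lib.TG_h33.Wr2

/-!
# TANK G, block G1: change of the tuple `(x, t)`

`tl x t a = x + ∑ a_i t_i`, `tr x t c = (t_i - c_i x)`.
-/

set_option autoImplicit false

namespace Pool.Agent.TG1

open MvPolynomial
open Pool.Agent.TG (Ov ZDim IsMin)
open Pool.Agent.TGh33 (Wr DB)
open Pool.Agent.TGh71 (dsum pol wgt)

universe u

variable {k K : Type u} [Field k] [Field K] [Algebra k K]

section

variable {n : ℕ} {D : Fin (n + 1) → Derivation k K K} {z : Fin (n + 1) → K} {A : Subalgebra k K}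

theorem Wr_tl (x : K) (t : Fin (n + 1) → K) (a : Fin (n + 1) → k) :
    Wr D (Fin.cons (tl x t a) t) = Wr D (Fin.cons x t) := by
  have h0 : ∀ y : K, (Fin.cons y t : Fin (n + 2) → K) =
      Function.update (Fin.cons x t) 0 y :=
    fun y => (Fin.update_cons_zero (α := fun _ => K) x t y).symm
  have h1 : Wr D (Fin.cons (tl x t a) t) =
      Wr D (Fin.cons x t) + Wr D (Fin.cons (∑ i, a i • t i) t) := by
    rw [h0 (tl x t a), tl, TGh33.Wr_update_add, ← h0, ← h0]
  have h2 : Wr D (Fin.cons (∑ i, a i • t i) t) = 0 := by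
    have h3 := (TGh33.WrM D).map_update_sum (Finset.univ : Finset (Fin (n + 1))) 0
      (fun i => a i • t i) (Fin.cons x t)
    rw [TGh33.WrM_apply, ← h0] at h3
    rw [h3]
    refine Finset.sum_eq_zero fun i _ => ?_
    rw [TGh33.WrM_apply, TGh33.Wr_update_smul, ← h0,
      TGh33.Wr_eq_zero_of_eq D (Fin.cons (t i) t) (i := 0) (j := i.succ) (Fin.succ_ne_zero i).symm
        (by rw [Fin.cons_zero, Fin.cons_succ]), smul_zero]
  rw [h1, h2, add_zero]

theorem Wr_tr (x : K) (t : Fin (n + 1) → K) (c : Fin (n + 1) → k) :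
    Wr D (Fin.cons x (tr x t c)) = Wr D (Fin.cons x t) := by
  classical
  obtain ⟨M, hM⟩ : ∃ M : Matrix (Fin (n + 2)) (Fin (n + 2)) k, M = Matrix.of fun j i =>
      if j = i then 1 else if i = 0 then (Fin.cons 0 (fun l => -c l) : Fin (n + 2) → k) j
        else 0 := ⟨_, rfl⟩
  have h1 : (Fin.cons x (tr x t c) : Fin (n + 2) → K) =
      fun j => ∑ i, M j i • (Fin.cons x t : Fin (n + 2) → K) i := by
    funext j
    refine Fin.cases ?_ (fun j => ?_) j
    · rw [Fin.cons_zero, Fin.sum_univ_succ, Finset.sum_eq_zero]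
      · rw [hM]; simp
      · intro i _
        rw [hM]
        simp [Fin.succ_ne_zero, (Fin.succ_ne_zero i).symm]
    · rw [Fin.cons_succ, Fin.sum_univ_succ, Finset.sum_eq_single j]
      · rw [hM, tr]
        simp [Fin.succ_ne_zero]
        ring
      · intro i _ hi
        rw [hM]
        simp [Fin.succ_ne_zero, Ne.symm hi]
      · intro h; exact absurd (Finset.mem_univ _) h
  have h2 : M.det = 1 := by
    rw [Matrix.det_of_isLowerTriangular]
    · rw [hM]; simp
    · intro i j hij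
      rw [hM]
      have h3 : i ≠ j := fun h => by
        rw [h] at hij
        exact lt_irrefl _ hij
      have h4 : j ≠ 0 := fun h => by
        rw [h] at hij
        exact absurd hij (not_lt.2 (Fin.zero_le i))
      simp [h3, h4]
  rw [h1, TGh33.Wr_lin, h2, map_one, one_mul]

theorem xne_of_Wr {x : K} {t : Fin (n + 1) → K} (hW : Wr D (Fin.cons x t) ≠ 0) : x ≠ 0 := by
  rintro rfl
  apply hW
  have h1 := TGh33.Wr_update_smul D (Fin.cons 0 t) 0 0 (0 : K)
  rw [zero_smul, zero_smul, Fin.update_cons_zero] at h1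
  exact h1

theorem kq_tl_le (x : K) (t : Fin (n + 1) → K) (a : Fin (n + 1) → k) (hx : x ≠ 0) :
    kq k (tl x t a) t ≤ kq k x t := by
  have hmem : ∀ j, t j / x ∈ kq k x t := fun j => IntermediateField.subset_adjoin k _ ⟨j, rfl⟩
  have h1 : tl x t a / x ∈ kq k x t := by
    have h2 : tl x t a / x = 1 + ∑ i, a i • (t i / x) := by
      rw [tl, add_div, div_self hx, Finset.sum_div]
      congr 1
      refine Finset.sum_congr rfl fun i _ => ?_
      rw [Algebra.smul_def, Algebra.smul_def, mul_div_assoc]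
    rw [h2]
    exact add_mem (one_mem _) (sum_mem fun i _ => IntermediateField.smul_mem _ (hmem i))
  unfold kq
  rw [IntermediateField.adjoin_le_iff]
  rintro _ ⟨j, rfl⟩
  have h3 : t j / tl x t a = (t j / x) / (tl x t a / x) := by
    rw [div_div_div_cancel_right₀ hx]
  change t j / tl x t a ∈ kq k x t
  rw [h3]
  exact div_mem (hmem j) h1

theorem tl_tl (x : K) (t : Fin (n + 1) → K) (a : Fin (n + 1) → k) :
    tl (tl x t a) t (-a) = x := by
  rw [tl, tl, add_assoc, ← Finset.sum_add_distrib]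
  simp

theorem kq_tl {x : K} {t : Fin (n + 1) → K} (a : Fin (n + 1) → k) (hx : x ≠ 0)
    (hx' : tl x t a ≠ 0) : kq k (tl x t a) t = kq k x t := by
  refine le_antisymm (kq_tl_le x t a hx) ?_
  have h1 := kq_tl_le (tl x t a) t (-a) hx'
  rwa [tl_tl] at h1

theorem kq_tr (x : K) (t : Fin (n + 1) → K) (c : Fin (n + 1) → k) :
    kq k x (tr x t c) = kq k x t := by
  have hle : ∀ (t : Fin (n + 1) → K) (c : Fin (n + 1) → k), kq k x (tr x t c) ≤ kq k x t := by
    intro t c
    have hmem : ∀ j, t j / x ∈ kq k x t := fun j => IntermediateField.subset_adjoin k _ ⟨j, rfl⟩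
    unfold kq
    rw [IntermediateField.adjoin_le_iff]
    rintro _ ⟨j, rfl⟩
    change tr x t c j / x ∈ kq k x t
    by_cases hx : x = 0
    · rw [hx, div_zero]; exact zero_mem _
    have h1 : tr x t c j / x = t j / x - algebraMap k K (c j) := by
      rw [tr, sub_div, Algebra.smul_def, mul_div_assoc, div_self hx, mul_one]
    rw [h1]
    exact sub_mem (hmem j) (algebraMap_mem _ _)
  refine le_antisymm (hle t c) ?_
  have h2 := hle (tr x t c) (-c)
  have h3 : tr x (tr x t c) (-c) = t := by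
    funext i
    simp [tr]
  rwa [h3] at h2

theorem dg_tr (x : K) (t : Fin (n + 1) → K) (c : Fin (n + 1) → k) :
    dg k x (tr x t c) = dg k x t := by
  rw [dg, dg, kq_tr]

theorem dg_tl {x : K} {t : Fin (n + 1) → K} (a : Fin (n + 1) → k) (hx : x ≠ 0)
    (hx' : tl x t a ≠ 0) : dg k (tl x t a) t = dg k x t := by
  rw [dg, dg, kq_tl a hx hx']

/-- The elements `t j` have the same value at a place of `K / kap k t`. -/
theorem v_t_eq {t : Fin (n + 1) → K} (ht : ∀ j, t j ≠ 0) (P : PL k t) (j : Fin (n + 1)) :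
    P.v (t j) = P.v (t 0) := by
  have h1 : t j / t 0 ∈ kap k t := IntermediateField.subset_adjoin k _ ⟨j, rfl⟩
  have h2 := P.triv ⟨_, h1⟩ (fun h => div_ne_zero (ht j) (ht 0) (congrArg Subtype.val h))
  have h3 : algebraMap (kap k t) K ⟨_, h1⟩ = t j / t 0 := rfl
  rw [h3, P.map_div (ht j) (ht 0)] at h2
  omega

theorem v_le_tl {x : K} {t : Fin (n + 1) → K} (ht : ∀ j, t j ≠ 0) (a : Fin (n + 1) → k)
    (hx' : tl x t a ≠ 0) (P : PL k t) (h : P.v (t 0) ≤ P.v x) :
    P.v (t 0) ≤ P.v (tl x t a) := by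
  have h1 : P.Ge (P.v (t 0)) (tl x t a) := by
    rw [tl]
    refine PF.Pl.Ge.add (fun _ => h) (PF.Pl.Ge.sum _ _ fun i _ => ?_)
    have h2 : P.Ge 0 (algebraMap k K (a i)) := by
      have h3 : algebraMap k K (a i) = algebraMap (kap k t) K (algebraMap k (kap k t) (a i)) := rfl
      rw [h3]
      exact PF.Pl.ge_algebraMap _
    have h4 := PF.Pl.Ge.mul h2 (PF.Pl.ge_self (P := P) (t i))
    rw [zero_add, v_t_eq ht P i, ← Algebra.smul_def] at h4
    exact h4
  exact h1 hx'

theorem tne_of_Wr {x : K} {t : Fin (n + 1) → K} (hW : Wr D (Fin.cons x t) ≠ 0)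
    (j : Fin (n + 1)) : t j ≠ 0 := by
  intro h
  apply hW
  have h1 := TGh33.Wr_update_smul D (Fin.cons x t) j.succ 0 (0 : K)
  rw [zero_smul, zero_smul] at h1
  have h2 : Function.update (Fin.cons x t : Fin (n + 2) → K) j.succ 0 = Fin.cons x t := by
    rw [← h]
    conv_lhs => rw [show t j = (Fin.cons x t : Fin (n + 2) → K) j.succ from
      (Fin.cons_succ (α := fun _ => K) x t j).symm]
    exact Function.update_eq_self _ _
  rwa [h2] at h1

theorem bet_tl {x : K} {t : Fin (n + 1) → K} (hW : Wr D (Fin.cons x t) ≠ 0)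
    (a : Fin (n + 1) → k) : bet D A (tl x t a) t = bet D A x t := by
  classical
  have hx := xne_of_Wr hW
  have hW' : Wr D (Fin.cons (tl x t a) t) ≠ 0 := by rwa [Wr_tl]
  have hx' := xne_of_Wr hW'
  have ht := tne_of_Wr hW
  rw [bet, bet, Wr_tl]
  congr 1
  funext P
  rw [wgt, wgt]
  split_ifs with h1 h2 h3 h3
  · rfl
  · rfl
  · exfalso
    apply h3
    have h4 := v_le_tl ht (-a) (by rwa [tl_tl]) P h2
    rwa [tl_tl] at h4
  · exfalso
    exact h2 (v_le_tl ht a hx' P h3)
  · rfl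

theorem Th_tl (_dat : Dat D z A) {x : K} {t : Fin (n + 1) → K} (hW : Wr D (Fin.cons x t) ≠ 0)
    (a : Fin (n + 1) → k) : Th D A (tl x t a) t = Th D A x t ∧
      Wr D (Fin.cons (tl x t a) t) = Wr D (Fin.cons x t) ∧
      dg k (tl x t a) t = dg k x t := by
  have hx := xne_of_Wr hW
  have hW' : Wr D (Fin.cons (tl x t a) t) ≠ 0 := by rwa [Wr_tl]
  have hx' := xne_of_Wr hW'
  refine ⟨?_, Wr_tl x t a, dg_tl a hx hx'⟩
  rw [Th, Th, dg_tl a hx hx', bet_tl hW]

end

end Pool.Agent.TG1
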