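import Pool.Agent.Lib.TG1.BpfMx
import Pool.Agent.Lib.TG1.Step
import Pool.Agent.Lib.TG1.TL

/-!
# TANK G, block G1: row MAXBPF, from row DF
-/

set_option autoImplicit false

namespace Pool.Agent.TG1h38

open Pool.Agent.TG1
open Pool.Agent.TGh33 (Wr DB)

universe u

variable {k K : Type u} [Field k] [Field K] [Algebra k K] {n : ℕ}
  {D : Fin (n + 1) → Derivation k K K} {z : Fin (n + 1) → K} {A : Subalgebra k K}

theorem stepAt [IsAlgClosed k] (dat : Dat D z A) {S : Submodule k K} (hS : S.FG)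
    (hSA : ∀ s ∈ S, s ∈ A) {x : K} {t : Fin (n + 1) → K} (h : Adm D S x t) :
    StepAt D A S x t := by
  obtain ⟨F, hF, hFS, hy⟩ := step dat h.ne (fun j => hSA _ (h.t_mem j)) S hS hSA h.x_mem
  refine ⟨F, hF, hFS, fun y hyS hyF => ?_⟩
  obtain ⟨h1, h2, h3, h4, -⟩ := hy y hyS hyF
  exact ⟨h1, h2, h3, h4⟩

/-- Row MAXBPF, from row DF. -/
theorem bpf_of_mx_DF [IsAlgClosed k] (dat : Dat D z A) {S : Submodule k K} (hS : S.FG)
    (hSA : ∀ s ∈ S, s ∈ A) {x : K} {t : Fin (n + 1) → K} (h : IsMx D A S x t)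
    (hDF : ∃ G : MvPolynomial (Fin (n + 1)) k, G ≠ 0 ∧ ∀ a : Fin (n + 1) → k,
      MvPolynomial.eval a G ≠ 0 → ∃ F : MvPolynomial (Fin (n + 1)) k, F ≠ 0 ∧
        ∀ c : Fin (n + 1) → k, MvPolynomial.eval c F ≠ 0 →
          Th D A (tl x t a) t ≤ Th D A (tl x t a) (tr (tl x t a) t c)) : Bpf S x t :=
  bpf_of_mx_of dat hS h (fun h => stepAt dat hS hSA h)
    (fun a => ⟨(Th_tl dat h.adm.ne a).1, (Th_tl dat h.adm.ne a).2.1⟩)
    (fun y c => Wr_tr y _ c) hDF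

end Pool.Agent.TG1h38
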