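import Pool.Agent.Lib.TG1.BpfCore

/-!
# TANK G, block G1: row MAXBPF, maximal tuples have no base points
-/

set_option autoImplicit false

open IntermediateField Module

namespace Pool.Agent.TG1h38

open Pool.Agent.TG1
open Pool.Agent.TGh33 (Wr DB)
open Pool.Agent.TG (Ov ZDim IsMin ncl)
open Pool.Agent.TGh71 (dsum pol)

universe u

variable {k K : Type u} [Field k] [Field K] [Algebra k K] {n : ℕ}
  {D : Fin (n + 1) → Derivation k K K} {z : Fin (n + 1) → K} {A : Subalgebra k K}

/-- A generic combination `x + ∑ a_i t_i` has minimal value. -/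
theorem exists_tl_min [Infinite k] {V : ValuationSubring K} (hV : Ov k V) {x : K}
    (t : Fin (n + 1) → K) (hx : x ≠ 0) {G : MvPolynomial (Fin (n + 1)) k} (hG : G ≠ 0) :
    ∃ a : Fin (n + 1) → k, MvPolynomial.eval a G ≠ 0 ∧ tl x t a ≠ 0 ∧ x / tl x t a ∈ V ∧
      ∀ j, t j / tl x t a ∈ V := by
  classical
  -- the element of largest valuation
  obtain ⟨y, hy, hmax⟩ := (insert x (Finset.univ.image t)).exists_max_image
    (fun y => V.valuation y) ⟨x, Finset.mem_insert_self _ _⟩
  have hy0 : y ≠ 0 := by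
    rintro rfl
    have := hmax x (Finset.mem_insert_self _ _)
    rw [map_zero, nonpos_iff_eq_zero, Valuation.zero_iff] at this
    exact hx this
  have hxy : x / y ∈ V := by
    rw [← V.valuation_le_one_iff, map_div₀]
    exact div_le_one_of_le₀ (hmax x (Finset.mem_insert_self _ _)) zero_le
  have hty : ∀ j, t j / y ∈ V := by
    intro j
    rw [← V.valuation_le_one_iff, map_div₀]
    exact div_le_one_of_le₀ (hmax _ (Finset.mem_insert_of_mem
      (Finset.mem_image_of_mem _ (Finset.mem_univ j)))) zero_le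
  let ι : k →+* V := (algebraMap k K).codRestrict V.toSubring hV
  let ρ : k →+* IsLocalRing.ResidueField V := (IsLocalRing.residue V).comp ι
  have hρ : Function.Injective ρ := ρ.injective
  let X' : IsLocalRing.ResidueField V := IsLocalRing.residue V ⟨x / y, hxy⟩
  let T' : Fin (n + 1) → IsLocalRing.ResidueField V := fun j =>
    IsLocalRing.residue V ⟨t j / y, hty j⟩
  let Q : MvPolynomial (Fin (n + 1)) (IsLocalRing.ResidueField V) :=
    MvPolynomial.C X' + ∑ i, MvPolynomial.X i * MvPolynomial.C (T' i)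
  have hQe : ∀ b, MvPolynomial.eval b Q = X' + ∑ i, b i * T' i := by
    intro b
    simp [Q]
  have hQ : Q ≠ 0 := by
    intro h0
    have hX : X' = 0 := by
      have := hQe 0
      rw [h0, map_zero] at this
      simpa using this.symm
    have hT : ∀ j, T' j = 0 := by
      intro j
      have := hQe (Pi.single j 1)
      rw [h0, map_zero, hX] at this
      simpa [Pi.single_apply] using this.symm
    rw [Finset.mem_insert, Finset.mem_image] at hy
    rcases hy with hy | ⟨j, -, hy⟩
    · have h1 : (⟨x / y, hxy⟩ : V) = 1 := Subtype.ext (by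
        change x / y = 1
        rw [hy]; exact div_self hx)
      have h2 : X' = 1 := by
        change IsLocalRing.residue V ⟨x / y, hxy⟩ = 1
        rw [h1, map_one]
      rw [h2] at hX
      exact one_ne_zero hX
    · have h1 : (⟨t j / y, hty j⟩ : V) = 1 := Subtype.ext (by
        change t j / y = 1
        rw [hy]; exact div_self hy0)
      have h2 : T' j = 1 := by
        change IsLocalRing.residue V ⟨t j / y, hty j⟩ = 1
        rw [h1, map_one]
      rw [hT j] at h2
      exact zero_ne_one h2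
  have hGm : MvPolynomial.map ρ G ≠ 0 := by
    intro h
    exact hG (MvPolynomial.map_injective ρ hρ (by rw [h, map_zero]))
  have hprod := mul_ne_zero hGm hQ
  obtain ⟨b, hb, hne⟩ : ∃ b ∈ Set.pi Set.univ (fun _ : Fin (n + 1) => Set.range ρ),
      MvPolynomial.eval b (MvPolynomial.map ρ G * Q) ≠ 0 := by
    by_contra hcon
    push Not at hcon
    apply hprod
    exact MvPolynomial.funext_set (fun _ : Fin (n + 1) => Set.range ρ)
      (fun _ => Set.infinite_range_of_injective hρ) fun b hb => by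
        rw [hcon b hb, map_zero]
  choose a ha using fun i => hb i (Set.mem_univ i)
  have hba : b = fun i => ρ (a i) := funext fun i => (ha i).symm
  rw [map_mul] at hne
  have hne1 := left_ne_zero_of_mul hne
  have hne2 := right_ne_zero_of_mul hne
  have hGa : MvPolynomial.eval a G ≠ 0 := by
    intro h
    apply hne1
    rw [hba, MvPolynomial.eval_map]
    exact (MvPolynomial.eval₂_comp ρ a G).symm.trans (by rw [h, map_zero])
  have hmem : tl x t a / y ∈ V := by
    unfold tl
    rw [add_div, Finset.sum_div]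
    refine V.add_mem _ _ hxy (sum_mem fun i _ => ?_)
    rw [smul_div_assoc]
    exact TG.Ov.smul_mem hV _ (hty i)
  have hres : IsLocalRing.residue V ⟨tl x t a / y, hmem⟩ ≠ 0 := by
    intro h
    apply hne2
    rw [hQe, hba, ← h]
    have h1 : (⟨tl x t a / y, hmem⟩ : V) = ⟨x / y, hxy⟩ + ∑ i, ι (a i) * ⟨t i / y, hty i⟩ := by
      apply Subtype.ext
      change tl x t a / y = _
      rw [V.coe_add]
      have h2 : ((∑ i, ι (a i) * ⟨t i / y, hty i⟩ : V) : K) =
          ∑ i, algebraMap k K (a i) * (t i / y) := by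
        rw [← V.subtype_apply, map_sum]
        rfl
      rw [h2]
      unfold tl
      rw [add_div, Finset.sum_div]
      congr 1
      refine Finset.sum_congr rfl fun i _ => ?_
      rw [Algebra.smul_def, mul_div_assoc]
    rw [h1, map_add, map_sum]
    simp only [map_mul]
    rfl
  have hunit : IsUnit (⟨tl x t a / y, hmem⟩ : V) := by
    by_contra h
    exact hres ((IsLocalRing.residue_eq_zero_iff _).2 ((IsLocalRing.mem_maximalIdeal _).2 h))
  have hne0 : tl x t a ≠ 0 := by
    intro h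
    apply hres
    have h1 : (⟨tl x t a / y, hmem⟩ : V) = 0 := Subtype.ext (by
      change tl x t a / y = 0
      rw [h]; exact zero_div _)
    rw [h1, map_zero]
  have hinv : y / tl x t a ∈ V := by
    obtain ⟨w, hw⟩ := hunit
    have h1 : (w : V) * (w⁻¹ : Vˣ) = 1 := by rw [← Units.val_mul, mul_inv_cancel]; rfl
    have h2 : (tl x t a / y) * (((w⁻¹ : Vˣ) : V) : K) = 1 := by
      have := congrArg (fun v : V => (v : K)) h1
      rw [hw] at this
      exact this
    have h3 : y / tl x t a = (((w⁻¹ : Vˣ) : V) : K) := by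
      rw [← inv_div]
      exact (eq_inv_of_mul_eq_one_right h2).symm
    rw [h3]
    exact Subtype.mem _
  refine ⟨a, hGa, hne0, ?_, fun j => ?_⟩
  · rw [← div_mul_div_cancel₀ hy0]
    exact V.mul_mem _ _ hxy hinv
  · rw [← div_mul_div_cancel₀ hy0]
    exact V.mul_mem _ _ (hty j) hinv

theorem bpf_of_forall [Infinite k] (dat : Dat D z A) {S : Submodule k K} {x : K}
    {t : Fin (n + 1) → K} (hx : x ∈ S) (ht : ∀ j, t j ∈ S) (hW : Wr D (Fin.cons x t) ≠ 0)
    (hTl : ∀ a : Fin (n + 1) → k, Wr D (Fin.cons (tl x t a) t) ≠ 0)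
    (hTr : ∀ a c : Fin (n + 1) → k, Wr D (Fin.cons (tl x t a) (tr (tl x t a) t c)) ≠ 0)
    {G : MvPolynomial (Fin (n + 1)) k} (hG : G ≠ 0)
    (h : ∀ a : Fin (n + 1) → k, MvPolynomial.eval a G ≠ 0 →
      ∃ F : MvPolynomial (Fin (n + 1)) k, F ≠ 0 ∧ ∀ c : Fin (n + 1) → k,
        MvPolynomial.eval c F ≠ 0 → ∀ P : PL k (tr (tl x t a) t c), ∀ s ∈ S, s ≠ 0 →
          min (P.v (tl x t a)) (P.v (tr (tl x t a) t c 0)) ≤ P.v s) : Bpf S x t := by
  intro V hV
  obtain ⟨a, ha, hne, hxV, htV⟩ := exists_tl_min hV t (ffi_x hW) hG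
  obtain ⟨F, hF, hFc⟩ := h a ha
  have hxS : tl x t a ∈ S := S.add_mem hx (Submodule.sum_mem _ fun i _ => S.smul_mem _ (ht i))
  have hmin : IsMin V S (tl x t a) := by
    refine ⟨hxS, hne, fun s hs => ?_⟩
    by_cases hs0 : s = 0
    · rw [hs0, zero_div]; exact V.zero_mem
    refine TG.ncl_mem (R := Algebra.adjoin k (Set.range (crd (tl x t a) t))) ?_ _
      (mem_ncl_crd dat (hTl a) (hTr a) hF (fun c hc P => hFc c hc P s hs hs0) hs0)
    intro b hb
    induction hb using Algebra.adjoin_induction with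
    | mem b hb => obtain ⟨j, rfl⟩ := hb; exact htV j
    | algebraMap c => exact hV c
    | add a b _ _ ha hb => exact V.add_mem _ _ ha hb
    | mul a b _ _ ha hb => exact V.mul_mem _ _ ha hb
  by_contra hcon
  push Not at hcon
  obtain ⟨hc1, hc2⟩ := hcon
  have hlt : ∀ s ∈ S, ¬ IsMin V S s → V.valuation (s / tl x t a) < 1 := by
    intro s hs hsm
    by_contra h1
    exact hsm (hmin.of_val hs (le_antisymm ((V.valuation_le_one_iff _).2 (hmin.div s hs))
      (not_lt.1 h1)))
  have h1 : V.valuation (1 : K) < 1 := by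
    have h2 : tl x t a / tl x t a =
        x / tl x t a + ∑ i, algebraMap k K (a i) * (t i / tl x t a) := by
      conv_lhs => rw [show tl x t a / tl x t a = (x + ∑ i, a i • t i) / tl x t a from rfl]
      rw [add_div, Finset.sum_div]
      congr 1
      refine Finset.sum_congr rfl fun i _ => ?_
      rw [Algebra.smul_def, mul_div_assoc]
    rw [div_self hne] at h2
    rw [h2]
    refine V.valuation.map_add_lt (hlt x hx hc1) (V.valuation.map_sum_lt one_ne_zero fun i _ => ?_)
    rw [map_mul]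
    exact (mul_le_of_le_one_left zero_le ((V.valuation_le_one_iff _).2 (hV _))).trans_lt
      (hlt (t i) (ht i) (hc2 i))
  rw [map_one] at h1
  exact lt_irrefl _ h1

/-- The output of row STEP, for the tuple `(x, t)`. -/
def StepAt (D : Fin (n + 1) → Derivation k K K) (A : Subalgebra k K) (S : Submodule k K) (x : K)
    (t : Fin (n + 1) → K) : Prop :=
  ∃ F : Set (Submodule k K), F.Finite ∧ (∀ H ∈ F, ¬ S ≤ H) ∧ ∀ y ∈ S, (∀ H ∈ F, y ∉ H) →
      Wr D (Fin.cons y t) ≠ 0 ∧ Th D A x t + (dg k y t - dg k x t : ℤ) ≤ Th D A y t ∧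
      dg k x t ≤ dg k y t ∧
      (∀ P : PL k t, ∀ s ∈ S, s ≠ 0 → min (P.v y) (P.v (t 0)) ≤ P.v s)

theorem min_le_of_step [Infinite k] (dat : Dat D z A) {S : Submodule k K} (hS : S.FG) {x : K}
    {t : Fin (n + 1) → K} (h : IsMx D A S x t) (hstep : StepAt D A S x t) (P : PL k t) {s : K}
    (hs : s ∈ S) (hs0 : s ≠ 0) : min (P.v x) (P.v (t 0)) ≤ P.v s := by
  classical
  obtain ⟨F, hF, hFS, hy⟩ := hstep
  have hfin : FiniteDimensional k S := Module.Finite.iff_fg.2 hS
  have := hF.fintype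
  obtain ⟨y, hyS, hyF⟩ := Pool.Agent.TGh33.exists_generic_mem S (fun H : F => (H : Submodule k K))
    (fun H => hFS H H.2)
  obtain ⟨hWy, hTh, hdg, hmin⟩ := hy y hyS fun H hH => hyF ⟨H, hH⟩
  have hmax := h.max y t ⟨hyS, h.adm.t_mem, hWy⟩
  have hdeq : dg k y t = dg k x t := by omega
  have hpy := pls_eq dat hWy
  have hpx := pls_eq dat h.adm.ne
  have hFF := ff dat h.adm.ne
  have hx0 := ffi_x h.adm.ne
  have hle : ∀ Q : PL k t, min (Q.v y) (Q.v (t 0)) ≤ Q.v x := fun Q => hmin Q x h.adm.x_mem hx0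
  have hsx := PF.finite_support hFF x
  have hsy := PF.finite_support hFF y
  have hst := PF.finite_support hFF (t 0)
  have h1 : dsum (fun P : PL k t => P.deg) (fun Q : PL k t =>
      pol (fun P => P.v (t 0)) (fun P => P.v y) Q - pol (fun P => P.v (t 0)) (fun P => P.v x) Q) =
      0 := by
    rw [Pool.Agent.TGh71.dsum_sub (Pool.Agent.TGh71.pol_fin hst hsy)
      (Pool.Agent.TGh71.pol_fin hst hsx)]
    change pls k y t - pls k x t = 0
    rw [hpy, hpx, hdeq, sub_self]
  have h2 : ∀ Q : PL k t, 0 ≤ pol (fun P => P.v (t 0)) (fun P => P.v y) Q -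
      pol (fun P => P.v (t 0)) (fun P => P.v x) Q := by
    intro Q
    have := hle Q
    change 0 ≤ max 0 (Q.v (t 0) - Q.v y) - max 0 (Q.v (t 0) - Q.v x)
    omega
  have h3 : (pol (fun P => P.v (t 0)) (fun P => P.v y) P -
      pol (fun P => P.v (t 0)) (fun P => P.v x) P) * (P.deg : ℤ) ≤ 0 := by
    rw [← h1]
    unfold dsum
    refine single_le_finsum P ?_ fun Q => mul_nonneg (h2 Q) (Int.natCast_nonneg _)
    refine Pool.Agent.TGh71.dsum_fin ?_
    refine ((Pool.Agent.TGh71.pol_fin hst hsy).union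
      (Pool.Agent.TGh71.pol_fin hst hsx)).subset fun Q hQ => ?_
    rw [Function.mem_support] at hQ
    rw [Set.mem_union, Function.mem_support, Function.mem_support]
    by_contra hcon
    push Not at hcon
    exact hQ (by rw [hcon.1, hcon.2, sub_self])
  have h4 := P.deg_pos hFF
  have h5 : pol (fun P => P.v (t 0)) (fun P => P.v y) P -
      pol (fun P => P.v (t 0)) (fun P => P.v x) P ≤ 0 := by
    by_contra hcon
    push Not at hcon
    have h6 := mul_pos hcon (Int.natCast_pos.2 h4)
    omega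
  have h7 : max 0 (P.v (t 0) - P.v y) - max 0 (P.v (t 0) - P.v x) ≤ 0 := h5
  have h8 := hmin P s hs hs0
  omega

/-- Row MAXBPF, from the rows STEP, TL and DF. -/
theorem bpf_of_mx_of [Infinite k] (dat : Dat D z A) {S : Submodule k K} (hS : S.FG) {x : K}
    {t : Fin (n + 1) → K} (h : IsMx D A S x t)
    (hstep : ∀ {x : K} {t : Fin (n + 1) → K}, Adm D S x t → StepAt D A S x t)
    (hTl : ∀ a : Fin (n + 1) → k, Th D A (tl x t a) t = Th D A x t ∧
      Wr D (Fin.cons (tl x t a) t) = Wr D (Fin.cons x t))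
    (hTr : ∀ (y : K) (c : Fin (n + 1) → k), Wr D (Fin.cons y (tr y t c)) = Wr D (Fin.cons y t))
    (hDF : ∃ G : MvPolynomial (Fin (n + 1)) k, G ≠ 0 ∧ ∀ a : Fin (n + 1) → k,
      MvPolynomial.eval a G ≠ 0 → ∃ F : MvPolynomial (Fin (n + 1)) k, F ≠ 0 ∧
        ∀ c : Fin (n + 1) → k, MvPolynomial.eval c F ≠ 0 →
          Th D A (tl x t a) t ≤ Th D A (tl x t a) (tr (tl x t a) t c)) : Bpf S x t := by
  obtain ⟨G, hG, hGa⟩ := hDF
  have hTl' : ∀ a : Fin (n + 1) → k, Wr D (Fin.cons (tl x t a) t) ≠ 0 := fun a => by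
    rw [(hTl a).2]; exact h.adm.ne
  have hTr' : ∀ a c : Fin (n + 1) → k,
      Wr D (Fin.cons (tl x t a) (tr (tl x t a) t c)) ≠ 0 := fun a c => by
    rw [hTr]; exact hTl' a
  refine bpf_of_forall dat h.adm.x_mem h.adm.t_mem h.adm.ne hTl' hTr' hG fun a ha => ?_
  obtain ⟨F, hF, hFc⟩ := hGa a ha
  refine ⟨F, hF, fun c hc P s hs hs0 => ?_⟩
  have hxS : tl x t a ∈ S := S.add_mem h.adm.x_mem
    (Submodule.sum_mem _ fun i _ => S.smul_mem _ (h.adm.t_mem i))
  have hadm : Adm D S (tl x t a) (tr (tl x t a) t c) :=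
    ⟨hxS, fun j => S.sub_mem (h.adm.t_mem j) (S.smul_mem _ hxS), hTr' a c⟩
  have hmx : IsMx D A S (tl x t a) (tr (tl x t a) t c) := by
    refine ⟨hadm, fun y u hyu => (h.max y u hyu).trans ?_⟩
    rw [← (hTl a).1]
    exact hFc c hc
  exact min_le_of_step dat hS hmx (hstep hadm) P hs hs0

end Pool.Agent.TG1h38
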