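import Pool.Agent.Lib.TG1_h47.DFc
import Pool.Agent.Lib.TG1.Good

/-!
# Row DF: the polynomial of the bad divisors
-/

set_option autoImplicit false

namespace Pool.Agent.TG1

open MvPolynomial
open Pool.Agent.TG (Ov ZDim IsMin)
open Pool.Agent.TGh33 (Wr DB)
open Pool.Agent.TG1h47 (dgr FinPl IsPlA InfPl)

universe u

variable {k K : Type u} [Field k] [Field K] [Algebra k K]

section

variable {n : ℕ} {D : Fin (n + 1) → Derivation k K K} {z : Fin (n + 1) → K} {A : Subalgebra k K}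

/-- A valuation ring over a polynomial is the ring of a place. -/
theorem exists_pl_of_finPl [Infinite k] (dat : Dat D z A) {x : K} {t : Fin (n + 1) → K}
    (hW : Wr D (Fin.cons x t) ≠ 0) {P : ValuationSubring K}
    {h : MvPolynomial (Fin (n + 1)) k} (hirr : Irreducible h) (hF : FinPl (crd x t) h P) :
    ∃ R : PF.Pl k K, R.vs = P := by
  have hl := algInd_crd dat hW
  have hx0 : x ≠ 0 := ffi_x hW
  obtain ⟨c, -, hne⟩ := TG1h47.exists_center hirr
  have h1 : IsPlA (crd x t) c P := hF.isPlA hl hirr hne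
  have hFF : PF.FF (kap k (tr x t c)) K := ff dat (x := x) (by rw [Wr_tr]; exact hW)
  obtain ⟨Q, hQ, -⟩ := PF.Pl.exists_vs hFF (V := P) (fun y => by
    have h2 : (y : K) ∈ TG1h47.kap (crd x t) c := by
      rw [← kap_tr hx0]
      exact y.2
    exact h1.1 _ h2) h1.2.1
  exact ⟨TG1h47.res _ Q, by rw [TG1h47.res_vs, hQ]⟩

/-- A place of weight zero is good, and the determinant is a unit. -/
theorem wI_eq_zero {x W : K} {R : PF.Pl k K} (h : wI D A x W R = 0) :
    Good D A R.vs ∧ R.v x = 0 ∧ R.v W = 0 := by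
  rw [wI] at h
  split_ifs at h with h1
  · exact ⟨h1.1, h1.2, h⟩
  · exact absurd h one_ne_zero

/-- The polynomial of a bad divisor divides `F`, to the power of the weight. -/
theorem pow_dvd_Fpol [Infinite k] (dat : Dat D z A) {x : K} {t : Fin (n + 1) → K}
    (hW : Wr D (Fin.cons x t) ≠ 0) (T : Finset (PF.Pl k K))
    (hT : ∀ R, R ∈ T ↔ R ∈ Bd D A x t) {R : PF.Pl k K}
    {h : MvPolynomial (Fin (n + 1)) k} (hirr : Irreducible h) (hF : FinPl (crd x t) h R.vs) :
    h ^ (wI D A x (Wr D (Fin.cons x t)) R).toNat ∣ Fpol D A x t T := by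
  by_cases hw : wI D A x (Wr D (Fin.cons x t)) R = 0
  · rw [hw, Int.toNat_zero, pow_zero]
    exact one_dvd _
  have hex : ∃ h : MvPolynomial (Fin (n + 1)) k, Irreducible h ∧ FinPl (crd x t) h R.vs :=
    ⟨h, hirr, hF⟩
  have hR : R ∈ T := (hT R).2 ⟨hex, hw⟩
  obtain ⟨hirr', hF'⟩ := hof_spec hex
  have h1 : h ∣ hof x t R := (hF.2 _).1 ((hF'.2 _).2 dvd_rfl)
  have h2 := eR_pos dat hW hirr hF
  have h3 : hof x t R ^ ((wI D A x (Wr D (Fin.cons x t)) R).toNat * eR x t R) ∣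
      Fpol D A x t T := Finset.dvd_prod_of_mem _ hR
  refine (pow_dvd_pow_of_dvd h1 _).trans ((pow_dvd_pow _ ?_).trans h3)
  exact Nat.le_mul_of_pos_right _ h2

/-- At most one value of `a 0` makes `x + ∑ a_i t_i` special. -/
theorem bad_unique (dat : Dat D z A) {x : K} {t : Fin (n + 1) → K}
    (hW : Wr D (Fin.cons x t) ≠ 0) (Q : PL k t) {a a' : Fin (n + 1) → k}
    (h : Q.v (t 0) < Q.v (tl x t a)) (h' : Q.v (t 0) < Q.v (tl x t a')) : a 0 = a' 0 := by
  have hl := algInd_crd dat hW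
  have hx0 : x ≠ 0 := ffi_x hW
  have ht0 := tne_of_Wr hW
  have hne : ∀ a : Fin (n + 1) → k, tl x t a ≠ 0 := fun a =>
    xne_of_Wr (D := D) (t := t) (by rw [Wr_tl]; exact hW)
  obtain ⟨y, hy⟩ : ∃ y, y = ∑ i, (a i - a' i) • t i := ⟨_, rfl⟩
  have hyd : y = tl x t a - tl x t a' := by
    rw [hy, tl, tl, add_sub_add_left_eq_sub, ← Finset.sum_sub_distrib]
    exact Finset.sum_congr rfl fun i _ => sub_smul _ _ _
  by_cases hy0 : y = 0
  · have h1 : MvPolynomial.aeval (crd x t) (∑ i, C (a i - a' i) * X i) = (0 : K) := by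
      rw [map_sum]
      have h2 : ∀ i, MvPolynomial.aeval (crd x t) (C (a i - a' i) * X i) =
          x⁻¹ * ((a i - a' i) • t i) := by
        intro i
        rw [map_mul, MvPolynomial.algHom_C, MvPolynomial.aeval_X, crd, Algebra.smul_def]
        field_simp
      rw [Finset.sum_congr rfl fun i _ => h2 i, ← Finset.mul_sum, ← hy, hy0, mul_zero]
    have h2 := hl (h1.trans (map_zero _).symm)
    have h3 := congrArg (coeff (Finsupp.single 0 1)) h2
    rw [coeff_sum, Finset.sum_eq_single 0, coeff_C_mul, MvPolynomial.coeff_X', if_pos rfl,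
      mul_one, coeff_zero] at h3
    · exact sub_eq_zero.1 h3
    · intro i _ hi
      rw [coeff_C_mul, MvPolynomial.coeff_X', if_neg, mul_zero]
      intro h4
      exact hi (Finsupp.single_left_injective one_ne_zero h4)
    · intro h4; exact absurd (Finset.mem_univ _) h4
  · exfalso
    have h1 : Q.Ge (Q.v (t 0) + 1) y := by
      rw [hyd]
      exact PF.Pl.Ge.sub (fun _ => h) (fun _ => h')
    have h2 := h1 hy0
    have h3 : y / t 0 ∈ kap k t := by
      rw [hy, Finset.sum_div]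
      refine sum_mem fun i _ => ?_
      rw [smul_div_assoc]
      have h5 : t i / t 0 ∈ kap k t := IntermediateField.subset_adjoin k _ ⟨i, rfl⟩
      exact IntermediateField.smul_mem _ h5
    have h4 := Q.triv ⟨_, h3⟩ (fun h => div_ne_zero hy0 (ht0 0) (congrArg Subtype.val h))
    have h5 : algebraMap (kap k t) K ⟨_, h3⟩ = y / t 0 := rfl
    rw [h5, Q.map_div hy0 (ht0 0)] at h4
    omega

/-- The exceptional `a`. -/
theorem exists_G (dat : Dat D z A) {x : K} {t : Fin (n + 1) → K}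
    (hW : Wr D (Fin.cons x t) ≠ 0) (hx : ∀ a : Fin (n + 1) → k, tl x t a ∈ A)
    (hfin : ((gd D A t)ᶜ).Finite) :
    ∃ G : MvPolynomial (Fin (n + 1)) k, G ≠ 0 ∧ ∀ a : Fin (n + 1) → k, eval a G ≠ 0 →
      ∀ R ∈ Sup D A (tl x t a) t, R.v (tl x t a) = R.v (t 0) := by
  classical
  have hl := algInd_crd dat hW
  have hx0 : x ≠ 0 := ffi_x hW
  have ht0 := tne_of_Wr hW
  have hne : ∀ a : Fin (n + 1) → k, tl x t a ≠ 0 := fun a =>
    xne_of_Wr (D := D) (t := t) (by rw [Wr_tl]; exact hW)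
  have hS := Sup_finite dat hW hfin
  obtain ⟨b, hb⟩ : ∃ b : PF.Pl k K → k, b = fun R =>
      if h : ∃ a : Fin (n + 1) → k, R.v (t 0) < R.v (tl x t a) then h.choose 0 else 0 := ⟨_, rfl⟩
  refine ⟨∏ R ∈ hS.toFinset, (X 0 - C (b R)), ?_, ?_⟩
  · rw [Finset.prod_ne_zero_iff]
    intro R _ h1
    have h2 := congrArg (coeff (Finsupp.single 0 1)) h1
    rw [coeff_sub, MvPolynomial.coeff_X', if_pos rfl, coeff_C, if_neg, coeff_zero,
      sub_zero] at h2
    · exact one_ne_zero h2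
    · intro h3
      exact (Finsupp.single_ne_zero.2 one_ne_zero) h3.symm
  · intro a ha R hR
    -- the value of `tl x t a` is at least that of `t 0`
    obtain ⟨⟨Q, rfl⟩, hw⟩ := hR
    have hge : Q.v (t 0) ≤ Q.v (tl x t a) := by
      rw [wtR, TG1h47.res_vs, TG1h47.res_v] at hw
      split_ifs at hw with h1 h2
      · have h3 := h1.1.le _ (hx a)
        rw [PF.Pl.mem_vs'] at h3
        rw [h1.2]
        exact h3
      · exact h2
      · exact absurd rfl hw
    -- the place is in the support for `x`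
    have hmem : TG1h47.res (kap k t) Q ∈ Sup D A x t := by
      refine ⟨⟨Q, rfl⟩, ?_⟩
      have hgx : Q.v (t 0) ≤ Q.v x := by
        have h1 := v_le_tl (x := tl x t a) ht0 (-a) (by rw [tl_tl]; exact hx0) Q hge
        rwa [tl_tl] at h1
      rw [wtR, TG1h47.res_vs, TG1h47.res_v] at hw ⊢
      rw [Wr_tl] at hw
      by_cases h1 : Good D A Q.vs ∧ Q.v (t 0) = 0
      · rw [if_pos h1] at hw ⊢
        exact hw
      · rw [if_neg h1, if_pos hgx]
        exact one_ne_zero
    by_contra hc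
    have hlt : Q.v (t 0) < Q.v (tl x t a) := lt_of_le_of_ne hge (fun h => hc h.symm)
    apply ha
    rw [map_prod]
    refine Finset.prod_eq_zero (hS.mem_toFinset.2 hmem) ?_
    have h1 : ∃ a : Fin (n + 1) → k, (TG1h47.res (kap k t) Q).v (t 0) <
        (TG1h47.res (kap k t) Q).v (tl x t a) := ⟨a, hlt⟩
    have h2 : b (TG1h47.res (kap k t) Q) = a 0 := by
      rw [hb]
      dsimp only
      rw [dif_pos h1]
      exact bad_unique dat hW Q h1.choose_spec hlt
    rw [map_sub, eval_X, eval_C, h2, sub_self]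

/-- **Row DF.** -/
theorem exists_F_of [Infinite k] (dat : Dat D z A) {x : K} {t : Fin (n + 1) → K}
    (hW : Wr D (Fin.cons x t) ≠ 0) (hx : x ∈ A) (ht : ∀ j, t j ∈ A)
    (hfin : ∀ (y : K) (s : Fin (n + 1) → K), Wr D (Fin.cons y s) ≠ 0 → (∀ j, s j ∈ A) →
      ((gd D A s)ᶜ).Finite) :
    ∃ G : MvPolynomial (Fin (n + 1)) k, G ≠ 0 ∧ ∀ a : Fin (n + 1) → k, eval a G ≠ 0 →
      ∃ F : MvPolynomial (Fin (n + 1)) k, F ≠ 0 ∧
        (∀ c : Fin (n + 1) → k, eval c F ≠ 0 →
          Th D A (tl x t a) t + ordAt 0 F ≤ Th D A (tl x t a) (tr (tl x t a) t c)) ∧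
        (∀ P : ValuationSubring K, Ov k P → ∀ h : MvPolynomial (Fin (n + 1)) k,
          OverP (crd (tl x t a) t) P h →
          UnitAt P (aeval (crd (tl x t a) t) F) → Good D A P ∧ UnitAt P (tl x t a) ∧
            UnitAt P (Wr D (Fin.cons x t) / tl x t a ^ (n + 2))) ∧
        (∀ P : PF.Pl k K, Good D A P.vs → P.v (tl x t a) = 0 →
          ∀ h : MvPolynomial (Fin (n + 1)) k,
          OverP (crd (tl x t a) t) P.vs h →
          P.v (Wr D (Fin.cons x t)) ≤ P.v (aeval (crd (tl x t a) t) F)) := by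
  classical
  have htl : ∀ a : Fin (n + 1) → k, tl x t a ∈ A := fun a =>
    A.add_mem hx (A.sum_mem fun i _ => A.smul_mem (ht i) _)
  obtain ⟨G, hG0, hG⟩ := exists_G dat hW htl (hfin x t hW ht)
  refine ⟨G, hG0, fun a ha => ?_⟩
  obtain ⟨y, hy⟩ : ∃ y, y = tl x t a := ⟨_, rfl⟩
  have hWy : Wr D (Fin.cons y t) = Wr D (Fin.cons x t) := by rw [hy, Wr_tl]
  have hW' : Wr D (Fin.cons y t) ≠ 0 := by rw [hWy]; exact hW
  have hyA : y ∈ A := by rw [hy]; exact htl a
  have hy0 : y ≠ 0 := xne_of_Wr hW'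
  have hl := algInd_crd dat hW'
  have htr : ∀ (c : Fin (n + 1) → k) (j : Fin (n + 1)), tr y t c j ∈ A := fun c j =>
    A.sub_mem (ht j) (A.smul_mem hyA _)
  have hfin' : ∀ c : Fin (n + 1) → k, ((gd D A (tr y t c))ᶜ).Finite := fun c =>
    hfin y (tr y t c) (by rw [Wr_tr]; exact hW') (htr c)
  have hgen : ∀ R ∈ Sup D A y t, R.v y = R.v (t 0) := by
    rw [hy]
    exact hG a ha
  rw [← hy, ← hWy]
  obtain ⟨T, hTdef⟩ : ∃ T, T = (Bd_finite dat hW' hfin').toFinset := ⟨_, rfl⟩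
  have hT : ∀ R, R ∈ T ↔ R ∈ Bd D A y t := fun R => by
    rw [hTdef, Set.Finite.mem_toFinset]
  have ht0 := tne_of_Wr hW'
  have hsub : Sup D A y (tr y t (0 : Fin (n + 1) → k)) ⊆ Bd D A y t := by
    intro R hR
    have hs0 := (TG1h47.rat_indep hl (0 : Fin (n + 1) → k)).2
    have h1 := isPlA_of_mem_Sup hy0 hyA hs0 hR
    have h2 : R.v y = R.v (t 0) := hgen R (by rwa [tr_zero'] at hR)
    have h3 : TG1h47.sh (crd y t) (0 : Fin (n + 1) → k) 0 = t 0 / y := by
      rw [TG1h47.sh, Pi.zero_apply, map_zero, sub_zero, crd]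
    have halg : Algebra.IsAlgebraic (IntermediateField.adjoin k (Set.range (crd y t))) K := by
      have : FiniteDimensional (IntermediateField.adjoin k (Set.range (crd y t))) K :=
        kq_fin dat hW'
      exact Algebra.IsAlgebraic.of_finite _ _
    rcases TG1h47.IsPlA.cases hl halg h1 with h4 | ⟨h, hirr, hF⟩
    · exfalso
      apply h4.2
      rw [h3, PF.Pl.mem_vs', R.map_div (ht0 0) hy0, h2, sub_self]
    · refine ⟨⟨h, hirr, hF⟩, ?_⟩
      rw [← (of_mem_Sup hy0 hyA hl hirr hF hR).2]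
      exact hR.2
  refine ⟨Fpol D A y t T, Fpol_ne_zero y t T, ?_, ?_, ?_⟩
  · intro c hc
    have h1 := bet_add_ord_le dat hW' hyA ht hfin' T hT (b := 0) hsub hc
    rw [tr_zero'] at h1
    rw [ordAt_eq 0 (Fpol_ne_zero y t T), Th, Th, dg_tr]
    linarith
  · intro P hPk h hP hu
    have hF := hP.finPl
    obtain ⟨R, rfl⟩ := exists_pl_of_finPl dat hW' hP.irr hF
    have hw : wI D A y (Wr D (Fin.cons y t)) R = 0 := by
      by_contra hw
      have h1 := pow_dvd_Fpol dat hW' T hT hP.irr hF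
      have h2 := wI_nonneg (D := D) hyA ht R
      have h3 : (wI D A y (Wr D (Fin.cons y t)) R).toNat ≠ 0 := by omega
      have h4 : h ∣ Fpol D A y t T := (dvd_pow_self h h3).trans h1
      have h5 := (hP.iff _).2 h4
      rw [UnitAt] at hu
      rw [hu] at h5
      exact lt_irrefl _ h5
    obtain ⟨h1, h2, h3⟩ := wI_eq_zero hw
    refine ⟨h1, (PF.Pl.val_eq_one_iff hy0).2 h2, ?_⟩
    rw [UnitAt, PF.Pl.val_eq_one_iff (div_ne_zero hW' (pow_ne_zero _ hy0)),
      R.map_div hW' (pow_ne_zero _ hy0), R.map_pow, h2, h3, mul_zero, sub_zero]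
  · intro R hRg hRv h hP
    have hF := hP.finPl
    have h1 := pow_dvd_Fpol dat hW' T hT hP.irr hF
    have hwI : wI D A y (Wr D (Fin.cons y t)) R = R.v (Wr D (Fin.cons y t)) := by
      rw [wI, if_pos ⟨hRg, hRv⟩]
    obtain ⟨q, hq⟩ := h1
    have hF0 := Fpol_ne_zero (D := D) (A := A) y t T
    have hh0 : MvPolynomial.aeval (crd y t) h ≠ (0 : K) := fun h2 =>
      hP.irr.ne_zero (hl (h2.trans (map_zero _).symm))
    have hq0 : MvPolynomial.aeval (crd y t) q ≠ (0 : K) := fun h2 => by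
      have h3 : q = 0 := hl (h2.trans (map_zero _).symm)
      rw [h3, mul_zero] at hq
      exact hF0 hq
    rw [hq, map_mul, map_pow, R.mul _ _ (pow_ne_zero _ hh0) hq0, R.map_pow, hwI]
    have h3 : 0 ≤ R.v (MvPolynomial.aeval (crd y t) q) := by
      rw [← PF.Pl.mem_vs']
      exact hF.1 q
    have h4 : 1 ≤ R.v (MvPolynomial.aeval (crd y t) h) := by
      have h5 : R.vs.valuation (MvPolynomial.aeval (crd y t) h) < 1 := (hP.iff h).2 dvd_rfl
      have h6 := (PF.Pl.val_lt_one_iff hh0).1 h5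
      omega
    have h5 : R.v (Wr D (Fin.cons y t)) ≤ (((R.v (Wr D (Fin.cons y t))).toNat : ℕ) : ℤ) :=
      Int.self_le_toNat _
    have h6 : (0 : ℤ) ≤ (((R.v (Wr D (Fin.cons y t))).toNat : ℕ) : ℤ) := Int.natCast_nonneg _
    nlinarith

/-- **Row DF, the statement of the skeleton.** -/
theorem exists_F [IsAlgClosed k] (dat : Dat D z A) {x : K} {t : Fin (n + 1) → K}
    (hW : Wr D (Fin.cons x t) ≠ 0) (hx : x ∈ A) (ht : ∀ j, t j ∈ A) :
    ∃ G : MvPolynomial (Fin (n + 1)) k, G ≠ 0 ∧ ∀ a : Fin (n + 1) → k, eval a G ≠ 0 →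
      ∃ F : MvPolynomial (Fin (n + 1)) k, F ≠ 0 ∧
        (∀ c : Fin (n + 1) → k, eval c F ≠ 0 →
          Th D A (tl x t a) t + ordAt 0 F ≤ Th D A (tl x t a) (tr (tl x t a) t c)) ∧
        (∀ P : ValuationSubring K, Ov k P → ∀ h : MvPolynomial (Fin (n + 1)) k,
          OverP (crd (tl x t a) t) P h →
          UnitAt P (aeval (crd (tl x t a) t) F) → Good D A P ∧ UnitAt P (tl x t a) ∧
            UnitAt P (Wr D (Fin.cons x t) / tl x t a ^ (n + 2))) ∧
        (∀ P : PF.Pl k K, Good D A P.vs → P.v (tl x t a) = 0 →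
          ∀ h : MvPolynomial (Fin (n + 1)) k,
          OverP (crd (tl x t a) t) P.vs h →
          P.v (Wr D (Fin.cons x t)) ≤ P.v (aeval (crd (tl x t a) t) F)) :=
  have : Infinite k := IsAlgClosed.instInfinite
  exists_F_of dat hW hx ht fun _ _ h hs => finite_gd_compl dat h hs

end

end Pool.Agent.TG1
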