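import Pool.Agent.Lib.TG1.Defs
import Pool.Agent.Lib.TG_h3.A0
import Pool.Agent.Lib.MP_0c183c_TD.Tan

/-!
# TANK G, block G1: existence of the data
-/

set_option autoImplicit false

namespace Pool.Agent.TG1

open Pool.Agent.TG (Ov ZDim IsMin ncl)
open Pool.Agent.TGh33 (Wr DB)

universe u

variable {k K : Type u} [Field k] [Field K] [Algebra k K]

namespace DatAux

/-- The localisation `S[1 / w]`. -/
def loc (S : Subalgebra k K) (w : K) (hw : w ∈ S) : Subalgebra k K where
  carrier := {x | ∃ m : ℕ, w ^ m * x ∈ S}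
  mul_mem' := by
    rintro a b ⟨m, hm⟩ ⟨l, hl⟩
    refine ⟨m + l, ?_⟩
    have e : w ^ (m + l) * (a * b) = (w ^ m * a) * (w ^ l * b) := by ring
    rw [e]
    exact S.mul_mem hm hl
  add_mem' := by
    rintro a b ⟨m, hm⟩ ⟨l, hl⟩
    refine ⟨m + l, ?_⟩
    have e : w ^ (m + l) * (a + b) = w ^ l * (w ^ m * a) + w ^ m * (w ^ l * b) := by ring
    rw [e]
    exact S.add_mem (S.mul_mem (S.pow_mem hw _) hm) (S.mul_mem (S.pow_mem hw _) hl)
  algebraMap_mem' := fun c => ⟨0, by rw [pow_zero, one_mul]; exact S.algebraMap_mem c⟩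

variable {S : Subalgebra k K} {w : K} {hw : w ∈ S}

theorem mem_loc {x : K} : x ∈ loc S w hw ↔ ∃ m : ℕ, w ^ m * x ∈ S := Iff.rfl

theorem le_loc : S ≤ loc S w hw := fun x hx => ⟨0, by rw [pow_zero, one_mul]; exact hx⟩

theorem inv_mem_loc (hw0 : w ≠ 0) : w⁻¹ ∈ loc S w hw :=
  ⟨1, by rw [pow_one, mul_inv_cancel₀ hw0]; exact S.one_mem⟩

theorem loc_fg (hw0 : w ≠ 0) (hS : S.FG) : (loc S w hw).FG := by
  classical
  obtain ⟨F, hF⟩ := hS
  refine ⟨insert w⁻¹ F, le_antisymm ?_ ?_⟩
  · rw [Algebra.adjoin_le_iff]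
    intro x hx
    rw [Finset.coe_insert] at hx
    rcases hx with rfl | hx
    · exact inv_mem_loc hw0
    · exact le_loc (hF ▸ Algebra.subset_adjoin hx)
  · rintro x ⟨m, hm⟩
    have h1 : S ≤ Algebra.adjoin k ((insert w⁻¹ F : Finset K) : Set K) := by
      rw [← hF]
      exact Algebra.adjoin_mono (by rw [Finset.coe_insert]; exact Set.subset_insert _ _)
    have h2 : w⁻¹ ∈ Algebra.adjoin k ((insert w⁻¹ F : Finset K) : Set K) :=
      Algebra.subset_adjoin (by simp)
    have h3 := mul_mem (pow_mem h2 m) (h1 hm)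
    rwa [← mul_assoc, ← mul_pow, inv_mul_cancel₀ hw0, one_pow, one_mul] at h3

/-- The localisation of an integrally closed ring is integrally closed. -/
theorem loc_clos (hS : ∀ x : K, IsIntegral S x → x ∈ S) (x : K)
    (hx : IsIntegral (loc S w hw) x) : x ∈ loc S w hw := by
  classical
  obtain ⟨p, hp, hpx⟩ := hx
  have h1 : ∀ i, ∃ m : ℕ, w ^ m * (p.coeff i : K) ∈ S := fun i => (p.coeff i).2
  choose m hm using h1
  let M := ∑ i ∈ Finset.range (p.natDegree + 1), m i
  have hM : ∀ i ∈ Finset.range (p.natDegree + 1), m i ≤ M := fun i hi =>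
    Finset.single_le_sum (f := m) (fun _ _ => Nat.zero_le _) hi
  let d := p.natDegree
  have h2 : ∀ i, w ^ (M * (d - i)) * (p.coeff i : K) ∈ S := by
    intro i
    by_cases hi : i < d
    · have h3 : w ^ (M * (d - i)) * (p.coeff i : K) =
          w ^ (M * (d - i) - m i) * (w ^ m i * (p.coeff i : K)) := by
        rw [← mul_assoc, ← pow_add]
        congr 2
        have h4 := hM i (Finset.mem_range.2 (by omega))
        have h5 : M * 1 ≤ M * (d - i) := Nat.mul_le_mul_left _ (by omega)
        omega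
      rw [h3]
      exact S.mul_mem (S.pow_mem hw _) (hm i)
    · by_cases hi' : i = d
      · rw [hi']
        have h3 : p.coeff d = 1 := hp
        rw [h3]
        simp
      · have h3 : p.coeff i = 0 := Polynomial.coeff_eq_zero_of_natDegree_lt (by omega)
        rw [h3, ZeroMemClass.coe_zero, mul_zero]
        exact S.zero_mem
  let q : Polynomial S := ∑ i ∈ Finset.range (d + 1), Polynomial.monomial i ⟨_, h2 i⟩
  have hq : ∀ j ≤ d, ((q.coeff j : S) : K) = w ^ (M * (d - j)) * (p.coeff j : K) := by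
    intro j hj
    rw [Polynomial.finsetSum_coeff]
    simp only [Polynomial.coeff_monomial]
    rw [Finset.sum_ite_eq' (Finset.range (d + 1)) j, if_pos (Finset.mem_range.2 (by omega))]
  have hqd : q.natDegree ≤ d := by
    refine Polynomial.natDegree_sum_le_of_forall_le _ _ fun i hi => ?_
    exact (Polynomial.natDegree_monomial_le _).trans (by
      have := Finset.mem_range.1 hi
      omega)
  have hqm : q.Monic := by
    refine Polynomial.monic_of_natDegree_le_of_coeff_eq_one d hqd ?_
    apply Subtype.ext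
    rw [hq d le_rfl, Nat.sub_self, mul_zero, pow_zero, one_mul]
    have h3 : p.coeff d = 1 := hp
    rw [h3]
    rfl
  have h6 : IsIntegral S (w ^ M * x) := by
    refine ⟨q, hqm, ?_⟩
    rw [Polynomial.eval₂_eq_sum_range' _ (Nat.lt_succ_of_le hqd)]
    rw [Polynomial.eval₂_eq_sum_range' _ (Nat.lt_succ_self p.natDegree)] at hpx
    have h7 : ∑ i ∈ Finset.range d.succ, algebraMap S K (q.coeff i) * (w ^ M * x) ^ i =
        w ^ (M * d) * ∑ i ∈ Finset.range p.natDegree.succ,
          algebraMap (loc S w hw) K (p.coeff i) * x ^ i := by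
      rw [Finset.mul_sum]
      refine Finset.sum_congr rfl fun i hi => ?_
      have hi' : i ≤ d := by
        have := Finset.mem_range.1 hi
        omega
      have h8 : algebraMap S K (q.coeff i) = w ^ (M * (d - i)) * (p.coeff i : K) := hq i hi'
      have h9 : algebraMap (loc S w hw) K (p.coeff i) = (p.coeff i : K) := rfl
      have h10 : w ^ (M * d) = w ^ (M * (d - i)) * w ^ (M * i) := by
        rw [← pow_add, ← mul_add, Nat.sub_add_cancel hi']
      rw [h8, h9, h10, mul_pow, ← pow_mul]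
      ring
    rw [h7, hpx, mul_zero]
  exact ⟨M, hS _ h6⟩

/-- Stability under a derivation. -/
theorem loc_stab (hw0 : w ≠ 0) {δ : Derivation k K K} (h : ∀ a ∈ S, δ a ∈ loc S w hw) (a : K)
    (ha : a ∈ loc S w hw) : δ a ∈ loc S w hw := by
  obtain ⟨m, hm⟩ := ha
  have h1 := h _ hm
  rw [δ.leibniz, δ.leibniz_pow, smul_eq_mul, smul_eq_mul, smul_eq_mul] at h1
  have hwl : ∀ l : ℕ, w ^ l ∈ loc S w hw := fun l => pow_mem (le_loc (S := S) hw) l
  have h2 : a * (m • (w ^ (m - 1) * δ w)) ∈ loc S w hw :=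
    mul_mem ⟨m, hm⟩ (nsmul_mem (mul_mem (hwl _) (h w hw)) m)
  have h3 := sub_mem h1 h2
  rw [add_sub_cancel_right] at h3
  have h4 := mul_mem (pow_mem (inv_mem_loc (S := S) (hw := hw) hw0) m) h3
  rwa [← mul_assoc, ← mul_pow, inv_mul_cancel₀ hw0, one_pow, one_mul] at h4

theorem der_mem_of_adjoin {T : Set K} {δ : Derivation k K K} {A : Subalgebra k K}
    (hT : ∀ t ∈ T, δ t ∈ A) (hA : Algebra.adjoin k T ≤ A) {a : K} (ha : a ∈ Algebra.adjoin k T) :
    δ a ∈ A := by
  induction ha using Algebra.adjoin_induction with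
  | mem x hx => exact hT x hx
  | algebraMap c => rw [δ.map_algebraMap]; exact A.zero_mem
  | add x y _ _ hx hy => rw [map_add]; exact A.add_mem hx hy
  | mul x y hx' hy' hx hy =>
    rw [δ.leibniz, smul_eq_mul, smul_eq_mul]
    exact A.add_mem (A.mul_mem (hA hx') hy) (A.mul_mem (hA hy') hx)

end DatAux

open DatAux in
/-- **Row DAT.** Existence of the data. -/
theorem exists_dat [IsAlgClosed k] (n : ℕ) (hK : (⊤ : IntermediateField k K).FG)
    (ht : Algebra.trdeg k K = n + 1) (Z : Finset K) :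
    ∃ (D : Fin (n + 1) → Derivation k K K) (z : Fin (n + 1) → K) (A : Subalgebra k K),
      Dat D z A ∧ ∀ x ∈ Z, x ≠ 0 → x ∈ A ∧ x⁻¹ ∈ A := by
  classical
  have hess : Algebra.EssFiniteType k K := IntermediateField.fg_top_iff.1 hK
  obtain ⟨s, hs, hsep⟩ := exists_isTranscendenceBasis_and_isSeparable_of_perfectField k K
  have hcard : Fintype.card s = n + 1 := by
    have h1 := hs.cardinalMk_eq_trdeg
    rw [ht, Cardinal.mk_coe_finset] at h1
    rw [Fintype.card_coe]
    exact_mod_cast h1
  let e : Fin (n + 1) ≃ s := (Fintype.equivFinOfCardEq hcard).symm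
  let z : Fin (n + 1) → K := fun i => (e i : K)
  have hD : ∀ i : Fin (n + 1), ∃ d : Derivation k K K, ∀ j : s,
      d (j : K) = if j = e i then 1 else 0 := fun i =>
    Pool.Agent.Lib.MP_0c183c_TD.exists_der_basis s hs hsep fun j => if j = e i then 1 else 0
  choose D hD using hD
  have hDz : ∀ i j, D i (z j) = if i = j then 1 else 0 := by
    intro i j
    rw [hD i (e j)]
    by_cases h : i = j
    · rw [if_pos h, if_pos (by rw [h])]
    · rw [if_neg h, if_neg fun h' => h (e.injective h').symm]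
  have hdb : DB D z := by
    refine ⟨hDz, fun δ x => ?_⟩
    let δ' : Derivation k K K := δ - Pool.Agent.TGh33.comb D fun i => δ (z i)
    have h0 : ∀ a ∈ IntermediateField.adjoin k (s : Set K), δ' a = 0 := by
      intro a ha
      have h2 : IntermediateField.adjoin k (s : Set K) ≤ Pool.Agent.TGh33.consts δ' := by
        rw [IntermediateField.adjoin_le_iff]
        intro a ha
        obtain ⟨j, hj⟩ := e.surjective ⟨a, ha⟩
        have h3 : a = z j := by rw [show z j = ((e j : s) : K) from rfl, hj]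
        change δ a - Pool.Agent.TGh33.comb D (fun i => δ (z i)) a = 0
        rw [Pool.Agent.TGh33.comb_apply, h3, Finset.sum_eq_single j]
        · rw [hDz, if_pos rfl, mul_one, sub_self]
        · intro i _ hi
          rw [hDz, if_neg hi, mul_zero]
        · intro h; exact absurd (Finset.mem_univ _) h
      exact h2 ha
    have h1 : δ' = 0 := Pool.Agent.Lib.MP_0c183c_TD.der_eq_zero_of_separable
      (F := IntermediateField.adjoin k (s : Set K)) δ' fun a => h0 a a.2
    have h2 : δ x - Pool.Agent.TGh33.comb D (fun i => δ (z i)) x = 0 := by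
      have h3 := DFunLike.congr_fun h1 x
      exact h3
    rw [Pool.Agent.TGh33.comb_apply] at h2
    exact sub_eq_zero.1 h2
  obtain ⟨C, hCfg, hCcl, hCfr, hCZ⟩ := Pool.Agent.TGD.exists_A0 hK (Z ∪ Finset.univ.image z)
  obtain ⟨T, hT⟩ := id hCfg
  -- the denominators of the derivatives of the generators
  choose num hnum den hden hden0 hfr using hCfr
  let Y : Finset K := Finset.univ.biUnion fun i => T.image fun t => D i t
  let w : K := ∏ y ∈ Y, den y
  have hw : w ∈ C := C.prod_mem fun y _ => hden y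
  have hw0 : w ≠ 0 := Finset.prod_ne_zero_iff.2 fun y _ => hden0 y
  have hY : ∀ y ∈ Y, y ∈ loc C w hw := by
    intro y hy
    refine ⟨1, ?_⟩
    have h1 : w = den y * ∏ y' ∈ Y.erase y, den y' := (Finset.mul_prod_erase Y den hy).symm
    have h2 : w ^ 1 * y = num y * ∏ y' ∈ Y.erase y, den y' := by
      have h3 : y * den y = num y := (eq_div_iff (hden0 y)).1 (hfr y)
      rw [pow_one, h1, ← h3]
      ring
    rw [h2]
    exact C.mul_mem (hnum y) (C.prod_mem fun y _ => hden y)
  have hDC : ∀ i, ∀ a ∈ C, D i a ∈ loc C w hw := by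
    intro i a ha
    rw [← hT] at ha
    refine der_mem_of_adjoin (T := (T : Set K)) ?_ ?_ ha
    · intro t ht
      exact hY _ (Finset.mem_biUnion.2 ⟨i, Finset.mem_univ _,
        Finset.mem_image_of_mem _ (Finset.mem_coe.1 ht)⟩)
    · rw [hT]
      exact le_loc
  refine ⟨D, z, loc C w hw, ⟨hK, ht, hdb, loc_fg hw0 hCfg, ?_, ?_, ?_, ?_⟩, ?_⟩
  · intro x
    exact ⟨num x, le_loc (hnum x), den x, le_loc (hden x), hden0 x, hfr x⟩
  · intro i a ha
    exact loc_stab hw0 (hDC i) a ha
  · exact loc_clos hCcl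
  · intro i
    exact le_loc (hCZ _ (Finset.mem_union_right _ (Finset.mem_image_of_mem _
      (Finset.mem_univ i)))).1
  · intro x hx _
    have h1 := hCZ x (Finset.mem_union_left _ hx)
    exact ⟨le_loc h1.1, le_loc h1.2⟩

end Pool.Agent.TG1
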