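import Pool.Agent.Lib.TG.Basic
import Pool.Agent.Lib.TG_h33.W2
import Pool.Agent.Lib.TG_h38.PFg
import Pool.Agent.Lib.TG_h7.Step

/-!
# TANK G, block G1: definitions

`K` has transcendence degree `n + 1` over `k`; a tuple is a pair `(x, t)`, `x : K`,
`t : Fin (n + 1) → K`; `kap k t = k(t_j / t_0)`, `K / kap k t` is a function field of one variable.
-/

set_option autoImplicit false

namespace Pool.Agent.TG1

open Pool.Agent.TG (Ov ZDim IsMin)
open Pool.Agent.TGh33 (Wr DB)
open Pool.Agent.TGh71 (dsum pol wgt)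

universe u

variable {k K : Type u} [Field k] [Field K] [Algebra k K]

/-- `x` is a unit of `P`. -/
def UnitAt (P : ValuationSubring K) (x : K) : Prop := P.valuation x = 1

/-- `k(t_1 / t_0, .., t_n / t_0)`. -/
def kap (k : Type u) {K : Type u} [Field k] [Field K] [Algebra k K] {n : ℕ}
    (t : Fin (n + 1) → K) : IntermediateField k K :=
  IntermediateField.adjoin k (Set.range fun j : Fin (n + 1) => t j / t 0)

/-- `k(t_0 / x, .., t_n / x)`. -/
def kq (k : Type u) {K : Type u} [Field k] [Field K] [Algebra k K] {n : ℕ} (x : K)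
    (t : Fin (n + 1) → K) : IntermediateField k K :=
  IntermediateField.adjoin k (Set.range fun j : Fin (n + 1) => t j / x)

/-- The places of `K / kap k t`. -/
abbrev PL (k : Type u) {K : Type u} [Field k] [Field K] [Algebra k K] {n : ℕ}
    (t : Fin (n + 1) → K) : Type u := PF.Pl (kap k t) K

/-- The data: `A` a finitely generated integrally closed algebra with field of fractions `K`,
stable under the derivations `D` (a basis of the derivations, dual to `z`). -/
structure Dat {n : ℕ} (D : Fin (n + 1) → Derivation k K K) (z : Fin (n + 1) → K)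
    (A : Subalgebra k K) : Prop where
  fgK : (⊤ : IntermediateField k K).FG
  trd : Algebra.trdeg k K = n + 1
  db : DB D z
  fg : A.FG
  frac : ∀ x : K, ∃ a ∈ A, ∃ b ∈ A, b ≠ 0 ∧ x = a / b
  stab : ∀ i, ∀ a ∈ A, D i a ∈ A
  clos : ∀ x : K, IsIntegral A x → x ∈ A
  z_mem : ∀ i, z i ∈ A

/-- Good valuation rings. -/
structure Good {n : ℕ} (D : Fin (n + 1) → Derivation k K K) (A : Subalgebra k K)
    (P : ValuationSubring K) : Prop where
  le : ∀ a ∈ A, a ∈ P
  stab : ∀ i, ∀ a ∈ P, D i a ∈ P

section

variable {n : ℕ} (D : Fin (n + 1) → Derivation k K K) (A : Subalgebra k K)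

/-- The good places of `K / kap k t`: `P` is good and `t 0` is a unit. -/
def gd (t : Fin (n + 1) → K) : Set (PL k t) := {P | Good D A P.vs ∧ P.v (t 0) = 0}

/-- The degree of the poles of `x / t 0`. -/
noncomputable def pls (k : Type u) {K : Type u} [Field k] [Field K] [Algebra k K] {n : ℕ} (x : K)
    (t : Fin (n + 1) → K) : ℤ :=
  dsum (fun P : PL k t => P.deg) (pol (fun P => P.v (t 0)) fun P => P.v x)

/-- `β(x, t)`: weighted number of places which are not poles of `x / t 0`. -/
noncomputable def bet (x : K) (t : Fin (n + 1) → K) : ℤ :=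
  dsum (fun P : PL k t => P.deg)
    (wgt (gd D A t) (fun P => P.v (t 0)) (fun P => P.v x) fun P => P.v (Wr D (Fin.cons x t)))

/-- `d(x, t) = [K : k(t_j / x)]`. -/
noncomputable def dg (k : Type u) {K : Type u} [Field k] [Field K] [Algebra k K] {n : ℕ} (x : K)
    (t : Fin (n + 1) → K) : ℕ := Module.finrank (kq k x t) K

/-- The potential of a tuple. -/
noncomputable def Th (x : K) (t : Fin (n + 1) → K) : ℤ := 2 * (dg k x t : ℤ) + bet D A x t

/-- Admissible tuples of `S`. -/
structure Adm (S : Submodule k K) (x : K) (t : Fin (n + 1) → K) : Prop where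
  x_mem : x ∈ S
  t_mem : ∀ j, t j ∈ S
  ne : Wr D (Fin.cons x t) ≠ 0

/-- Tuples of maximal potential. -/
structure IsMx (S : Submodule k K) (x : K) (t : Fin (n + 1) → K) : Prop where
  adm : Adm D S x t
  max : ∀ y s, Adm D S y s → Th D A y s ≤ Th D A x t

/-- `t_i - c_i x`: projection from the point `(1, c)`. -/
def tr (x : K) (t : Fin (n + 1) → K) (c : Fin (n + 1) → k) : Fin (n + 1) → K :=
  fun i => t i - c i • x

/-- `x + ∑ a_i t_i`. -/
def tl (x : K) (t : Fin (n + 1) → K) (a : Fin (n + 1) → k) : K := x + ∑ i, a i • t i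

/-- `(x, t)` is base point free in `S`: at every valuation ring, `x` or some `t j` is minimal. -/
def Bpf (S : Submodule k K) (x : K) (t : Fin (n + 1) → K) : Prop :=
  ∀ V : ValuationSubring K, Ov k V → IsMin V S x ∨ ∃ j, IsMin V S (t j)

end

/-- `s` is an element of `S` of non-minimal value. -/
def InHyp (V : ValuationSubring K) (S : Submodule k K) (s : K) : Prop :=
  s ∈ S ∧ ∃ f, IsMin V S f ∧ V.valuation (s / f) < 1

/-- `S'` is the hyperplane of the elements of `S` of non-minimal value at `V`. -/
def IsHyp (V : ValuationSubring K) (S S' : Submodule k K) : Prop := ∀ s, s ∈ S' ↔ InHyp V S s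

/-- `k[l] ⊆ P` and `m_P ∩ k[l]` is generated by the irreducible polynomial `h`. -/
structure OverP {n : ℕ} (l : Fin (n + 1) → K) (P : ValuationSubring K)
    (h : MvPolynomial (Fin (n + 1)) k) : Prop where
  mem : ∀ i, l i ∈ P
  irr : Irreducible h
  iff : ∀ G : MvPolynomial (Fin (n + 1)) k, P.valuation (MvPolynomial.aeval l G) < 1 ↔ h ∣ G

/-- The order of a polynomial at the point `c`. -/
noncomputable def ordAt {n : ℕ} (c : Fin (n + 1) → k) (F : MvPolynomial (Fin (n + 1)) k) : ℕ :=
  sInf {m | MvPolynomial.homogeneousComponent m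
    (MvPolynomial.aeval (fun i => MvPolynomial.X i + MvPolynomial.C (c i)) F) ≠ 0}

/-- The affine coordinates `t_i / x`. -/
def crd {n : ℕ} (x : K) (t : Fin (n + 1) → K) : Fin (n + 1) → K := fun i => t i / x

end Pool.Agent.TG1
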