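import Pool.Agent.Lib.TG1.Defs
import Pool.Agent.Lib.TG1_h47.Pl

/-!
# TANK G, G1, row DEG (helper4; over the cores of helper5, helper38, helper47)
-/

set_option autoImplicit false

namespace Pool.Agent.TG1

open MvPolynomial IsLocalRing
open Pool.Agent.TG1h5 (ord0 psi)
open Pool.Agent.TG1h47 (tr_ne_zero dgr rF algRes)

universe u

section Ord

variable {k : Type*} [Field k] {n : ℕ}

theorem ordAt_eq (c : Fin (n + 1) → k) {F : MvPolynomial (Fin (n + 1)) k} (hF : F ≠ 0) :
    ordAt c F = TG1h47.ordAt c F := by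
  classical
  have h0 : TG1h47.tr c F ≠ 0 := tr_ne_zero c hF
  have h1 : ∀ m, homogeneousComponent m (TG1h47.tr c F) ≠ 0 ↔
      ∃ d ∈ (TG1h47.tr c F).support, Finsupp.degree d = m := by
    intro m
    constructor
    · intro h
      obtain ⟨d, hd⟩ := support_nonempty.2 h
      rw [mem_support_iff, coeff_homogeneousComponent] at hd
      by_cases h2 : d.degree = m
      · rw [if_pos h2] at hd
        exact ⟨d, mem_support_iff.2 hd, h2⟩
      · rw [if_neg h2] at hd
        exact absurd rfl hd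
    · rintro ⟨d, hd, hm⟩ h
      have h2 := congrArg (coeff d) h
      rw [coeff_homogeneousComponent, if_pos hm, coeff_zero] at h2
      exact mem_support_iff.1 hd h2
  change sInf {m | homogeneousComponent m (TG1h47.tr c F) ≠ 0} = _
  obtain ⟨d, hd, hd'⟩ := Pool.Agent.TAO.exists_wo (fun _ => 1) h0
  rw [Pool.Agent.TG1h5.weight_one'] at hd'
  refine le_antisymm ?_ ?_
  · apply Nat.sInf_le
    exact (h1 _).2 ⟨d, hd, hd'⟩
  · have hne : {m | homogeneousComponent m (TG1h47.tr c F) ≠ 0}.Nonempty :=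
      ⟨_, (h1 _).2 ⟨d, hd, rfl⟩⟩
    obtain ⟨e, he, he'⟩ := (h1 _).1 (Nat.sInf_mem hne)
    rw [← he', ← Pool.Agent.TG1h5.weight_one']
    exact Pool.Agent.TAO.wo_le _ he

end Ord

section DegEq

variable {k K : Type u} [Field k] [Field K] [Algebra k K]

/-- The degree of a place is the degree of the residue field. -/
theorem deg_eq (κ : IntermediateField k K) (Q : PF.Pl κ K) :
    Q.deg = dgr κ.toSubfield Q.vs := by
  have hk : ∀ c : κ, algebraMap κ K c ∈ Q.vs := Q.algebraMap_mem_vs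
  let _ := algRes Q.vs hk
  have hmem : ∀ x : Q.L 0, (x : K) ∈ Q.vs := fun x => x.2
  let φ : Q.L 0 →ₗ[κ] ResidueField Q.vs :=
    { toFun := fun x => residue Q.vs ⟨x, hmem x⟩
      map_add' := fun x y => by
        rw [← map_add]
        rfl
      map_smul' := fun c x => by
        rw [RingHom.id_apply, Algebra.smul_def]
        change _ = TG1h47.kres Q.vs hk c * _
        rw [TG1h47.kres_apply, ← map_mul]
        exact congrArg _ (Subtype.ext (Algebra.smul_def c (x : K))) }
  let ψ : Q.L 0 →ₗ[κ] PF.Qt (Q.L 0) (Q.L 1) :=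
    ((Q.L 1).mkQ.comp (Q.L 0).subtype).codRestrict _ fun x => ⟨x, x.2, rfl⟩
  have hφ : Function.Surjective φ := by
    intro y
    obtain ⟨x, rfl⟩ := residue_surjective y
    exact ⟨⟨x, x.2⟩, rfl⟩
  have hψ : Function.Surjective ψ := by
    rintro ⟨_, x, hx, rfl⟩
    exact ⟨⟨x, hx⟩, rfl⟩
  have hker : LinearMap.ker φ = LinearMap.ker ψ := by
    ext x
    rw [LinearMap.mem_ker, LinearMap.mem_ker]
    have h1 : φ x = 0 ↔ Q.Ge 1 (x : K) := by
      change residue Q.vs ⟨x, hmem x⟩ = 0 ↔ _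
      rw [residue_eq_zero_iff, Q.vs.valuation_lt_one_iff]
      by_cases hx : (x : K) = 0
      · rw [hx]
        simp [PF.Pl.Ge]
      · rw [PF.Pl.val_lt_one_iff hx]
        constructor
        · intro h _
          omega
        · intro h
          have := h hx
          omega
    have h2 : ψ x = 0 ↔ Q.Ge 1 (x : K) := by
      rw [← Subtype.coe_inj]
      change (Q.L 1).mkQ (x : K) = 0 ↔ _
      rw [Submodule.mkQ_apply, Submodule.Quotient.mk_eq_zero]
      rfl
    rw [h1, h2]
  have e : PF.Qt (Q.L 0) (Q.L 1) ≃ₗ[κ] ResidueField Q.vs :=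
    ((LinearMap.quotKerEquivOfSurjective ψ hψ).symm.trans
      (Submodule.quotEquivOfEq _ _ hker.symm)).trans (LinearMap.quotKerEquivOfSurjective φ hφ)
  have h3 : Q.deg = Module.finrank κ (ResidueField Q.vs) := e.finrank_eq
  rw [h3, dgr]
  let i0 : κ →+* rF Q.vs κ.toSubfield :=
    (TG1h47.kres Q.vs hk).codRestrict _ fun c => ⟨⟨c, hk c⟩, c.2, rfl⟩
  have hi0 : Function.Bijective i0 := by
    constructor
    · exact i0.injective
    · rintro ⟨_, x, hx, rfl⟩
      exact ⟨⟨x, hx⟩, rfl⟩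
  exact Algebra.finrank_eq_of_equiv_equiv (RingEquiv.ofBijective i0 hi0) (RingEquiv.refl _)
    (RingHom.ext fun _ => rfl)

variable {n : ℕ}

theorem kap_eq (l : Fin (n + 1) → K) (c : Fin (n + 1) → k) :
    kap k (fun i => l i - algebraMap k K (c i)) = TG1h47.kap l c := by
  apply le_antisymm
  · rw [kap, IntermediateField.adjoin_le_iff]
    rintro _ ⟨j, rfl⟩
    refine Fin.cases ?_ (fun i => ?_) j
    · by_cases h0 : l 0 - algebraMap k K (c 0) = 0
      · change (l 0 - algebraMap k K (c 0)) / (l 0 - algebraMap k K (c 0)) ∈ _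
        rw [h0, zero_div]
        exact zero_mem _
      · change (l 0 - algebraMap k K (c 0)) / (l 0 - algebraMap k K (c 0)) ∈ _
        rw [div_self h0]
        exact one_mem _
    · exact IntermediateField.subset_adjoin k _ ⟨i, rfl⟩
  · rw [TG1h47.kap, IntermediateField.adjoin_le_iff]
    rintro _ ⟨i, rfl⟩
    exact IntermediateField.subset_adjoin k _ ⟨i.succ, rfl⟩

theorem aeval_psi (y : Fin (n + 1) → K) (h0 : y 0 ≠ 0) (g : MvPolynomial (Fin (n + 1)) k) :
    aeval y g = Polynomial.eval₂ (aeval (TG1h47.rat y) : MvPolynomial (Fin n) k →ₐ[k] K).toRingHom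
      (y 0) (psi k n g) := by
  induction g using MvPolynomial.induction_on with
  | C c =>
    rw [TG1h5.psi_C, Polynomial.eval₂_C, MvPolynomial.algHom_C]
    exact (MvPolynomial.algHom_C (MvPolynomial.aeval (TG1h47.rat y)) c).symm
  | add p q hp hq => rw [map_add, map_add, Polynomial.eval₂_add, hp, hq]
  | mul_X p i hp =>
    rw [map_mul, map_mul, Polynomial.eval₂_mul, hp, MvPolynomial.aeval_X]
    congr 1
    refine Fin.cases ?_ (fun j => ?_) i
    · rw [TG1h5.psi_zero, Polynomial.eval₂_X]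
    · rw [TG1h5.psi_succ, Polynomial.eval₂_mul, Polynomial.eval₂_X, Polynomial.eval₂_C]
      change _ = _ * MvPolynomial.aeval (TG1h47.rat y) (MvPolynomial.X j)
      rw [MvPolynomial.aeval_X, TG1h47.rat, mul_div_cancel₀ _ h0]

theorem transc0 {t : Fin (n + 1) → K} (hi : AlgebraicIndependent k (TG1h47.rat t))
    (ht : AlgebraicIndependent k t) (h0 : t 0 ≠ 0) (M : IntermediateField k K)
    (hM : M = IntermediateField.adjoin k (Set.range (TG1h47.rat t))) :
    Transcendental M (t 0) := by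
  have hs : ∀ i : Fin n, TG1h47.rat t i ∈ M := fun i => by
    rw [hM]
    exact IntermediateField.subset_adjoin k _ ⟨i, rfl⟩
  let _ : Algebra (MvPolynomial (Fin n) k) M :=
    (TAO.toAdj (TG1h47.rat t) M hs).toRingHom.toAlgebra
  have hfr : IsFractionRing (MvPolynomial (Fin n) k) M := TG1h5.isFractionRing_adj hi M hs hM
  let _ : Algebra (MvPolynomial (Fin n) k) K :=
    ((algebraMap M K).comp (algebraMap (MvPolynomial (Fin n) k) M)).toAlgebra
  have htow : IsScalarTower (MvPolynomial (Fin n) k) M K := IsScalarTower.of_algebraMap_eq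
    fun _ => rfl
  have hA : ∀ a : MvPolynomial (Fin n) k, algebraMap (MvPolynomial (Fin n) k) K a =
      MvPolynomial.aeval (TG1h47.rat t) a := fun a => TAO.coe_toAdj _ M hs a
  intro halg
  obtain ⟨G, hG0, hGz, -, -⟩ := TG1h5.exists_clear (A := MvPolynomial (Fin n) k) halg.isIntegral
  obtain ⟨N, g, hg⟩ := TG1h5.exists_lift G
  have h1 : aeval t g = (0 : K) := by
    rw [aeval_psi t h0, hg, Polynomial.eval₂_mul]
    have h2 : Polynomial.eval₂ (aeval (TG1h47.rat t) : MvPolynomial (Fin n) k →ₐ[k] K).toRingHom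
        (t 0) G = Polynomial.aeval (t 0) G := by
      rw [Polynomial.aeval_def]
      congr 1
      exact RingHom.ext fun a => (hA a).symm
    rw [h2, hGz, mul_zero]
  have h2 : g = 0 := ht (by rw [h1, map_zero])
  rw [h2, map_zero] at hg
  exact mul_ne_zero (pow_ne_zero _ Polynomial.X_ne_zero) hG0 hg.symm

theorem ff_kap {l : Fin (n + 1) → K} (hl : AlgebraicIndependent k l)
    (hK : FiniteDimensional (IntermediateField.adjoin k (Set.range l)) K)
    (c : Fin (n + 1) → k) : PF.FF (kap k fun i => l i - algebraMap k K (c i)) K := by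
  obtain ⟨hi, h0⟩ := TG1h47.rat_indep hl c
  have ht : AlgebraicIndependent k (TG1h47.sh l c) := by
    rw [algebraicIndependent_iff]
    intro g hg
    have h1 := TG1h47.aeval_sh l c (TG1h47.tr (-c) g)
    rw [TG1h47.tr_tr_neg, hg] at h1
    have h2 := hl (h1.symm.trans (map_zero _).symm)
    exact TG1h47.tr_injective _ (h2.trans (map_zero _).symm)
  have hM : (kap k fun i => l i - algebraMap k K (c i)) =
      IntermediateField.adjoin k (Set.range (TG1h47.rat (TG1h47.sh l c))) := kap_eq l c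
  refine PF.FF.of (x := TG1h47.sh l c 0) (transc0 hi ht h0 _ hM) ?_
  have h3 := TG1h5.adj_eq_one (TG1h47.sh l c) h0 _ hM
  have h4 : FiniteDimensional (IntermediateField.adjoin k (Set.range (TG1h47.sh l c))) K := by
    rw [TG1h47.adjoin_sh]
    exact hK
  rw [← h3] at h4
  exact h4

theorem OverP.const {l : Fin (n + 1) → K} {P : ValuationSubring K}
    {h : MvPolynomial (Fin (n + 1)) k} (hP : OverP l P h) (c : k) : algebraMap k K c ∈ P := by
  by_cases hc : c = 0
  · rw [hc, map_zero]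
    exact zero_mem P
  have h1 : ∀ d : k, d ≠ 0 → 1 ≤ P.valuation (algebraMap k K d) := by
    intro d hd
    by_contra h2
    rw [not_le] at h2
    have h3 := (hP.iff (C d)).1 (by rwa [MvPolynomial.algHom_C])
    exact hP.irr.not_isUnit (isUnit_of_dvd_unit h3 ((isUnit_iff_ne_zero.2 hd).map C))
  have h2 := h1 c⁻¹ (inv_ne_zero hc)
  rw [map_inv₀, map_inv₀] at h2
  have h3 := h1 c hc
  rw [← P.valuation_le_one_iff]
  exact (one_le_inv₀ (lt_of_lt_of_le zero_lt_one h3)).1 h2

theorem OverP.finPl {l : Fin (n + 1) → K} {P : ValuationSubring K}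
    {h : MvPolynomial (Fin (n + 1)) k} (hP : OverP l P h) : TG1h47.FinPl l h P :=
  ⟨fun g => TG1h47.aeval_mem hP.const hP.mem g, fun g => hP.iff g⟩

/-- The places of `K / k((l_i - c_i) / (l_0 - c_0))` which are not centred at `c` lie over
irreducible polynomials which are not cones with vertex `c`. -/
theorem exists_overP {l : Fin (n + 1) → K} (hl : AlgebraicIndependent k l)
    (hK : Algebra.IsAlgebraic (IntermediateField.adjoin k (Set.range l)) K)
    (c : Fin (n + 1) → k) (Q : PL k fun i => l i - algebraMap k K (c i))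
    (hQ : ∀ i, l i ∈ Q.vs) (h0 : Q.v (l 0 - algebraMap k K (c 0)) = 0) :
    ∃ h, OverP l Q.vs h ∧ ordAt c h < h.totalDegree := by
  obtain ⟨hi, hs0⟩ := TG1h47.rat_indep hl c
  have hinv : (TG1h47.sh l c 0)⁻¹ ∈ Q.vs := by
    rw [PF.Pl.mem_vs', Q.map_inv]
    change 0 ≤ - Q.v (l 0 - algebraMap k K (c 0))
    rw [h0]
    exact le_rfl
  have hk : ∀ x ∈ TG1h47.kap l c, x ∈ Q.vs := by
    intro x hx
    rw [← kap_eq] at hx
    exact Q.algebraMap_mem_vs ⟨x, hx⟩
  have hA : TG1h47.IsPlA l c Q.vs := ⟨hk, Q.vs_ne_top, hinv⟩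
  rcases hA.cases hl hK with hinf | ⟨h, hirr, hfin⟩
  · exfalso
    apply hinf.2
    rw [PF.Pl.mem_vs']
    change 0 ≤ Q.v (l 0 - algebraMap k K (c 0))
    rw [h0]
  · refine ⟨h, ⟨hQ, hirr, fun G => hfin.2 G⟩, ?_⟩
    rw [ordAt_eq c hirr.ne_zero]
    refine lt_of_le_of_ne (TG1h47.ordAt_le_totalDegree c hirr.ne_zero) fun heq => ?_
    -- `h` is a cone: `h(l) = t_0 ^ d * unit`
    have hne : TG1h47.tr c h ≠ 0 := tr_ne_zero c hirr.ne_zero
    have hd : (psi k n (TG1h47.tr c h)).natDegree =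
        (psi k n (TG1h47.tr c h)).natTrailingDegree := by
      rw [TG1h5.natDegree_psi, TG1h5.trailing_psi hne, TG1h47.totalDegree_tr]
      exact heq.symm
    obtain ⟨p, hp⟩ : ∃ p, p = psi k n (TG1h47.tr c h) := ⟨_, rfl⟩
    rw [← hp] at hd
    have hp0 : p ≠ 0 := by
      rw [hp]
      exact fun h1 => hne (TG1h5.psi_injective (by rw [h1, map_zero]))
    have hpm : p = Polynomial.C p.leadingCoeff * Polynomial.X ^ p.natDegree := by
      ext1 m
      rw [Polynomial.coeff_C_mul_X_pow]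
      split_ifs with hm
      · rw [hm, Polynomial.coeff_natDegree]
      · rcases lt_or_gt_of_ne hm with h1 | h1
        · exact Polynomial.coeff_eq_zero_of_lt_natTrailingDegree (hd ▸ h1)
        · exact Polynomial.coeff_eq_zero_of_natDegree_lt h1
    have h1 : aeval l h = aeval (TG1h47.rat (TG1h47.sh l c)) p.leadingCoeff *
        (TG1h47.sh l c 0) ^ p.natDegree := by
      rw [← TG1h47.aeval_sh l c h, aeval_psi _ hs0, ← hp]
      conv_lhs => rw [hpm]
      rw [Polynomial.eval₂_mul, Polynomial.eval₂_C, Polynomial.eval₂_pow, Polynomial.eval₂_X]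
      rfl
    have h2 : aeval (TG1h47.rat (TG1h47.sh l c)) p.leadingCoeff ≠ 0 := by
      intro h3
      exact Polynomial.leadingCoeff_ne_zero.2 hp0 (hi (h3.trans (map_zero _).symm))
    have h3 : aeval (TG1h47.rat (TG1h47.sh l c)) p.leadingCoeff ∈
        kap k fun i => l i - algebraMap k K (c i) := by
      rw [kap_eq]
      exact (IntermediateField.mem_adjoin_range_iff k _ _).2
        ⟨p.leadingCoeff, 1, by rw [map_one, div_one]⟩
    have h4 : Q.v (aeval (TG1h47.rat (TG1h47.sh l c)) p.leadingCoeff) = 0 :=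
      Q.triv ⟨_, h3⟩ fun h5 => h2 (congrArg Subtype.val h5)
    have h5 : aeval l h ≠ (0 : K) := by
      rw [h1]
      exact mul_ne_zero h2 (pow_ne_zero _ hs0)
    have h6 : 0 < Q.v (aeval l h) := (PF.Pl.val_lt_one_iff h5).1 ((hfin.2 h).2 dvd_rfl)
    rw [h1, Q.mul _ _ h2 (pow_ne_zero _ hs0), h4, Q.map_pow] at h6
    have h7 : Q.v (TG1h47.sh l c 0) = 0 := h0
    rw [h7] at h6
    simp at h6

/-- A divisor over the irreducible polynomial `h` has degree `e * (deg h - ord_c h)` for the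
projection from `c`. -/
theorem exists_deg {l : Fin (n + 1) → K} (hl : AlgebraicIndependent k l)
    (hK : FiniteDimensional (IntermediateField.adjoin k (Set.range l)) K)
    {P : ValuationSubring K} {h : MvPolynomial (Fin (n + 1)) k} (hP : OverP l P h) :
    ∃ e : ℕ, 0 < e ∧ ∀ c : Fin (n + 1) → k, ordAt c h < h.totalDegree →
      ∃ Q : PL k fun i => l i - algebraMap k K (c i), Q.vs = P ∧
        Q.v (l 0 - algebraMap k K (c 0)) = 0 ∧ Q.deg = e * (h.totalDegree - ordAt c h) := by
  have hirr := hP.irr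
  obtain ⟨e, he⟩ : ∃ e, e = dgr (IntermediateField.adjoin k (Set.range l)).toSubfield P :=
    ⟨_, rfl⟩
  have key : ∀ c : Fin (n + 1) → k, ordAt c h < h.totalDegree →
      ∃ Q : PL k fun i => l i - algebraMap k K (c i), Q.vs = P ∧
        Q.v (l 0 - algebraMap k K (c 0)) = 0 ∧
        Q.deg = e * (h.totalDegree - ordAt c h) ∧ 0 < Q.deg := by
    intro c hc
    rw [ordAt_eq c hirr.ne_zero] at hc ⊢
    have hA := hP.finPl.isPlA hl hirr (a := c) hc.ne
    have hF := ff_kap hl hK c
    obtain ⟨Q, hQ, -⟩ := PF.Pl.exists_vs hF (V := P)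
      (fun x => hA.1 x (by rw [← kap_eq]; exact x.2)) hA.2.1
    have hQ' : Q.vs = P := hQ
    refine ⟨Q, hQ', ?_, ?_, PF.Pl.deg_pos hF Q⟩
    · have h1 : l 0 - algebraMap k K (c 0) ∈ Q.vs := by
        rw [hQ']
        exact sub_mem (hP.mem 0) (hP.const _)
      have h2 : (l 0 - algebraMap k K (c 0))⁻¹ ∈ Q.vs := by
        rw [hQ']
        exact hA.2.2
      rw [PF.Pl.mem_vs'] at h1 h2
      rw [Q.map_inv] at h2
      omega
    · rw [deg_eq, hQ', kap_eq, hP.finPl.dgr_kap hl hirr hA, he, mul_comm]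
  by_cases hex : ∃ c0 : Fin (n + 1) → k, ordAt c0 h < h.totalDegree
  · obtain ⟨c0, hc0⟩ := hex
    obtain ⟨Q, -, -, h1, h2⟩ := key c0 hc0
    refine ⟨e, ?_, fun c hc => ?_⟩
    · rw [h1] at h2
      exact Nat.pos_of_mul_pos_right h2
    · obtain ⟨Q, h1, h2, h3, -⟩ := key c hc
      exact ⟨Q, h1, h2, h3⟩
  · exact ⟨1, one_pos, fun c hc => absurd ⟨c, hc⟩ hex⟩

end DegEq

end Pool.Agent.TG1
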