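import Pool.Agent.Lib.TG1.Defs
import Pool.Agent.Lib.TG_h71.Ext

/-!
# TANK G, block G1: row EXT (the extremal space)
-/

set_option autoImplicit false

namespace Pool.Agent.TG1

open Module
open Pool.Agent.TG (Ov ZDim IsMin)
open Pool.Agent.TGh33 (Wr DB)
open Pool.Agent.TGh71 (dsum pol wgt)

universe u

section

variable {k K : Type u} [Field k] [Field K] [Algebra k K]
variable {n : ℕ} {D : Fin (n + 1) → Derivation k K K} {z : Fin (n + 1) → K} {A : Subalgebra k K}

/-- The determinant of elements of a `D`-stable algebra is in the algebra. -/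
theorem Wr_mem (hs : ∀ i, ∀ a ∈ A, D i a ∈ A) {x : K} {t : Fin (n + 1) → K} (hx : x ∈ A)
    (ht : ∀ j, t j ∈ A) : Wr D (Fin.cons x t) ∈ A := by
  have hf : ∀ j : Fin (n + 1 + 1), (Fin.cons x t : Fin (n + 1 + 1) → K) j ∈ A := fun j =>
    Fin.cases hx ht j
  rw [TGh33.Wr_def, Matrix.det_apply]
  refine Subalgebra.sum_mem A fun σ _ => ?_
  rw [Units.smul_def]
  refine Subalgebra.zsmul_mem A (Subalgebra.prod_mem A fun i _ => ?_) _
  rw [Matrix.of_apply]
  refine Fin.cases ?_ (fun l => ?_) i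
  · rw [TGh33.row_zero]; exact hf _
  · rw [TGh33.row_succ]; exact hs _ _ (hf _)

theorem bet_nonneg (hs : ∀ i, ∀ a ∈ A, D i a ∈ A) {x : K} {t : Fin (n + 1) → K} (hx : x ∈ A)
    (ht : ∀ j, t j ∈ A) : 0 ≤ bet D A x t := by
  classical
  refine TGh71.dsum_nonneg fun P => ?_
  rw [wgt]
  split_ifs with h1 h2
  · exact PF.Pl.mem_vs'.1 (h1.1.le _ (Wr_mem hs hx ht))
  · exact zero_le_one
  · exact le_rfl

theorem Th_nonneg (hs : ∀ i, ∀ a ∈ A, D i a ∈ A) {x : K} {t : Fin (n + 1) → K} (hx : x ∈ A)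
    (ht : ∀ j, t j ∈ A) : 0 ≤ Th D A x t := by
  have := bet_nonneg (D := D) hs hx ht
  rw [Th]
  positivity

theorem Adm.mono {S S' : Submodule k K} (h : S' ≤ S) {x : K} {t : Fin (n + 1) → K}
    (ha : Adm D S' x t) : Adm D S x t := ⟨h ha.x_mem, fun j => h (ha.t_mem j), ha.ne⟩

/-- A bounded potential has maximal tuples. -/
theorem exists_isMx {S : Submodule k K} {x : K} {t : Fin (n + 1) → K} (h : Adm D S x t) (B : ℤ)
    (hB : ∀ y s, Adm D S y s → Th D A y s ≤ B) : ∃ y s, IsMx D A S y s := by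
  obtain ⟨m, hm, hmax⟩ := Int.exists_greatest_of_bdd (P := fun m => ∃ y s, Adm D S y s ∧
    Th D A y s = m) ⟨B, fun m ⟨y, s, h1, h2⟩ => h2 ▸ hB y s h1⟩ ⟨_, x, t, h, rfl⟩
  obtain ⟨y, s, h1, h2⟩ := hm
  exact ⟨y, s, h1, fun y' s' h' => h2 ▸ hmax _ ⟨y', s', h', rfl⟩⟩

open Classical in
/-- The maximal potential of `S` (`0` if there is no maximal tuple). -/
noncomputable def mx (D : Fin (n + 1) → Derivation k K K) (A : Subalgebra k K)
    (S : Submodule k K) : ℤ :=
  if h : ∃ p : K × (Fin (n + 1) → K), IsMx D A S p.1 p.2 then Th D A h.choose.1 h.choose.2 else 0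

theorem mx_eq {S : Submodule k K} {x : K} {t : Fin (n + 1) → K} (h : IsMx D A S x t) :
    mx D A S = Th D A x t := by
  have h' : ∃ p : K × (Fin (n + 1) → K), IsMx D A S p.1 p.2 := ⟨(x, t), h⟩
  rw [mx, dif_pos h']
  exact le_antisymm (h.max _ _ h'.choose_spec.adm) (h'.choose_spec.max _ _ h.adm)

end

/-- The statement of row START. -/
def StartP.{v} (n : ℕ) (J : Finset ℕ) : Prop :=
  ∃ C : ℕ, ∀ (k K : Type v) [Field k] [Field K] [Algebra k K]
    [IsAlgClosed k] (D : Fin (n + 1) → Derivation k K K) (z : Fin (n + 1) → K)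
    (A : Subalgebra k K), Dat D z A → ∀ B : ℕ, ∃ U S₀ : Submodule k K, S₀.FG ∧ U ≤ S₀ ∧
      (∀ s ∈ S₀, s ∈ A) ∧ (∀ i, ∀ g ∈ U, g * z i ∈ S₀) ∧ B ≤ Module.finrank k U ∧
      Module.finrank k S₀ ≤ 2 * Module.finrank k U ∧
      (∀ x t, Adm D S₀ x t → Th D A x t ≤ C * Module.finrank k S₀) ∧
      ∀ j ∈ J, Module.finrank k (S₀ ^ j : Submodule k K) ≤ C * Module.finrank k S₀

theorem fg_pow' {k K : Type u} [Field k] [Field K] [Algebra k K] {S : Submodule k K} (h : S.FG)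
    (j : ℕ) : (S ^ j).FG := h.pow j

theorem finrank_pow_mono {k K : Type u} [Field k] [Field K] [Algebra k K] {S S' : Submodule k K}
    (h : S.FG) (hS : S' ≤ S) (j : ℕ) :
    finrank k (S' ^ j : Submodule k K) ≤ finrank k (S ^ j : Submodule k K) := by
  have : FiniteDimensional k (S ^ j : Submodule k K) := Module.Finite.iff_fg.2 (h.pow j)
  exact Submodule.finrank_mono (pow_le_pow_left' hS j)

/-- **Row EXT.** -/
theorem exists_ext_of_start (n : ℕ) (J : Finset ℕ) (hst : StartP.{u} n J) (s : ℕ) :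
    ∃ C : ℕ, ∀ (k K : Type u) [Field k] [Field K]
    [Algebra k K] [IsAlgClosed k] (D : Fin (n + 1) → Derivation k K K) (z : Fin (n + 1) → K)
    (A : Subalgebra k K), Dat D z A → ∀ B : ℕ, ∃ S : Submodule k K, S.FG ∧ (∀ s ∈ S, s ∈ A) ∧
      B ≤ Module.finrank k S ∧
      ∀ S' ≤ S, Module.finrank k S ≤ Module.finrank k S' + s →
        (∃ x t, IsMx D A S' x t) ∧
        (∀ x t x' t', Adm D S x t → IsMx D A S' x' t' → Th D A x t ≤ Th D A x' t' + C) ∧
        ∀ j ∈ J, Module.finrank k (S ^ j : Submodule k K) ≤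
          Module.finrank k (S' ^ j : Submodule k K) + C := by
  classical
  obtain ⟨C₁, hst⟩ := hst
  -- the weight of the dimension
  set C₂ : ℕ := C₁ * (J.card + 1) with hC₂
  set c : ℕ := 4 * (n + 2) * (C₂ + 1) with hc
  refine ⟨c * s, fun k K _ _ _ _ D z A dat B => ?_⟩
  obtain ⟨U, S₀, hfg, hU, hA, hz, hBU, hU2, hTh, hJ⟩ :=
    hst k K D z A dat (2 * B + 4 * (n + 2) * s + 1)
  have hfd : FiniteDimensional k S₀ := Module.Finite.iff_fg.2 hfg
  have hfdU : FiniteDimensional k U := Submodule.finiteDimensional_of_le hU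
  have hUS : finrank k U ≤ finrank k S₀ := Submodule.finrank_mono hU
  -- the class and the potential
  let Cl : Submodule k K → Prop := fun S => ∃ x t, Adm D S x t
  let M : Submodule k K → ℤ := fun S => mx D A S + ((∑ j ∈ J, finrank k (S ^ j : Submodule k K) : ℕ) : ℤ)
  have hlarge : ∀ S ≤ S₀, (n + 2) * (finrank k S₀ - finrank k S) < finrank k U → Cl S := by
    intro S hS hd
    obtain ⟨f, hf, hW⟩ := TGh71.exists_Wr_ne_zero dat.db U S₀ S hS hU (fun i g hg => hz i g hg) hd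
    refine ⟨f 0, fun j => f j.succ, hf 0, fun j => hf _, ?_⟩
    have : (Fin.cons (f 0) fun j => f j.succ : Fin (n + 1 + 1) → K) = f := by
      funext i
      exact Fin.cases rfl (fun _ => rfl) i
    rw [this]
    exact hW
  have hmx : ∀ S ≤ S₀, Cl S → ∃ x t, IsMx D A S x t := by
    rintro S hS ⟨x, t, h⟩
    exact exists_isMx h _ fun y s h' => hTh y s (h'.mono hS)
  have hTh0 : ∀ S ≤ S₀, ∀ x t, Adm D S x t → 0 ≤ Th D A x t := fun S hS x t h =>
    Th_nonneg dat.stab (hA _ (hS h.x_mem)) fun j => hA _ (hS (h.t_mem j))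
  have hM0 : ∀ S, S ≤ S₀ → Cl S → 0 ≤ M S := by
    intro S hS hC
    obtain ⟨x, t, h⟩ := hmx S hS hC
    have h1 := hTh0 S hS x t h.adm
    change 0 ≤ mx D A S + _
    rw [mx_eq h]
    positivity
  have hC0 : Cl S₀ := hlarge S₀ le_rfl (by simp; omega)
  have hM : M S₀ ≤ ((C₂ * finrank k S₀ : ℕ) : ℤ) := by
    obtain ⟨x, t, h⟩ := hmx S₀ le_rfl hC0
    have h1 := hTh x t h.adm
    have h2 : ∑ j ∈ J, finrank k (S₀ ^ j : Submodule k K) ≤ J.card * (C₁ * finrank k S₀) := by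
      rw [← smul_eq_mul]
      exact Finset.sum_le_card_nsmul _ _ _ hJ
    change mx D A S₀ + _ ≤ _
    rw [mx_eq h]
    have h3 : ((∑ j ∈ J, finrank k (S₀ ^ j : Submodule k K) : ℕ) : ℤ) ≤
        ((J.card * (C₁ * finrank k S₀) : ℕ) : ℤ) := by exact_mod_cast h2
    have h4 : ((C₂ * finrank k S₀ : ℕ) : ℤ) = ((J.card * (C₁ * finrank k S₀) : ℕ) : ℤ) +
        (C₁ * finrank k S₀ : ℤ) := by
      rw [hC₂]; push_cast; ring
    rw [h4]
    linarith
  obtain ⟨S, hS, hCS, hmin, hcod⟩ := TGh71.exists_extremal S₀ Cl hC0 M hM0 c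
  have hfdS : FiniteDimensional k S := Submodule.finiteDimensional_of_le hS
  have hSfg : S.FG := Module.Finite.iff_fg.1 hfdS
  have hSS : finrank k S ≤ finrank k S₀ := Submodule.finrank_mono hS
  -- the codimension of `S`
  have hcod' : 4 * (n + 2) * (finrank k S₀ - finrank k S) ≤ finrank k S₀ := by
    have h1 : c * (finrank k S₀ - finrank k S) ≤ C₂ * finrank k S₀ := by
      exact_mod_cast hcod.trans hM
    have h2 : (C₂ + 1) * (4 * (n + 2) * (finrank k S₀ - finrank k S)) ≤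
        (C₂ + 1) * finrank k S₀ := by
      calc (C₂ + 1) * (4 * (n + 2) * (finrank k S₀ - finrank k S))
          = c * (finrank k S₀ - finrank k S) := by rw [hc]; ring
        _ ≤ C₂ * finrank k S₀ := h1
        _ ≤ (C₂ + 1) * finrank k S₀ := Nat.mul_le_mul_right _ (Nat.le_succ _)
    exact Nat.le_of_mul_le_mul_left h2 (Nat.succ_pos _)
  refine ⟨S, hSfg, fun x hx => hA x (hS hx), ?_, ?_⟩
  · have h1 : 4 * (n + 2) * (finrank k S₀ - finrank k S) =
        4 * ((n + 2) * (finrank k S₀ - finrank k S)) := by ring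
    have h2 : finrank k S₀ - finrank k S ≤ (n + 2) * (finrank k S₀ - finrank k S) :=
      Nat.le_mul_of_pos_left _ (by omega)
    omega
  intro S' hS' hd
  have hS'0 : S' ≤ S₀ := hS'.trans hS
  have hfdS' : FiniteDimensional k S' := Submodule.finiteDimensional_of_le hS'0
  have hS'S : finrank k S' ≤ finrank k S := Submodule.finrank_mono hS'
  have hCS' : Cl S' := by
    refine hlarge S' hS'0 ?_
    have h1 : finrank k S₀ - finrank k S' ≤ (finrank k S₀ - finrank k S) + s := by omega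
    have h2 : (n + 2) * (finrank k S₀ - finrank k S') ≤
        (n + 2) * ((finrank k S₀ - finrank k S) + s) := Nat.mul_le_mul_left _ h1
    have h3 : 4 * ((n + 2) * ((finrank k S₀ - finrank k S) + s)) =
        4 * (n + 2) * (finrank k S₀ - finrank k S) + 4 * (n + 2) * s := by ring
    omega
  have hmin' := hmin S' hS'0 hCS'
  have hmono : ∀ j ∈ J, finrank k (S' ^ j : Submodule k K) ≤ finrank k (S ^ j : Submodule k K) :=
    fun j _ => finrank_pow_mono hSfg hS' j
  have hcs : ((c * finrank k S : ℕ) : ℤ) ≤ ((c * finrank k S' : ℕ) : ℤ) + ((c * s : ℕ) : ℤ) := by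
    have : c * finrank k S ≤ c * (finrank k S' + s) := Nat.mul_le_mul_left _ hd
    rw [mul_add] at this
    exact_mod_cast this
  obtain ⟨x₁, t₁, hm₁⟩ := hmx S hS hCS
  obtain ⟨x₂, t₂, hm₂⟩ := hmx S' hS'0 hCS'
  have hMS : M S = Th D A x₁ t₁ + ((∑ j ∈ J, finrank k (S ^ j : Submodule k K) : ℕ) : ℤ) := by
    rw [← mx_eq hm₁]
  have hMS' : M S' = Th D A x₂ t₂ + ((∑ j ∈ J, finrank k (S' ^ j : Submodule k K) : ℕ) : ℤ) := by
    rw [← mx_eq hm₂]
  have hsum : ((∑ j ∈ J, finrank k (S' ^ j : Submodule k K) : ℕ) : ℤ) ≤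
      ((∑ j ∈ J, finrank k (S ^ j : Submodule k K) : ℕ) : ℤ) := by
    exact_mod_cast Finset.sum_le_sum hmono
  have h12 : Th D A x₂ t₂ ≤ Th D A x₁ t₁ := hm₁.max _ _ (hm₂.adm.mono hS')
  refine ⟨⟨x₂, t₂, hm₂⟩, fun x t x' t' hx hx' => ?_, fun j hj => ?_⟩
  · have h1 := hm₁.max _ _ hx
    have h2 := hx'.max _ _ hm₂.adm
    rw [hMS, hMS'] at hmin'
    linarith
  · have h1 : finrank k (S ^ j : Submodule k K) + ∑ i ∈ J, finrank k (S' ^ i : Submodule k K) ≤
        finrank k (S' ^ j : Submodule k K) + ∑ i ∈ J, finrank k (S ^ i : Submodule k K) := by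
      rw [← Finset.add_sum_erase J _ hj, ← Finset.add_sum_erase J (fun i =>
        finrank k (S ^ i : Submodule k K)) hj]
      have := Finset.sum_le_sum fun i (hi : i ∈ J.erase j) => hmono i (Finset.mem_of_mem_erase hi)
      omega
    have h2 : ((finrank k (S ^ j : Submodule k K) : ℕ) : ℤ) +
        ((∑ i ∈ J, finrank k (S' ^ i : Submodule k K) : ℕ) : ℤ) ≤
        ((finrank k (S' ^ j : Submodule k K) : ℕ) : ℤ) +
        ((∑ i ∈ J, finrank k (S ^ i : Submodule k K) : ℕ) : ℤ) := by exact_mod_cast h1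
    rw [hMS, hMS'] at hmin'
    have h3 : ((finrank k (S ^ j : Submodule k K) : ℕ) : ℤ) ≤
        ((finrank k (S' ^ j : Submodule k K) : ℕ) : ℤ) + ((c * s : ℕ) : ℤ) := by linarith
    exact_mod_cast h3

end Pool.Agent.TG1
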