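import Pool.Agent.Lib.TG1.Start
import Pool.Agent.Lib.TG1.Ext

/-!
# TANK G, block G1, row EXT: the extremal space
-/

set_option autoImplicit false

namespace Pool.Agent.TG1

universe u

/-- For every `s` there is a bound `C = C(n, s)`: every data has a space `S` such that for all
subspaces `S'` of codimension at most `s`, maximal tuples exist and their potential is at least the
potential of `S` minus `C`. -/
theorem exists_ext (n : ℕ) (J : Finset ℕ) (s : ℕ) : ∃ C : ℕ, ∀ (k K : Type u) [Field k] [Field K]
    [Algebra k K] [IsAlgClosed k] (D : Fin (n + 1) → Derivation k K K) (z : Fin (n + 1) → K)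
    (A : Subalgebra k K), Dat D z A → ∀ B : ℕ, ∃ S : Submodule k K, S.FG ∧ (∀ s ∈ S, s ∈ A) ∧
      B ≤ Module.finrank k S ∧
      ∀ S' ≤ S, Module.finrank k S ≤ Module.finrank k S' + s →
        (∃ x t, IsMx D A S' x t) ∧
        (∀ x t x' t', Adm D S x t → IsMx D A S' x' t' → Th D A x t ≤ Th D A x' t' + C) ∧
        ∀ j ∈ J, Module.finrank k (S ^ j : Submodule k K) ≤
          Module.finrank k (S' ^ j : Submodule k K) + C :=
  exists_ext_of_start n J (start n J) s

end Pool.Agent.TG1
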