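import Pool.Agent.Lib.TG1.Defs
import Pool.Agent.Lib.TG_h33.Wr2
import Pool.Agent.Lib.TG_h45.Bpf4

/-!
# TANK G, block G1, row FIN (helper45)
-/

set_option autoImplicit false

namespace Pool.Agent.TG1

open MvPolynomial
open Pool.Agent.TG (Ov ZDim IsMin)
open Pool.Agent.TGh33 (Wr DB)

universe u

variable {k K : Type u} [Field k] [Field K] [Algebra k K]

section

variable {n : ℕ} {D : Fin (n + 1) → Derivation k K K} {z : Fin (n + 1) → K} {A : Subalgebra k K}

theorem fin_ne_zero {x : K} {t : Fin (n + 1) → K} (hW : Wr D (Fin.cons x t) ≠ 0) : x ≠ 0 := by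
  rintro rfl
  apply hW
  rw [Pool.Agent.TGh33.Wr_def]
  refine Matrix.det_eq_zero_of_row_eq_zero 0 fun j => ?_
  rw [Matrix.of_apply, Fin.cons_zero, map_zero, Pi.zero_apply]

theorem fin_alg (dat : Dat D z A) {x : K} {t : Fin (n + 1) → K}
    (hW : Wr D (Fin.cons x t) ≠ 0) :
    Algebra.IsAlgebraic (IntermediateField.adjoin k (Set.range fun i : Fin (n + 1) => t i / x))
      K := by
  have hx := fin_ne_zero hW
  have : Algebra.EssFiniteType k K := IntermediateField.fg_top_iff.1 dat.fgK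
  have h1 := (Pool.Agent.TGh33.Wr_ne_zero_iff dat.db (Fin.cons x t : Fin (n + 2) → K) hx).1 hW
  have h2 : Algebra.IsAlgebraic (Pool.Agent.TGh33.quo k (Fin.cons x t : Fin (n + 2) → K)) K :=
    Algebra.IsSeparable.isAlgebraic _ _
  exact h2

/-- Row FIN. -/
theorem fin_generic [IsAlgClosed k] (dat : Dat D z A) {V : ValuationSubring K} (hV : ZDim k V)
    {S S' : Submodule k K} (hS : S.FG) (hSV : IsHyp V S S') {x : K} {t : Fin (n + 1) → K}
    (hW : Wr D (Fin.cons x t) ≠ 0) (hx : x ∈ S') (ht : ∀ j, t j ∈ S') (hb : Bpf S' x t) :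
    ∃ G : MvPolynomial (Fin (n + 1)) k, G ≠ 0 ∧ ∀ c : Fin (n + 1) → k, eval c G ≠ 0 →
      (∀ V' : ValuationSubring K, Ov k V' → IsHyp V' S S' → ∃ i, IsMin V' S' (tr x t c i)) ∧
      ∃ F : Set (Submodule k K), F.Finite ∧ (∀ H ∈ F, ¬ S ≤ H) ∧ ∀ y ∈ S, (∀ H ∈ F, y ∉ H) →
        IsMin V S y ∧ Bpf S y (tr x t c) := by
  classical
  have hx0 := fin_ne_zero hW
  have hle : S' ≤ S := fun s hs => ((hSV s).1 hs).1
  obtain ⟨f, hf, -⟩ := ((hSV x).1 hx).2
  have hfS' : f ∉ S' := by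
    intro h
    obtain ⟨g, hg, hlt⟩ := ((hSV f).1 h).2
    have h1 := TG.val_div_eq_one hg hf
    rw [h1] at hlt
    exact lt_irrefl _ hlt
  have hspan : ∃ s₀ : K, S ≤ S' ⊔ Submodule.span k {s₀} := by
    refine ⟨f, fun s hs => ?_⟩
    obtain ⟨c, hc⟩ := hV.res _ (hf.div s hs)
    have h1 : s = (s - c • f) + c • f := by ring
    rw [h1]
    refine Submodule.add_mem_sup ((hSV _).2 ⟨S.sub_mem hs (S.smul_mem _ hf.mem), f, hf, ?_⟩)
      (Submodule.smul_mem _ _ (Submodule.mem_span_singleton_self f))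
    rw [sub_div, Algebra.smul_def, mul_div_assoc, div_self hf.ne, mul_one]
    exact hc
  have hBT : TG.BpfT S' (Fin.cons x t : Fin (n + 2) → K) := by
    refine ⟨fun i => ?_, fun V' hV' => ?_⟩
    · refine Fin.cases ?_ (fun i => ?_) i
      · exact hx
      · exact ht i
    · rcases hb V' hV' with h | ⟨j, h⟩
      · exact ⟨0, h⟩
      · exact ⟨j.succ, h⟩
  obtain ⟨G, hG0, hG⟩ := TG.fin_generic hS hle hspan hBT hx0 (fin_alg dat hW)
  refine ⟨G, hG0, fun c hc => ?_⟩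
  obtain ⟨HH, hHH, -, hkey2, hbpf⟩ := hG c hc
  refine ⟨fun V' hV' hyp => ?_, ((insert S' HH : Finset (Submodule k K)) : Set _),
    Finset.finite_toSet _, ?_, fun y hy hyH => ⟨?_, fun V' hV' => ?_⟩⟩
  · by_contra hcon
    push Not at hcon
    have h1 : IsMin V' S x := hkey2 V' hV' hcon
    obtain ⟨g, hg, hlt⟩ := ((hyp x).1 hx).2
    rw [TG.val_div_eq_one hg h1] at hlt
    exact lt_irrefl _ hlt
  · intro H hH
    rw [Finset.mem_coe, Finset.mem_insert] at hH
    rcases hH with rfl | hH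
    · exact fun h => hfS' (h hf.mem)
    · exact hHH H hH
  · by_contra hcon
    exact hyH S' (Finset.mem_coe.2 (Finset.mem_insert_self _ _))
      ((hSV y).2 ⟨hy, f, hf, hf.val_lt hy hcon⟩)
  · have h1 := hbpf y hy fun H hH => hyH H (Finset.mem_coe.2 (Finset.mem_insert_of_mem hH))
    obtain ⟨i, hi⟩ := h1.2 V' hV'
    revert hi
    refine Fin.cases (fun hi => Or.inl hi) (fun i hi => Or.inr ⟨i, hi⟩) i

end

end Pool.Agent.TG1
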