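import Pool.Agent.Lib.TG1.Defs
import Pool.Agent.Lib.TG_h63.Good

/-!
# TANK G, block G1, row GOOD, over the function field hypothesis
-/

set_option autoImplicit false

namespace Pool.Agent.TG1

open Pool.Agent.TG (Ov ZDim IsMin ncl le_ncl)
open Pool.Agent.TGh33 (Wr DB)
open Pool.Agent.LU2 (locV le_locV)

universe u

/-- A function field of one variable has transcendence degree at most one. -/
theorem trdeg_le_one {κ : Type u} {K : Type u} [Field κ] [Field K] [Algebra κ K]
    (hF : PF.FF κ K) : Algebra.trdeg κ K ≤ 1 := by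
  obtain ⟨x, hx⟩ := hF.ex
  have h1 := hF.fin x hx
  have h2 : Algebra.IsAlgebraic (Algebra.adjoin κ {x}) K := by
    constructor
    intro y
    rw [← IntermediateField.isAlgebraic_adjoin_iff]
    exact (Algebra.IsAlgebraic.of_finite (IntermediateField.adjoin κ {x}) K).isAlgebraic y
  have h3 := Algebra.IsAlgebraic.trdeg_le_cardinalMk κ (({x} : Set K))
  rwa [Cardinal.mk_singleton] at h3

variable {k K : Type u} [Field k] [Field K] [Algebra k K]
variable {n : ℕ} {D : Fin (n + 1) → Derivation k K K} {z : Fin (n + 1) → K} {A : Subalgebra k K}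

theorem ne_zero_of_Wr {x : K} {t : Fin (n + 1) → K} (hW : Wr D (Fin.cons x t) ≠ 0)
    (j : Fin (n + 1)) : t j ≠ 0 := by
  intro h
  apply hW
  rw [← TGh33.WrM_apply]
  exact (TGh33.WrM D).map_coord_zero j.succ (by rw [Fin.cons_succ, h])

theorem Dat.ncl_eq (dat : Dat D z A) : ncl A = A :=
  le_antisymm (fun x hx => dat.clos x hx) (le_ncl A)

theorem good_of_ff (dat : Dat D z A) {t : Fin (n + 1) → K} (hF : PF.FF (kap k t) K)
    (ht : ∀ j, t j ∈ A) (P : PL k t) (hA : ∀ a ∈ A, a ∈ P.vs) (ht0 : t 0 ≠ 0)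
    (h0 : P.v (t 0) = 0) : Good D A P.vs := by
  have h1 : P.vs.valuation (t 0) = 1 := (PF.Pl.val_eq_one_iff ht0).2 h0
  have hκ : ∀ c ∈ kap k t, c ∈ locV P.vs A := by
    refine TG63.adjoin_le_locV ?_ fun c hc => P.algebraMap_mem_vs ⟨c, hc⟩
    rintro _ ⟨j, rfl⟩
    exact ⟨t j, ht j, t 0, ht 0, h1, rfl⟩
  exact ⟨hA, fun i => TG63.der_mem dat.fg dat.ncl_eq dat.frac hA P.vs_ne_top hκ
    (trdeg_le_one hF) (D i) (dat.stab i)⟩

theorem finite_gd_compl_ff (dat : Dat D z A) {t : Fin (n + 1) → K} (hF : PF.FF (kap k t) K)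
    (ht : ∀ j, t j ∈ A) (ht0 : t 0 ≠ 0) : ((gd D A t)ᶜ).Finite := by
  obtain ⟨S, hS⟩ := dat.fg
  have h1 : ((gd D A t)ᶜ) ⊆ {P : PL k t | P.v (t 0) ≠ 0} ∪
      ⋃ a ∈ S, {P : PL k t | P.v a ≠ 0} := by
    intro P hP
    by_contra hcon
    rw [Set.mem_union, not_or, Set.mem_iUnion₂] at hcon
    obtain ⟨h2, h3⟩ := hcon
    push Not at h3
    have h4 : P.v (t 0) = 0 := by
      by_contra h5
      exact h2 h5
    refine hP ⟨good_of_ff dat hF ht P ?_ ht0 h4, h4⟩
    intro a ha
    rw [← hS] at ha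
    induction ha using Algebra.adjoin_induction with
    | mem a ha =>
      rw [PF.Pl.mem_vs']
      have h5 : ¬ P.v a ≠ 0 := h3 a ha
      push Not at h5
      exact h5.ge
    | algebraMap c => exact P.algebraMap_mem_vs (algebraMap k (kap k t) c)
    | add a b _ _ iha ihb => exact add_mem iha ihb
    | mul a b _ _ iha ihb => exact mul_mem iha ihb
  refine Set.Finite.subset ?_ h1
  exact (PF.finite_support hF (t 0)).union
    (S.finite_toSet.biUnion fun a _ => PF.finite_support hF a)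

end Pool.Agent.TG1
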