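import Pool.Agent.Lib.TG1.Defs

/-!
# TANK G, block G1: the hyperplane of a point; places and valuation rings
-/

set_option autoImplicit false

namespace Pool.Agent.TG1

open Pool.Agent.TG (Ov ZDim IsMin val_div_eq_one)
open Pool.Agent.TGh33 (Wr DB)
open Module

universe u

variable {k K : Type u} [Field k] [Field K] [Algebra k K] {V V' : ValuationSubring K}
  {S S' : Submodule k K} {f s : K}

theorem IsHyp.le (h : IsHyp V S S') : S' ≤ S := fun s hs => ((h s).1 hs).1

theorem IsHyp.lt (h : IsHyp V S S') (hf : IsMin V S f) (hs : s ∈ S') :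
    V.valuation (s / f) < 1 := by
  obtain ⟨-, g, hg, hlt⟩ := (h s).1 hs
  have h1 := val_div_eq_one hf hg
  have h2 : s / f = s / g * (g / f) := by
    rw [div_mul_div_cancel₀ hg.ne]
  rw [h2, map_mul, h1, mul_one]
  exact hlt

theorem IsHyp.mem (h : IsHyp V S S') (hf : IsMin V S f) (hs : s ∈ S)
    (hlt : V.valuation (s / f) < 1) : s ∈ S' := (h s).2 ⟨hs, f, hf, hlt⟩

theorem IsHyp.notMem (h : IsHyp V S S') (hf : IsMin V S f) : f ∉ S' := fun hf' => by
  have h1 := h.lt hf hf'
  rw [div_self hf.ne, map_one] at h1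
  exact lt_irrefl _ h1

theorem IsHyp.decomp (hV : ZDim k V) (h : IsHyp V S S') (hf : IsMin V S f) (hs : s ∈ S) :
    ∃ c : k, s - c • f ∈ S' := by
  obtain ⟨c, hc⟩ := hV.res _ (hf.div s hs)
  refine ⟨c, h.mem hf (S.sub_mem hs (S.smul_mem c hf.mem)) ?_⟩
  rwa [sub_div, Algebra.smul_def, mul_div_assoc, div_self hf.ne, mul_one]

theorem IsHyp.finrank_le (hV : ZDim k V) (h : IsHyp V S S') (hf : IsMin V S f) (hS : S.FG) :
    finrank k S ≤ finrank k S' + 1 := by
  have i0 : FiniteDimensional k S := Module.Finite.iff_fg.2 hS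
  have i1 : FiniteDimensional k S' := Submodule.finiteDimensional_of_le h.le
  have h1 : S ≤ S' ⊔ Submodule.span k {f} := fun s hs => by
    obtain ⟨c, hc⟩ := IsHyp.decomp hV h hf hs
    have h2 : s = (s - c • f) + c • f := by abel
    rw [h2]
    exact Submodule.add_mem_sup hc (Submodule.smul_mem _ _ (Submodule.mem_span_singleton_self f))
  calc finrank k S ≤ finrank k (S' ⊔ Submodule.span k {f} : Submodule k K) :=
        Submodule.finrank_mono h1
    _ ≤ finrank k S' + finrank k (Submodule.span k {f}) :=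
        Submodule.finrank_add_le_finrank_add_finrank _ _
    _ ≤ finrank k S' + 1 := by
        have := finrank_span_singleton (K := k) hf.ne
        omega

/-- Another valuation ring over the same point. -/
theorem IsHyp.over (hV : ZDim k V) (h : IsHyp V S S') (hf : IsMin V S f) (hV' : Ov k V')
    (hlt : ∀ s ∈ S', V'.valuation (s / f) < 1) : IsMin V' S f ∧ IsHyp V' S S' := by
  have hmin : IsMin V' S f := by
    refine ⟨hf.mem, hf.ne, fun g hg => ?_⟩
    obtain ⟨c, hc⟩ := h.decomp hV hf hg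
    have h1 : g / f = (g - c • f) / f + algebraMap k K c := by
      rw [sub_div, Algebra.smul_def, mul_div_assoc, div_self hf.ne, mul_one, sub_add_cancel]
    rw [h1]
    exact V'.add_mem _ _ ((V'.valuation_le_one_iff _).1 (hlt _ hc).le) (hV' c)
  refine ⟨hmin, fun s => ⟨fun hs => ⟨h.le hs, f, hmin, hlt s hs⟩, ?_⟩⟩
  rintro ⟨hs, g, hg, hlt'⟩
  obtain ⟨c, hc⟩ := h.decomp hV hf hs
  by_cases hc0 : c = 0
  · rw [hc0, zero_smul, sub_zero] at hc
    exact hc
  exfalso
  have h1 : V'.valuation (s / f) < 1 := by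
    have h2 : s / f = s / g * (g / f) := by rw [div_mul_div_cancel₀ hg.ne]
    rw [h2, map_mul, val_div_eq_one hmin hg, mul_one]
    exact hlt'
  have h3 : algebraMap k K c = s / f - (s - c • f) / f := by
    rw [sub_div, Algebra.smul_def, mul_div_assoc, div_self hf.ne, mul_one, sub_sub_cancel]
  have h4 : V'.valuation (algebraMap k K c) < 1 := by
    rw [h3]
    exact V'.valuation.map_sub_lt h1 (hlt _ hc)
  have h5 : V'.valuation (algebraMap k K c⁻¹) ≤ 1 := (V'.valuation_le_one_iff _).2 (hV' _)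
  have h6 : V'.valuation (algebraMap k K c * algebraMap k K c⁻¹) = 1 := by
    rw [← map_mul, mul_inv_cancel₀ hc0, map_one, map_one]
  rw [map_mul] at h6
  have h7 := mul_lt_one_of_lt_of_le h4 h5
  exact h7.ne h6

/-! ### Places -/

variable {n : ℕ} {t : Fin (n + 1) → K} {x : K}

theorem ov_vs (P : PL k t) : Ov k P.vs := fun c => by
  have h := P.algebraMap_mem_vs (algebraMap k (kap k t) c)
  exact h

theorem v_kap (P : PL k t) {y : K} (hy : y ∈ kap k t) (h0 : y ≠ 0) : P.v y = 0 :=
  P.triv ⟨y, hy⟩ fun h => h0 (congrArg Subtype.val h)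

theorem v_t (P : PL k t) (h0 : t 0 ≠ 0) {i : Fin (n + 1)} (hi : t i ≠ 0) :
    P.v (t i) = P.v (t 0) := by
  have h1 : t i / t 0 ∈ kap k t := IntermediateField.subset_adjoin _ _ ⟨i, rfl⟩
  have h2 := v_kap P h1 (div_ne_zero hi h0)
  rw [P.map_div hi h0] at h2
  omega

theorem Wr_ne (D : Fin (n + 1) → Derivation k K K) (hW : Wr D (Fin.cons x t) ≠ 0) :
    x ≠ 0 ∧ ∀ i, t i ≠ 0 := by
  have key : ∀ j : Fin (n + 2), (Fin.cons x t : Fin (n + 2) → K) j ≠ 0 := by
    intro j hj
    apply hW
    have h1 := TGh33.Wr_update_smul D (Fin.cons x t) j 0 0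
    rw [zero_smul, zero_smul] at h1
    have h2 := Function.update_eq_self j (Fin.cons x t : Fin (n + 2) → K)
    rw [hj] at h2
    rwa [h2] at h1
  exact ⟨key 0, fun i => key i.succ⟩

end Pool.Agent.TG1
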