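import Pool.Agent.Lib.TG1.MaxBpf0
import Pool.Agent.Lib.TG1.DF

/-!
# Row MAXBPF, the statement of the skeleton
-/

set_option autoImplicit false

namespace Pool.Agent.TG1

open MvPolynomial
open Pool.Agent.TG (Ov ZDim IsMin)
open Pool.Agent.TGh33 (Wr DB)

universe u

variable {k K : Type u} [Field k] [Field K] [Algebra k K]
variable {n : ℕ} {D : Fin (n + 1) → Derivation k K K} {z : Fin (n + 1) → K} {A : Subalgebra k K}

theorem bpf_of_mx [IsAlgClosed k] (dat : Dat D z A) {S : Submodule k K} (hS : S.FG)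
    (hSA : ∀ s ∈ S, s ∈ A) {x : K} {t : Fin (n + 1) → K} (h : IsMx D A S x t) : Bpf S x t := by
  refine bpf_of_mx_of dat hS hSA h ?_
  obtain ⟨G, hG0, hG⟩ := exists_F dat h.adm.ne (hSA x h.adm.x_mem) fun j => hSA _ (h.adm.t_mem j)
  refine ⟨G, hG0, fun a ha => ?_⟩
  obtain ⟨F, hF0, hF, -⟩ := hG a ha
  refine ⟨F, hF0, fun c hc => ?_⟩
  have h1 := hF c hc
  omega

end Pool.Agent.TG1
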