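import Pool.Agent.Lib.TG1.Hyp
import Pool.Agent.Lib.TG1.ExtFin
import Pool.Agent.Lib.TG1.Fin
import Pool.Agent.Lib.TG1.Step
import Pool.Agent.Lib.TG1.TL
import Pool.Agent.Lib.TG1.DF
import Pool.Agent.Lib.TG1.MaxBpf

/-!
# TANK G, block G1: the theorem
-/

set_option autoImplicit false

namespace Pool.Agent.TG1

open MvPolynomial
open Pool.Agent.TG (Ov ZDim IsMin val_div_eq_one)
open Pool.Agent.TGh33 (Wr DB)
open Pool.Agent.TGh71 (dsum pol wgt)

universe u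

section

variable {k K : Type u} [Field k] [Field K] [Algebra k K] {n : ℕ}
  {D : Fin (n + 1) → Derivation k K K} {z : Fin (n + 1) → K} {A : Subalgebra k K}

theorem exists_eval_ne_two {m : ℕ} [Infinite k] {F G : MvPolynomial (Fin m) k} (hF : F ≠ 0)
    (hG : G ≠ 0) : ∃ c : Fin m → k, eval c F ≠ 0 ∧ eval c G ≠ 0 := by
  have h : F * G ≠ 0 := mul_ne_zero hF hG
  by_contra hcon
  push Not at hcon
  apply h
  refine MvPolynomial.funext fun c => ?_
  rw [map_mul, map_zero]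
  by_cases h1 : eval c F = 0
  · rw [h1, zero_mul]
  · rw [hcon c h1, mul_zero]

theorem tl_mem_S {S : Submodule k K} {x : K} {t : Fin (n + 1) → K} (hx : x ∈ S)
    (ht : ∀ i, t i ∈ S) (a : Fin (n + 1) → k) : tl x t a ∈ S :=
  S.add_mem hx (S.sum_mem fun i _ => S.smul_mem _ (ht i))

theorem tr_mem_S {S : Submodule k K} {x : K} {t : Fin (n + 1) → K} (hx : x ∈ S)
    (ht : ∀ i, t i ∈ S) (c : Fin (n + 1) → k) (i : Fin (n + 1)) : tr x t c i ∈ S :=
  S.sub_mem (ht i) (S.smul_mem _ hx)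

theorem IsMx.tl_tr [IsAlgClosed k] (dat : Dat D z A) {S : Submodule k K} {x : K}
    {t : Fin (n + 1) → K} (h : IsMx D A S x t) (a c : Fin (n + 1) → k) {N : ℕ}
    (hT : Th D A (tl x t a) t + N ≤ Th D A (tl x t a) (tr (tl x t a) t c)) :
    IsMx D A S (tl x t a) t ∧ IsMx D A S (tl x t a) (tr (tl x t a) t c) := by
  obtain ⟨h1, h2, -⟩ := Th_tl dat h.adm.ne a
  have m1 := tl_mem_S h.adm.x_mem h.adm.t_mem a
  have a1 : Adm D S (tl x t a) t := ⟨m1, h.adm.t_mem, by rw [h2]; exact h.adm.ne⟩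
  have a2 : Adm D S (tl x t a) (tr (tl x t a) t c) :=
    ⟨m1, tr_mem_S m1 h.adm.t_mem c, by rw [Wr_tr]; exact a1.ne⟩
  refine ⟨⟨a1, fun y s hy => ?_⟩, ⟨a2, fun y s hy => ?_⟩⟩
  · rw [h1]; exact h.max y s hy
  · have h3 := h.max y s hy
    have : (0 : ℤ) ≤ N := by positivity
    linarith

/-- `x + ∑ a_i t_i` is minimal at `V` if `x` is and the `t_i` are not. -/
theorem isMin_tl {V : ValuationSubring K} (hV : Ov k V) {S : Submodule k K} {x : K}
    {t : Fin (n + 1) → K} (hx : IsMin V S x) (ht : ∀ i, t i ∈ S)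
    (hlt : ∀ i, V.valuation (t i / x) < 1) (a : Fin (n + 1) → k) : IsMin V S (tl x t a) := by
  have h1 : tl x t a / x - 1 = ∑ i, algebraMap k K (a i) * (t i / x) := by
    rw [tl, add_div, div_self hx.ne, add_sub_cancel_left, Finset.sum_div]
    exact Finset.sum_congr rfl fun i _ => by rw [Algebra.smul_def, mul_div_assoc]
  have h2 : V.valuation (tl x t a / x - 1) < 1 := by
    rw [h1]
    refine V.valuation.map_sum_lt one_ne_zero fun i _ => ?_
    rw [map_mul, mul_comm]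
    exact mul_lt_one_of_lt_of_le (hlt i) ((V.valuation_le_one_iff _).2 (hV _))
  refine hx.of_val (tl_mem_S hx.mem ht a) ?_
  have h3 : tl x t a / x = 1 + (tl x t a / x - 1) := by ring
  rw [h3, V.valuation.map_add_eq_of_lt_left (by rwa [map_one]), map_one]

end

/-- **Theorem G1.** -/
theorem main (n : ℕ) (J : Finset ℕ) : ∃ C : ℕ, ∀ (k K : Type u) [Field k] [Field K] [Algebra k K]
    [IsAlgClosed k] (D : Fin (n + 1) → Derivation k K K) (z : Fin (n + 1) → K)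
    (A : Subalgebra k K), Dat D z A → ∃ S : Submodule k K, S.FG ∧ S ≠ ⊥ ∧ (∀ s ∈ S, s ∈ A) ∧
      ∀ V : ValuationSubring K, ZDim k V → ∀ S', IsHyp V S S' →
        (∀ j ∈ J, Module.finrank k (S ^ j : Submodule k K) ≤
          Module.finrank k (S' ^ j : Submodule k K) + C) ∧
        ∃ x t, x ∈ S ∧ (∀ i, t i ∈ S') ∧ IsMin V S x ∧ Wr D (Fin.cons x t) ≠ 0 ∧ Bpf S x t ∧
          (∀ V' : ValuationSubring K, Ov k V' → IsHyp V' S S' → ∃ i, IsMin V' S' (t i)) ∧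
          (dsum (fun P : PL k t => P.deg) ({P : PL k t | ∀ s ∈ S', s ≠ 0 → P.v x < P.v s}.indicator
            (pol (fun P => P.v (t 0)) fun P => P.v x)) ≤ C) ∧
          ∃ F : MvPolynomial (Fin (n + 1)) k, F ≠ 0 ∧ ordAt 0 F ≤ C ∧
            (∀ P : ValuationSubring K, Ov k P → ∀ h : MvPolynomial (Fin (n + 1)) k,
              OverP (crd x t) P h →
              UnitAt P (aeval (crd x t) F) → Good D A P ∧ UnitAt P x ∧
                UnitAt P (Wr D (Fin.cons x t) / x ^ (n + 2))) ∧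
            (∀ P : PF.Pl k K, Good D A P.vs → P.v x = 0 → ∀ h : MvPolynomial (Fin (n + 1)) k,
              OverP (crd x t) P.vs h →
              P.v (Wr D (Fin.cons x t)) ≤ P.v (aeval (crd x t) F)) := by
  obtain ⟨C, hC⟩ := exists_ext.{u} n J 1
  refine ⟨C, ?_⟩
  intro k K _ _ _ _ D z A dat
  obtain ⟨S, hSfg, hSA, hB, hS⟩ := hC k K D z A dat 1
  have hSne : S ≠ ⊥ := by
    rintro rfl
    rw [finrank_bot] at hB
    omega
  refine ⟨S, hSfg, hSne, hSA, fun V hV S' hSV => ?_⟩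
  obtain ⟨f, hf⟩ := TG.exists_isMin hV.ov (⟨hSfg, hSne⟩ : TG.IsModel S)
  have i0 : FiniteDimensional k S := Module.Finite.iff_fg.2 hSfg
  have i1 : FiniteDimensional k S' := Submodule.finiteDimensional_of_le hSV.le
  have hS'fg : S'.FG := Module.Finite.iff_fg.1 i1
  have hS'A : ∀ s ∈ S', s ∈ A := fun s hs => hSA s (hSV.le hs)
  obtain ⟨⟨x₀, t₀, hmx⟩, hle, hJ⟩ := hS S' hSV.le (hSV.finrank_le hV hf hSfg)
  refine ⟨hJ, ?_⟩
  -- a maximal tuple of `S'` in general position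
  obtain ⟨G₁, hG₁, h₁⟩ := exists_F dat hmx.adm.ne (hS'A _ hmx.adm.x_mem)
    fun j => hS'A _ (hmx.adm.t_mem j)
  obtain ⟨a₁, ha₁, -⟩ := exists_eval_ne_two hG₁ hG₁
  obtain ⟨F₁, hF₁, hF₁T, -, -⟩ := h₁ a₁ ha₁
  set x₁ := tl x₀ t₀ a₁ with hx₁
  have hW₁ : Wr D (Fin.cons x₁ t₀) ≠ 0 := by
    rw [hx₁, (Th_tl dat hmx.adm.ne a₁).2.1]; exact hmx.adm.ne
  have hx₁m : x₁ ∈ S' := tl_mem_S hmx.adm.x_mem hmx.adm.t_mem a₁
  have hmx₁ : IsMx D A S' x₁ t₀ := by
    obtain ⟨h1, h2, -⟩ := Th_tl dat hmx.adm.ne a₁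
    exact ⟨⟨hx₁m, hmx.adm.t_mem, hW₁⟩, fun y s hy => by rw [hx₁, h1]; exact hmx.max y s hy⟩
  have hb₁ : Bpf S' x₁ t₀ := bpf_of_mx dat hS'fg hS'A hmx₁
  obtain ⟨G₂, hG₂, h₂⟩ := fin_generic dat hV hSfg hSV hW₁ hx₁m hmx.adm.t_mem hb₁
  obtain ⟨c, hc₁, hc₂⟩ := exists_eval_ne_two hF₁ hG₂
  obtain ⟨-, hmx₂⟩ := hmx.tl_tr dat a₁ c (hF₁T c hc₁)
  rw [← hx₁] at hmx₂
  obtain ⟨hover, 𝓕, h𝓕, h𝓕S, hbpf⟩ := h₂ c hc₂
  set t := tr x₁ t₀ c with ht
  have htm : ∀ i, t i ∈ S' := hmx₂.adm.t_mem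
  -- the step
  obtain ⟨𝓖, h𝓖, h𝓖S, hstep⟩ := step dat hmx₂.adm.ne (fun j => hS'A _ (htm j)) S hSfg hSA
    (hSV.le hx₁m)
  obtain ⟨y, hy, hyav⟩ := TGh71.exists_avoid S (𝓕 ∪ 𝓖) (h𝓕.union h𝓖) (by
    rintro H (hH | hH)
    · exact h𝓕S H hH
    · exact h𝓖S H hH)
  obtain ⟨hymin, hybpf⟩ := hbpf y hy fun H hH => hyav H (Or.inl hH)
  obtain ⟨hWy, hTy, hdy, hmin, hpole⟩ := hstep y hy fun H hH => hyav H (Or.inr hH)
  have hyA := hSA y hy
  have htA : ∀ j, t j ∈ A := fun j => hS'A _ (htm j)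
  obtain ⟨G₃, hG₃, h₃⟩ := exists_F dat hWy hyA htA
  obtain ⟨a, ha, -⟩ := exists_eval_ne_two hG₃ hG₃
  obtain ⟨F, hF, hFT, hF1, hF2⟩ := h₃ a ha
  obtain ⟨e1, e2, e3⟩ := Th_tl dat hWy a
  set x := tl y t a with hx
  have hxS : x ∈ S := tl_mem_S hy (fun i => hSV.le (htm i)) a
  have hlt : ∀ V' : ValuationSubring K, IsHyp V' S S' → IsMin V' S y →
      ∀ s ∈ S', V'.valuation (s / y) < 1 := fun V' hV' hm s hs => hV'.lt hm hs
  have hxmin : IsMin V S x := isMin_tl hV.ov hymin (fun i => hSV.le (htm i))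
    (fun i => hlt V hSV hymin _ (htm i)) a
  have hWx : Wr D (Fin.cons x t) ≠ 0 := by rw [e2]; exact hWy
  obtain ⟨hy0, ht0⟩ := Wr_ne D hWy
  -- places over the point
  have hset : ∀ P : PL k t, (∀ s ∈ S', s ≠ 0 → P.v y < P.v s) →
      IsMin P.vs S y ∧ IsHyp P.vs S S' ∧ P.v x = P.v y ∧ P.v (t 0) ≤ P.v x₁ := by
    intro P hP
    have h1 : ∀ s ∈ S', P.vs.valuation (s / y) < 1 := by
      intro s hs
      by_cases hs0 : s = 0
      · rw [hs0, zero_div, map_zero]; exact zero_lt_one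
      rw [PF.Pl.val_lt_one_iff (div_ne_zero hs0 hy0), P.map_div hs0 hy0]
      have := hP s hs hs0
      omega
    obtain ⟨h2, h3⟩ := hSV.over hV hymin (ov_vs P) h1
    have h4 : IsMin P.vs S x := isMin_tl (ov_vs P) h2 (fun i => hSV.le (htm i))
      (fun i => h1 _ (htm i)) a
    have h5 := val_div_eq_one h2 h4
    have h6 : P.v (x / y) = 0 := (PF.Pl.val_eq_one_iff (div_ne_zero h4.ne hy0)).1 h5
    rw [P.map_div h4.ne hy0] at h6
    refine ⟨h2, h3, by omega, ?_⟩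
    obtain ⟨i, hi⟩ := hover _ (ov_vs P) h3
    have h7 := hi.div _ hx₁m
    have hx₁0 := (Wr_ne D hW₁).1
    rw [PF.Pl.mem_vs', P.map_div hx₁0 hi.ne, v_t P (ht0 0) hi.ne] at h7
    omega
  have hsets : {P : PL k t | ∀ s ∈ S', s ≠ 0 → P.v x < P.v s} =
      {P : PL k t | ∀ s ∈ S', s ≠ 0 → P.v y < P.v s} := by
    ext P
    constructor
    · intro hP s hs hs0
      have h1 : ∀ i, P.vs.valuation (t i / x) < 1 := fun i => by
        rw [PF.Pl.val_lt_one_iff (div_ne_zero (ht0 i) hxmin.ne), P.map_div (ht0 i) hxmin.ne]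
        have := hP (t i) (htm i) (ht0 i)
        omega
      have h2 : y = x - ∑ i, a i • t i := by rw [hx, tl]; abel
      have h3 : P.vs.valuation (y / x - 1) < 1 := by
        have h4 : y / x - 1 = -∑ i, algebraMap k K (a i) * (t i / x) := by
          rw [h2, sub_div, div_self hxmin.ne, Finset.sum_div, sub_sub_cancel_left]
          congr 1
          exact Finset.sum_congr rfl fun i _ => by rw [Algebra.smul_def, mul_div_assoc]
        rw [h4, Valuation.map_neg]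
        refine P.vs.valuation.map_sum_lt one_ne_zero fun i _ => ?_
        rw [map_mul, mul_comm]
        exact mul_lt_one_of_lt_of_le (h1 i) ((P.vs.valuation_le_one_iff _).2 (ov_vs P _))
      have h5 : P.vs.valuation (y / x) = 1 := by
        have h6 : y / x = 1 + (y / x - 1) := by ring
        rw [h6, Valuation.map_add_eq_of_lt_left _ (by rwa [map_one]), map_one]
      rw [PF.Pl.val_eq_one_iff (div_ne_zero hy0 hxmin.ne), P.map_div hy0 hxmin.ne] at h5
      have := hP s hs hs0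
      omega
    · intro hP s hs hs0
      rw [(hset P hP).2.2.1]
      exact hP s hs hs0
  refine ⟨x, t, hxS, htm, hxmin, hWx, ?_, hover, ?_, F, hF, ?_, ?_, ?_⟩
  · -- base point free
    intro V' hV'
    rcases hybpf V' hV' with h | ⟨j, hj⟩
    · by_cases hall : ∀ i, V'.valuation (t i / y) < 1
      · exact Or.inl (isMin_tl hV' h (fun i => hSV.le (htm i)) hall a)
      · push Not at hall
        obtain ⟨i, hi⟩ := hall
        refine Or.inr ⟨i, h.of_val (hSV.le (htm i)) (le_antisymm ?_ hi)⟩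
        exact (V'.valuation_le_one_iff _).2 (h.div _ (hSV.le (htm i)))
    · exact Or.inr ⟨j, hj⟩
  · -- the places over the point
    have h1 := hpole {P : PL k t | ∀ s ∈ S', s ≠ 0 → P.v y < P.v s} fun P hP => (hset P hP).2.2.2
    rw [hsets]
    have h2 : ({P : PL k t | ∀ s ∈ S', s ≠ 0 → P.v y < P.v s}.indicator
        (pol (fun P => P.v (t 0)) fun P => P.v x)) =
        ({P : PL k t | ∀ s ∈ S', s ≠ 0 → P.v y < P.v s}.indicator
        (pol (fun P => P.v (t 0)) fun P => P.v y)) := by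
      refine Set.indicator_congr fun P hP => ?_
      rw [pol, pol, (hset P hP).2.2.1]
    rw [h2]
    have h3 := hle y t x₁ t ⟨hy, fun i => hSV.le (htm i), hWy⟩ hmx₂
    linarith
  · -- the order of `F`
    obtain ⟨b, hb, -⟩ := exists_eval_ne_two hF hF
    have h1 := hFT b hb
    have h2 := hle x (tr x t b) x₁ t
      ⟨hxS, tr_mem_S hxS (fun i => hSV.le (htm i)) b, by rw [Wr_tr]; exact hWx⟩ hmx₂
    have h3 : (dg k x₁ t : ℤ) ≤ dg k y t := by exact_mod_cast hdy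
    have h4 : ((ordAt 0 F : ℕ) : ℤ) ≤ C := by linarith
    exact_mod_cast h4
  · intro P hP h hPh hu
    rw [e2]
    exact hF1 P hP h hPh hu
  · intro P hP h0 h hPh
    rw [e2]
    exact hF2 P hP h0 h hPh

end Pool.Agent.TG1
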