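import Pool.Agent.Lib.TG1.Step
import Pool.Agent.Lib.TG1.FFI
import Pool.Agent.Lib.TG1.TL
import Pool.Agent.Lib.TG_h38.Max
import Pool.Agent.Lib.TG1_h7.Cone

/-!
# TANK G, block G1: row MAXBPF (core)

Tuples of maximal potential are base point free.
-/

set_option autoImplicit false

open Function

namespace Pool.Agent.TG1

open MvPolynomial (eval aeval)
open Pool.Agent.TG (Ov ZDim IsMin)
open Pool.Agent.TGh33 (Wr DB)
open Pool.Agent.TGh71 (dsum pol wgt dsum_sub pol_fin exists_avoid)
open Pool.Agent.TG1h47 (sh)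

universe u

variable {k K : Type u} [Field k] [Field K] [Algebra k K] {n : ℕ}
  {D : Fin (n + 1) → Derivation k K K} {z : Fin (n + 1) → K} {A : Subalgebra k K}
  {S : Submodule k K} {x : K} {t : Fin (n + 1) → K}

/-- The coordinates `t_j / x` are algebraically independent. -/
theorem crd_indep (dat : Dat D z A) (hW : Wr D (Fin.cons x t) ≠ 0) :
    AlgebraicIndependent k (fun j => t j / x) := by
  have h1 := kq_fin dat hW
  have h2 : Algebra.IsAlgebraic (IntermediateField.adjoin k (Set.range fun j => t j / x)) K :=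
    Algebra.IsAlgebraic.of_finite (kq k x t) K
  have h3 := IntermediateField.isAlgebraic_adjoin_iff_top.1 h2
  refine (Algebra.IsAlgebraic.isTranscendenceBasis_of_lift_le_trdeg_of_finite k
    (fun j => t j / x) ?_).1
  rw [dat.trd]
  simp

/-- At a place of a maximal tuple, `x` or `t_0` is minimal. -/
theorem min_le_of_isMx [IsAlgClosed k] (dat : Dat D z A) (hS : S.FG) (hSA : ∀ s ∈ S, s ∈ A)
    (h : IsMx D A S x t) (P : PL k t) {s : K} (hs : s ∈ S) (hs0 : s ≠ 0) :
    min (P.v x) (P.v (t 0)) ≤ P.v s := by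
  have hW := h.adm.ne
  have hff := ff dat hW
  obtain ⟨F, hF, hFS, hstep⟩ := step dat hW (fun j => hSA _ (h.adm.t_mem j)) S hS hSA h.adm.x_mem
  obtain ⟨y, hy, hyF⟩ := exists_avoid S F hF hFS
  obtain ⟨hWy, hTh, hmono, h2, -⟩ := hstep y hy hyF
  have h3 := h.max y t ⟨hy, h.adm.t_mem, hWy⟩
  have h4 : dg k y t = dg k x t := by
    have h5 : (dg k y t : ℤ) ≤ dg k x t := by linarith
    exact le_antisymm (by exact_mod_cast h5) hmono
  have h5 : pls k x t = pls k y t := by
    rw [pls_eq dat hW, pls_eq dat hWy, h4]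
  have hfs : ∀ z : K, (support fun P : PL k t => P.v z).Finite := fun z =>
    PF.finite_support hff z
  have fx := pol_fin (hfs (t 0)) (hfs x)
  have fy := pol_fin (hfs (t 0)) (hfs y)
  have h6 := dsum_sub (dg := fun P : PL k t => P.deg) fy fx
  rw [pls, pls] at h5
  rw [h5, sub_self, dsum] at h6
  have h7 : ∀ Q : PL k t, 0 ≤ (pol (fun P : PL k t => P.v (t 0)) (fun P => P.v y) Q -
      pol (fun P : PL k t => P.v (t 0)) (fun P => P.v x) Q) * (Q.deg : ℤ) := by
    intro Q
    refine mul_nonneg ?_ (Int.natCast_nonneg _)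
    have h8 := h2 Q x h.adm.x_mem (x_ne_zero hW)
    simp only [pol]
    omega
  have h8 := single_le_finsum P (((fy.union fx).subset (support_sub _ _)).subset
    fun Q hQ => by
      rw [mem_support] at hQ ⊢
      exact fun h => hQ (by rw [h, zero_mul])) h7
  rw [h6] at h8
  have h9 := P.deg_pos hff
  have h10 : pol (fun P : PL k t => P.v (t 0)) (fun P => P.v y) P -
      pol (fun P : PL k t => P.v (t 0)) (fun P => P.v x) P ≤ 0 := by
    by_contra h11
    push Not at h11
    have : 0 < (pol (fun P : PL k t => P.v (t 0)) (fun P => P.v y) P -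
      pol (fun P : PL k t => P.v (t 0)) (fun P => P.v x) P) * (P.deg : ℤ) :=
      mul_pos h11 (by exact_mod_cast h9)
    omega
  have h11 := h2 P s hs hs0
  simp only [pol] at h10
  omega

theorem ge_of_isMx [IsAlgClosed k] (dat : Dat D z A) (hS : S.FG) (hSA : ∀ s ∈ S, s ∈ A)
    (h : IsMx D A S x t) (P : PL k t) {s : K} (hs : s ∈ S) :
    P.Ge (min 0 (P.v (x / t 0))) (s / t 0) := by
  intro hs0
  have hs' : s ≠ 0 := fun h0 => hs0 (by rw [h0, zero_div])
  have h1 := min_le_of_isMx dat hS hSA h P hs hs'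
  have hx0 := x_ne_zero h.adm.ne
  have ht0 := t_ne_zero h.adm.ne 0
  rw [P.map_div hx0 ht0, P.map_div hs' ht0]
  omega

/-- Infinite fields: a nonzero polynomial has a non-zero. -/
theorem exists_eval_ne [Infinite k] {σ : Type*} {F : MvPolynomial σ k} (hF : F ≠ 0) :
    ∃ c, eval c F ≠ 0 := by
  by_contra h
  push Not at h
  exact hF (MvPolynomial.funext fun c => by rw [h c, map_zero])

/-- **Elements of `S` are integral over `k[t / x]`**, for `x` such that the generic projection is
maximal as well. -/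
theorem isIntegral_of_isMx [IsAlgClosed k] (dat : Dat D z A) (hS : S.FG) (hSA : ∀ s ∈ S, s ∈ A)
    (h : IsMx D A S x t) {F : MvPolynomial (Fin (n + 1)) k} (hF : F ≠ 0)
    (hgen : ∀ c, eval c F ≠ 0 → Th D A x t ≤ Th D A x (tr x t c)) {s : K} (hs : s ∈ S) :
    IsIntegral (Algebra.adjoin k (Set.range fun j => t j / x)) (s / x) := by
  classical
  have hW := h.adm.ne
  have hx0 := x_ne_zero hW
  have hT := crd_indep dat hW
  have hfin := kq_fin dat hW
  set p := minpoly (kq k x t) (s / x) with hp
  have hfrac : ∀ i, ∃ G H : MvPolynomial (Fin (n + 1)) k, H ≠ 0 ∧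
      ((p.coeff i : kq k x t) : K) * aeval (fun j => t j / x) H = aeval (fun j => t j / x) G := by
    intro i
    obtain ⟨G, H, hGH⟩ := (IntermediateField.mem_adjoin_range_iff k (fun j => t j / x) _).1
      (p.coeff i).2
    by_cases hH : aeval (fun j => t j / x) H = (0 : K)
    · refine ⟨0, 1, one_ne_zero, ?_⟩
      rw [hGH, hH, div_zero, zero_mul, map_zero]
    · refine ⟨G, H, fun h0 => hH (by rw [h0, map_zero]), ?_⟩
      rw [hGH, div_mul_cancel₀ _ hH]
  choose G H hH hGH using hfrac
  obtain ⟨c, hc⟩ := exists_eval_ne (mul_ne_zero hF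
    (Finset.prod_ne_zero_iff.mpr fun i (_ : i ∈ Finset.range (p.natDegree + 1)) => hH i))
  rw [map_mul, map_prod] at hc
  have hcF := left_ne_zero_of_mul hc
  have hcH := Finset.prod_ne_zero_iff.mp (right_ne_zero_of_mul hc)
  -- the projection from `c`
  have hW' : Wr D (Fin.cons x (tr x t c)) ≠ 0 := by rwa [Wr_tr]
  have hmx : IsMx D A S x (tr x t c) :=
    ⟨⟨h.adm.x_mem, fun j => S.sub_mem (h.adm.t_mem j) (S.smul_mem _ h.adm.x_mem), hW'⟩,
      fun y s' hys => (h.max y s' hys).trans (hgen c hcF)⟩
  have ht0 := t_ne_zero hW' 0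
  have hcoef := PF.minpoly_coeff_mem_inv (ff dat hW') (transcendental_div dat hW')
    (fun P => ge_of_isMx dat hS hSA hmx P hs)
  have e1 : s / tr x t c 0 / (x / tr x t c 0) = s / x := div_div_div_cancel_right₀ ht0 s x
  have e2 : (x / tr x t c 0)⁻¹ = sh (fun j => t j / x) c 0 := by
    rw [inv_div, tr, sh, sub_div, Algebra.smul_def, mul_div_assoc, div_self hx0, mul_one]
  have e3 : (fun j => tr x t c j / tr x t c 0) =
      fun j => sh (fun j => t j / x) c j / sh (fun j => t j / x) c 0 := by
    have e4 : ∀ j, sh (fun j => t j / x) c j = tr x t c j / x := by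
      intro j
      rw [tr, sh, sub_div, Algebra.smul_def, mul_div_assoc, div_self hx0, mul_one]
    funext j
    rw [e4, e4, div_div_div_cancel_right₀ hx0]
  have e5 : ∀ M : IntermediateField k K,
      M = IntermediateField.restrictScalars k
        (IntermediateField.adjoin (kap k (tr x t c)) {x / tr x t c 0}) → ∀ i,
      (((minpoly M (s / x)).coeff i : M) : K) = (((minpoly (IntermediateField.adjoin
        (kap k (tr x t c)) {x / tr x t c 0}) (s / x)).coeff i :
          IntermediateField.adjoin (kap k (tr x t c)) {x / tr x t c 0}) : K) := by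
    rintro _ rfl i
    rfl
  have e6 : kq k x t = IntermediateField.restrictScalars k
      (IntermediateField.adjoin (kap k (tr x t c)) {x / tr x t c 0}) := by
    rw [rs_eq hx0 ht0, kq_tr]
  have e7 : ∀ {u v : Fin (n + 1) → K}, u = v → ∀ {q a b : K}, a = b →
      q ∈ Algebra.adjoin (IntermediateField.adjoin k (Set.range u)) {a} →
      q ∈ Algebra.adjoin (IntermediateField.adjoin k (Set.range v)) {b} := by
    rintro _ _ rfl _ _ _ rfl hq
    exact hq
  have hmem : ∀ i, ((p.coeff i : kq k x t) : K) ∈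
      Algebra.adjoin k (Set.range fun j => t j / x) := by
    intro i
    by_cases hi : i ∈ Finset.range (p.natDegree + 1)
    · refine TG1h7.mem_adjoin_of_form hT c (hcH i hi) (hGH i) ?_
      have h1 := hcoef i
      rw [e1] at h1
      rw [hp, e5 _ e6 i]
      exact e7 e3 e2 h1
    · rw [Finset.mem_range, not_lt] at hi
      rw [Polynomial.coeff_eq_zero_of_natDegree_lt (by omega)]
      exact (Algebra.adjoin k (Set.range fun j => t j / x)).zero_mem
  -- the minimal polynomial over `k[t / x]`
  have hint : IsIntegral (kq k x t) (s / x) := IsIntegral.of_finite _ _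
  have hmon : (p.map (algebraMap (kq k x t) K)).Monic := (minpoly.monic hint).map _
  have hcoefs : ((p.map (algebraMap (kq k x t) K)).coeffs : Set K) ⊆
      (Algebra.adjoin k (Set.range fun j => t j / x)).toSubring := by
    intro a ha
    obtain ⟨i, -, rfl⟩ := Polynomial.mem_coeffs_iff.mp ha
    rw [Polynomial.coeff_map]
    exact hmem i
  refine ⟨(p.map (algebraMap (kq k x t) K)).toSubring _ hcoefs,
    (Polynomial.monic_toSubring _ _ _).mpr hmon, ?_⟩
  have h2 := Polynomial.map_toSubring (p.map (algebraMap (kq k x t) K)) _ hcoefs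
  have h3 : Polynomial.eval (s / x) (p.map (algebraMap (kq k x t) K)) = 0 := by
    rw [Polynomial.eval_map_algebraMap]
    exact minpoly.aeval _ _
  rw [← h2, Polynomial.eval_map] at h3
  exact h3

/-- A minimal element among the entries of a tuple; suitable combinations are minimal. -/
theorem exists_tl_min [Infinite k] {V : ValuationSubring K} (hV : Ov k V) (hx : x ≠ 0)
    (ht : ∀ j, t j ≠ 0) {G : MvPolynomial (Fin (n + 1)) k} (hG : G ≠ 0) :
    ∃ a, eval a G ≠ 0 ∧ tl x t a ≠ 0 ∧ x / tl x t a ∈ V ∧ ∀ j, t j / tl x t a ∈ V := by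
  classical
  have hk : ∀ c : k, V.valuation (algebraMap k K c) ≤ 1 := fun c =>
    (V.valuation_le_one_iff _).2 (hV c)
  have hfin : ∀ {w : K} (_ : w ≠ 0), V.valuation x ≤ V.valuation w →
      (∀ j, V.valuation (t j) ≤ V.valuation w) → x / w ∈ V ∧ ∀ j, t j / w ∈ V := by
    intro w hw h1 h2
    have hw' : V.valuation w ≠ 0 := by rwa [Ne, Valuation.zero_iff]
    constructor
    · rw [← V.valuation_le_one_iff, map_div₀]
      exact (div_le_one₀ (zero_lt_iff.mpr hw')).mpr h1
    · intro j
      rw [← V.valuation_le_one_iff, map_div₀]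
      exact (div_le_one₀ (zero_lt_iff.mpr hw')).mpr (h2 j)
  obtain ⟨j, -, hj⟩ := Finset.exists_max_image (Finset.univ : Finset (Fin (n + 1)))
    (fun j => V.valuation (t j)) ⟨0, Finset.mem_univ _⟩
  have hj' : ∀ i, V.valuation (t i) ≤ V.valuation (t j) := fun i => hj i (Finset.mem_univ _)
  have hsum : ∀ a : Fin (n + 1) → k, V.valuation (∑ i, a i • t i) ≤ V.valuation (t j) := by
    intro a
    refine Valuation.map_sum_le _ fun i _ => ?_
    rw [Algebra.smul_def, map_mul]
    calc V.valuation (algebraMap k K (a i)) * V.valuation (t i) ≤ 1 * V.valuation (t j) :=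
          mul_le_mul' (hk _) (hj' i)
      _ = _ := one_mul _
  rcases lt_or_ge (V.valuation (t j)) (V.valuation x) with hlt | hge
  · -- `x` is the only minimal element
    obtain ⟨a, ha⟩ := exists_eval_ne hG
    have h1 : V.valuation (tl x t a) = V.valuation x := by
      rw [tl]
      exact Valuation.map_add_eq_of_lt_left _ ((hsum a).trans_lt hlt)
    have h2 : tl x t a ≠ 0 := by
      intro h0
      rw [h0, map_zero] at h1
      exact hx ((Valuation.zero_iff _).mp h1.symm)
    exact ⟨a, ha, h2, hfin h2 h1.ge fun i => ((hj' i).trans hlt.le).trans h1.ge⟩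
  · -- `t j` is minimal
    have hle : ∀ a : Fin (n + 1) → k, V.valuation (tl x t a) ≤ V.valuation (t j) := by
      intro a
      rw [tl]
      exact Valuation.map_add_le _ hge (hsum a)
    have hG' : G * TG1h47.tr (Pi.single j 1) G ≠ 0 := mul_ne_zero hG (TG1h47.tr_ne_zero _ hG)
    obtain ⟨a, ha⟩ := exists_eval_ne hG'
    rw [map_mul, TG1h47.eval_tr] at ha
    have key : ∀ b : Fin (n + 1) → k, eval b G ≠ 0 → V.valuation (tl x t b) = V.valuation (t j) →
        ∃ a, eval a G ≠ 0 ∧ tl x t a ≠ 0 ∧ x / tl x t a ∈ V ∧ ∀ j, t j / tl x t a ∈ V := by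
      intro b hb h1
      have h2 : tl x t b ≠ 0 := by
        intro h0
        rw [h0, map_zero] at h1
        exact ht j ((Valuation.zero_iff _).mp h1.symm)
      exact ⟨b, hb, h2, hfin h2 (hge.trans h1.ge) fun i => (hj' i).trans h1.ge⟩
    by_cases h1 : V.valuation (tl x t a) = V.valuation (t j)
    · exact key a (left_ne_zero_of_mul ha) h1
    · refine key (a + Pi.single j 1) (right_ne_zero_of_mul ha) ?_
      have h2 : tl x t (a + Pi.single j 1) = t j + tl x t a := by
        rw [tl, tl]
        have h3 : ∑ i, (a + Pi.single j 1 : Fin (n + 1) → k) i • t i = ∑ i, a i • t i + t j := by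
          have h4 : ∀ i, (a + Pi.single j 1 : Fin (n + 1) → k) i • t i =
              a i • t i + (Pi.single j (1 : k) : Fin (n + 1) → k) i • t i := fun i => by
            rw [Pi.add_apply, add_smul]
          have h5 : ∑ i, (Pi.single j (1 : k) : Fin (n + 1) → k) i • t i = t j := by
            rw [Finset.sum_eq_single j]
            · rw [Pi.single_eq_same, one_smul]
            · intro i _ hi
              rw [Pi.single_eq_of_ne hi, zero_smul]
            · intro h; exact absurd (Finset.mem_univ _) h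
          rw [Finset.sum_congr rfl fun i _ => h4 i, Finset.sum_add_distrib, h5]
        rw [h3]
        ring
      rw [h2]
      exact Valuation.map_add_eq_of_lt_left _ (lt_of_le_of_ne (hle a) h1)

/-- **MAXBPF**, from row DF. -/
theorem bpf_of_mx_of [IsAlgClosed k] (dat : Dat D z A) (hS : S.FG) (hSA : ∀ s ∈ S, s ∈ A)
    (h : IsMx D A S x t)
    (hDF : ∃ G : MvPolynomial (Fin (n + 1)) k, G ≠ 0 ∧ ∀ a : Fin (n + 1) → k, eval a G ≠ 0 →
      ∃ F : MvPolynomial (Fin (n + 1)) k, F ≠ 0 ∧ ∀ c : Fin (n + 1) → k, eval c F ≠ 0 →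
        Th D A (tl x t a) t ≤ Th D A (tl x t a) (tr (tl x t a) t c)) : Bpf S x t := by
  intro V hV
  have hW := h.adm.ne
  obtain ⟨G, hG, hGa⟩ := hDF
  obtain ⟨a, haG, hx', hxV, htV⟩ := exists_tl_min hV (x_ne_zero hW) (t_ne_zero hW) hG
  obtain ⟨F, hF, hFc⟩ := hGa a haG
  have hTh := Th_tl dat hW a
  have hmx : IsMx D A S (tl x t a) t := by
    refine ⟨⟨?_, h.adm.t_mem, by rw [hTh.2.1]; exact hW⟩, fun y s hys => ?_⟩
    · exact S.add_mem h.adm.x_mem (S.sum_mem fun i _ => S.smul_mem _ (h.adm.t_mem i))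
    · rw [hTh.1]
      exact h.max y s hys
  -- elements of `S` are bounded by `x'`
  have hmin : ∀ s ∈ S, s / tl x t a ∈ V := by
    intro s hs
    have h1 := isIntegral_of_isMx dat hS hSA hmx hF hFc hs
    obtain ⟨p, hp, hp'⟩ := h1
    have hle : ∀ b ∈ Algebra.adjoin k (Set.range fun j => t j / tl x t a), b ∈ V := by
      intro b hb
      induction hb using Algebra.adjoin_induction with
      | mem y hy =>
        obtain ⟨j, rfl⟩ := hy
        exact htV j
      | algebraMap c => exact hV c
      | add y y' _ _ hy hy' => exact V.add_mem _ _ hy hy'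
      | mul y y' _ _ hy hy' => exact V.mul_mem _ _ hy hy'
    let i : Algebra.adjoin k (Set.range fun j => t j / tl x t a) →+* V :=
      (algebraMap (Algebra.adjoin k (Set.range fun j => t j / tl x t a)) K).codRestrict
        V.toSubring fun b => hle _ b.2
    have h2 : IsIntegral V (s / tl x t a) := by
      refine ⟨p.map i, hp.map i, ?_⟩
      rw [Polynomial.eval₂_map]
      exact hp'
    obtain ⟨b, hb⟩ := IsIntegrallyClosed.isIntegral_iff.mp h2
    rw [← hb]
    exact b.2
  have hk : ∀ c : k, V.valuation (algebraMap k K c) ≤ 1 := fun c =>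
    (V.valuation_le_one_iff _).2 (hV c)
  -- an entry of the tuple with the value of `x'`
  have key : ∀ r ∈ S, r ≠ 0 → ¬ V.valuation (r / tl x t a) < 1 → IsMin V S r := by
    intro r hr hr0 h1
    refine ⟨hr, hr0, fun g hg => ?_⟩
    have h2 : g / r = (g / tl x t a) * (tl x t a / r) := by
      rw [div_mul_div_cancel₀ hx']
    rw [h2]
    refine V.mul_mem _ _ (hmin g hg) ?_
    rw [← V.valuation_le_one_iff, ← inv_div, map_inv₀]
    rw [not_lt] at h1
    exact inv_le_one_of_one_le₀ h1
  by_contra hcon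
  push Not at hcon
  have h1 : V.valuation (x / tl x t a) < 1 := by
    by_contra h2
    exact hcon.1 (key x h.adm.x_mem (x_ne_zero hW) h2)
  have h3 : ∀ j, V.valuation (t j / tl x t a) < 1 := by
    intro j
    by_contra h2
    exact hcon.2 j (key (t j) (h.adm.t_mem j) (t_ne_zero hW j) h2)
  have h4 : V.valuation (x / tl x t a + ∑ i, a i • (t i / tl x t a)) < 1 := by
    refine Valuation.map_add_lt _ h1 ?_
    refine Valuation.map_sum_lt _ one_ne_zero fun i _ => ?_
    rw [Algebra.smul_def, map_mul]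
    exact mul_lt_one_of_nonneg_of_lt_one_right (hk _) zero_le (h3 i)
  have h5 : x / tl x t a + ∑ i, a i • (t i / tl x t a) = 1 := by
    have h6 : ∑ i, a i • (t i / tl x t a) = (∑ i, a i • t i) / tl x t a := by
      rw [Finset.sum_div]
      refine Finset.sum_congr rfl fun i _ => ?_
      rw [Algebra.smul_def, Algebra.smul_def, mul_div_assoc]
    rw [h6, ← add_div]
    exact div_self hx'
  rw [h5, map_one] at h4
  exact lt_irrefl _ h4

end Pool.Agent.TG1
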