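import Pool.Agent.Lib.TG1.Defs

/-!
# TANK G, block G1: row STEP

The generic choice of `y ∈ S` for a fixed projection `t`, in the form 'for all `y` outside finitely
many subspaces'.
-/

set_option autoImplicit false

open Function

namespace Pool.Agent.TG1

open Pool.Agent.TG (Ov ZDim IsMin)
open Pool.Agent.TGh33 (Wr DB Wr_update_smul)
open Pool.Agent.TGh71 (dsum pol wgt count pol_drop IsOrd)
open Pool.Agent.TG7 (WrL WrL_apply)

universe u

variable {k K : Type u} [Field k] [Field K] [Algebra k K]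

/-- The order of a place of `K / kap k t` is an order over `k`. -/
theorem isOrd_v {n : ℕ} {t : Fin (n + 1) → K} (P : PL k t) : IsOrd k P.v where
  mul := P.mul
  add := P.add
  const c hc := by
    have h := P.triv (algebraMap k (kap k t) c)
      ((map_ne_zero_iff _ (algebraMap k (kap k t)).injective).mpr hc)
    rwa [← IsScalarTower.algebraMap_apply] at h

theorem Wr_eq_zero_of {n : ℕ} (D : Fin n → Derivation k K K) (f : Fin (n + 1) → K)
    (j : Fin (n + 1)) (h : f j = 0) : Wr D f = 0 := by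
  have h1 := Wr_update_smul D f j (0 : k) (0 : K)
  rw [zero_smul, zero_smul, ← h, update_eq_self] at h1
  exact h1.trans h

theorem t_ne_zero {n : ℕ} {D : Fin (n + 1) → Derivation k K K} {x : K} {t : Fin (n + 1) → K}
    (hW : Wr D (Fin.cons x t) ≠ 0) (j : Fin (n + 1)) : t j ≠ 0 := fun h =>
  hW (Wr_eq_zero_of D _ j.succ (by rw [Fin.cons_succ]; exact h))

theorem x_ne_zero {n : ℕ} {D : Fin (n + 1) → Derivation k K K} {x : K} {t : Fin (n + 1) → K}
    (hW : Wr D (Fin.cons x t) ≠ 0) : x ≠ 0 := fun h =>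
  hW (Wr_eq_zero_of D _ 0 (by rw [Fin.cons_zero]; exact h))

/-- Generic elements, for all elements outside finitely many subspaces. -/
theorem exists_generic_all {ι : Type*} (Q : Set ι) (hQ : Q.Finite) (o : ι → K → ℤ)
    (ho : ∀ P, IsOrd k (o P)) (S : Submodule k K) (hS : S.FG) (L : K →ₗ[k] K)
    (hL : ∃ s ∈ S, L s ≠ 0) : ∃ F : Set (Submodule k K), F.Finite ∧ (∀ H ∈ F, ¬ S ≤ H) ∧
      ∀ s ∈ S, (∀ H ∈ F, s ∉ H) → L s ≠ 0 ∧ ∀ P ∈ Q,
        (∀ s' ∈ S, s' ≠ 0 → o P s ≤ o P s') ∧ ∀ s' ∈ S, L s' ≠ 0 → o P (L s) ≤ o P (L s') := by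
  obtain ⟨s1, hs1, hL1⟩ := hL
  have hSb : S ≠ ⊥ := by
    rintro rfl
    rw [Submodule.mem_bot] at hs1
    rw [hs1, map_zero] at hL1
    exact hL1 rfl
  have hLb : S.map L ≠ ⊥ := by
    intro hc
    have : L s1 ∈ S.map L := Submodule.mem_map_of_mem hs1
    rw [hc, Submodule.mem_bot] at this
    exact hL1 this
  choose x hxm hx0 hxmin using fun P => (ho P).exists_min hS hSb
  choose y hym hy0 hymin using fun P => (ho P).exists_min (hS.map L) hLb
  refine ⟨(fun P => (ho P).gt (o P (x P))) '' Q ∪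
    (fun P => ((ho P).gt (o P (y P))).comap L) '' Q ∪ {LinearMap.ker L},
    ((hQ.image _).union (hQ.image _)).union (Set.finite_singleton _), ?_, ?_⟩
  · rintro H ((⟨P, -, rfl⟩ | ⟨P, -, rfl⟩) | hH) hle
    · rcases hle (hxm P) with h1 | h1
      · exact hx0 P h1
      · exact lt_irrefl _ h1
    · obtain ⟨z, hz, hzy⟩ := Submodule.mem_map.1 (hym P)
      rcases hle hz with h1 | h1
      · exact hy0 P (hzy ▸ h1)
      · rw [hzy] at h1
        exact lt_irrefl _ h1
    · rw [Set.mem_singleton_iff] at hH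
      rw [hH] at hle
      exact hL1 (LinearMap.mem_ker.1 (hle hs1))
  · intro s hsS hs
    refine ⟨fun hc => hs _ (Or.inr rfl) (LinearMap.mem_ker.2 hc), fun P hP => ⟨?_, ?_⟩⟩
    · intro s' hs' hs0'
      have h1 : s ∉ (ho P).gt (o P (x P)) := hs _ (Or.inl (Or.inl ⟨P, hP, rfl⟩))
      rw [IsOrd.mem_gt, not_or, not_lt] at h1
      exact h1.2.trans (hxmin P s' hs' hs0')
    · intro s' hs' hs0'
      have h1 : s ∉ ((ho P).gt (o P (y P))).comap L := hs _ (Or.inl (Or.inr ⟨P, hP, rfl⟩))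
      rw [Submodule.mem_comap, IsOrd.mem_gt, not_or, not_lt] at h1
      exact h1.2.trans (hymin P _ (Submodule.mem_map_of_mem hs') hs0')

/-- **Row STEP**, from the rows FFI and GOOD. -/
theorem step_of {n : ℕ} {D : Fin (n + 1) → Derivation k K K} {A : Subalgebra k K} {x : K}
    {t : Fin (n + 1) → K} (hff : PF.FF (kap k t) K) (hfin : ((gd D A t)ᶜ).Finite)
    (hpls : ∀ y, Wr D (Fin.cons y t) ≠ 0 → pls k y t = dg k y t)
    (hW : Wr D (Fin.cons x t) ≠ 0) (S : Submodule k K) (hS : S.FG)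
    (hSA : ∀ s ∈ S, s ∈ A) (hx : x ∈ S) :
    ∃ F : Set (Submodule k K), F.Finite ∧ (∀ H ∈ F, ¬ S ≤ H) ∧ ∀ y ∈ S, (∀ H ∈ F, y ∉ H) →
      Wr D (Fin.cons y t) ≠ 0 ∧ Th D A x t + (dg k y t - dg k x t : ℤ) ≤ Th D A y t ∧
      dg k x t ≤ dg k y t ∧
      (∀ P : PL k t, ∀ s ∈ S, s ≠ 0 → min (P.v y) (P.v (t 0)) ≤ P.v s) ∧
      ∀ C : Set (PL k t), (∀ P ∈ C, P.v (t 0) ≤ P.v x) →
        (dg k x t : ℤ) + dsum (fun P : PL k t => P.deg)
          (C.indicator (pol (fun P => P.v (t 0)) fun P => P.v y)) ≤ dg k y t := by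
  obtain ⟨F, hF, hFS, hgen⟩ := exists_generic_all (gd D A t)ᶜ hfin (fun P : PL k t => P.v)
    isOrd_v S hS (WrL D t) ⟨x, hx, hW⟩
  refine ⟨F, hF, hFS, fun y hy hyF => ?_⟩
  obtain ⟨hLy, hmin⟩ := hgen y hy hyF
  have hWy : Wr D (Fin.cons y t) ≠ 0 := hLy
  have hx0 := x_ne_zero hW
  have hy0 := x_ne_zero hWy
  have ht0 := t_ne_zero hW 0
  have hfs : ∀ z : K, (support fun P : PL k t => P.v z).Finite := fun z =>
    PF.finite_support hff z
  have hpf : ∀ z : K, dsum (fun P : PL k t => P.deg) (fun P : PL k t => P.v z) = 0 := fun z =>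
    PF.product_formula hff z
  have h2 : ∀ P : PL k t, ∀ s ∈ S, s ≠ 0 → min (P.v y) (P.v (t 0)) ≤ P.v s := by
    intro P s hs hs0
    by_cases hP : P ∈ gd D A t
    · have h3 : s ∈ P.vs := hP.1.le s (hSA s hs)
      rw [PF.Pl.mem_vs'] at h3
      rw [hP.2]
      exact (min_le_right _ _).trans h3
    · exact (min_le_left _ _).trans ((hmin P hP).1 s hs hs0)
  have hcount := count (dg := fun P : PL k t => P.deg) hfin (hfs (t 0)) (hfs y) (hfs x)
    (hfs (Wr D (Fin.cons y t))) (hfs (Wr D (Fin.cons x t))) (hpf _) (hpf _)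
    (fun P hP => (hmin P hP).2 x hx hW) (fun P => h2 P x hx hx0)
  have hdrop : ∀ C : Set (PL k t), (∀ P ∈ C, P.v (t 0) ≤ P.v x) →
      (dg k x t : ℤ) + dsum (fun P : PL k t => P.deg)
        (C.indicator (pol (fun P => P.v (t 0)) fun P => P.v y)) ≤ dg k y t := by
    intro C hC
    have h4 := pol_drop (dg := fun P : PL k t => P.deg) (hfs (t 0)) (hfs y) (hfs x)
      (fun P => h2 P x hx hx0) C hC
    have h5 := hpls x hW
    have h6 := hpls y hWy
    rw [pls] at h5 h6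
    rw [← h5, ← h6]
    exact h4
  have hmono : dg k x t ≤ dg k y t := by
    have h4 := hdrop ∅ (fun P hP => absurd hP (Set.notMem_empty P))
    rw [Set.indicator_empty] at h4
    have h5 : dsum (fun P : PL k t => P.deg) (fun _ => (0 : ℤ)) = 0 := by
      rw [dsum, finsum_eq_zero_of_forall_eq_zero]
      intro P
      rw [zero_mul]
    rw [h5, add_zero] at h4
    exact_mod_cast h4
  refine ⟨hWy, ?_, hmono, h2, hdrop⟩
  have h5 := hpls x hW
  have h6 := hpls y hWy
  rw [pls] at h5 h6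
  rw [h5, h6] at hcount
  have h7 : bet D A x t + dg k x t ≤ bet D A y t + dg k y t := hcount
  rw [Th, Th]
  linarith

end Pool.Agent.TG1
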