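import Pool.Agent.Lib.TG1.Good
import Pool.Agent.Lib.TG1.StepCore
import Pool.Agent.Lib.TG_h71.Gen

/-!
# TANK G, block G1, row START: the potential is bounded by the degree of a generic element

`A = k[V]`, `1 ∈ V`. For `m` large and every admissible tuple `(x, t)` of `V ^ m` there is
`s ∈ V ^ ((n + 3) m)`, transcendental over `kap k t`, with `Th D A x t ≤ 7 [K : kap k t (s)]`.
-/

set_option autoImplicit false

namespace Pool.Agent.TG1

open Pool.Agent.TG (Ov ZDim IsMin)
open Pool.Agent.TGh33 (Wr DB row)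
open Pool.Agent.TGh71 (dsum pol wgt dsum_mono dsum_add dsum_sub IsOrd exists_avoid)
open Function

universe u

section pow

variable {k K : Type*} [Field k] [Field K] [Algebra k K]

theorem pow_mono_one {V : Submodule k K} (h1 : (1 : K) ∈ V) {a b : ℕ} (h : a ≤ b) :
    V ^ a ≤ V ^ b :=
  pow_le_pow_right₀ (Submodule.one_le.2 h1) h

theorem mem_pow_of_adjoin {V : Submodule k K} (h1 : (1 : K) ∈ V) {a : K}
    (ha : a ∈ Algebra.adjoin k (V : Set K)) : ∃ s : ℕ, a ∈ V ^ s := by
  induction ha using Algebra.adjoin_induction with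
  | mem x hx => exact ⟨1, by rw [pow_one]; exact hx⟩
  | algebraMap r =>
    exact ⟨0, by rw [pow_zero]; exact Submodule.algebraMap_mem r⟩
  | add x y _ _ ihx ihy =>
    obtain ⟨a, ha⟩ := ihx
    obtain ⟨b, hb⟩ := ihy
    exact ⟨a + b, add_mem (pow_mono_one h1 (Nat.le_add_right _ _) ha)
      (pow_mono_one h1 (Nat.le_add_left _ _) hb)⟩
  | mul x y _ _ ihx ihy =>
    obtain ⟨a, ha⟩ := ihx
    obtain ⟨b, hb⟩ := ihy
    exact ⟨a + b, by rw [pow_add]; exact Submodule.mul_mem_mul ha hb⟩

/-- A linear map which sends `V` into `k[V]` sends `V` into some `V ^ e`. -/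
theorem exists_pow_of_map {V : Submodule k K} (hV : V.FG) (h1 : (1 : K) ∈ V) (L : K →ₗ[k] K)
    (hL : ∀ v ∈ V, L v ∈ Algebra.adjoin k (V : Set K)) : ∃ e : ℕ, ∀ v ∈ V, L v ∈ V ^ e := by
  classical
  obtain ⟨S, hS⟩ := hV
  have h2 : ∀ v : K, ∃ e : ℕ, v ∈ V → L v ∈ V ^ e := by
    intro v
    by_cases hv : v ∈ V
    · obtain ⟨e, he⟩ := mem_pow_of_adjoin h1 (hL v hv)
      exact ⟨e, fun _ => he⟩
    · exact ⟨0, fun h => absurd h hv⟩
  choose e he using h2
  refine ⟨S.sup e, fun v hv => ?_⟩
  have h3 : V.map L ≤ V ^ S.sup e := by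
    conv_lhs => rw [← hS]
    rw [Submodule.map_span, Submodule.span_le]
    rintro _ ⟨x, hx, rfl⟩
    have hxV : x ∈ V := by rw [← hS]; exact Submodule.subset_span hx
    exact pow_mono_one h1 (Finset.le_sup (f := e) hx) (he x hxV)
  exact h3 ⟨v, hv, rfl⟩

theorem der_pow {V : Submodule k K} {D : Derivation k K K} {e : ℕ} (h1 : (1 : K) ∈ V)
    (hD : ∀ v ∈ V, D v ∈ V ^ e) (m : ℕ) : ∀ v ∈ V ^ m, D v ∈ V ^ (m + e) := by
  induction m with
  | zero =>
    intro v hv
    rw [pow_zero, Submodule.mem_one] at hv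
    obtain ⟨c, rfl⟩ := hv
    rw [D.map_algebraMap]
    exact zero_mem _
  | succ m ih =>
    intro v hv
    rw [pow_succ] at hv
    refine Submodule.mul_induction_on hv (fun a ha b hb => ?_) fun a b ha hb => ?_
    · rw [D.leibniz, smul_eq_mul, smul_eq_mul]
      refine add_mem ?_ ?_
      · have h2 := Submodule.mul_mem_mul ha (hD b hb)
        rw [← pow_add] at h2
        exact pow_mono_one h1 (by omega) h2
      · have h2 := Submodule.mul_mem_mul hb (ih a ha)
        rw [← pow_succ'] at h2
        exact pow_mono_one h1 (by omega) h2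
    · rw [map_add]
      exact add_mem ha hb

theorem prod_mem_pow' {ι : Type*} {P : Submodule k K} (s : Finset ι) (f : ι → K)
    (hf : ∀ i ∈ s, f i ∈ P) : ∏ i ∈ s, f i ∈ P ^ s.card := by
  classical
  induction s using Finset.induction with
  | empty => simp
  | insert i s hi ih =>
    rw [Finset.prod_insert hi, Finset.card_insert_of_notMem hi, pow_succ']
    exact Submodule.mul_mem_mul (hf i (Finset.mem_insert_self _ _))
      (ih fun j hj => hf j (Finset.mem_insert_of_mem hj))

theorem det_mem_pow {N : ℕ} {P : Submodule k K} (M : Matrix (Fin N) (Fin N) K)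
    (hM : ∀ i j, M i j ∈ P) : M.det ∈ P ^ N := by
  rw [Matrix.det_apply]
  refine Submodule.sum_mem _ fun σ _ => ?_
  have h1 : ∏ i, M (σ i) i ∈ P ^ N := by
    have h2 := prod_mem_pow' (P := P) Finset.univ (fun i => M (σ i) i) fun i _ => hM _ _
    rwa [Finset.card_univ, Fintype.card_fin] at h2
  rcases Int.units_eq_one_or (Equiv.Perm.sign σ) with h | h
  · rw [h, one_smul]
    exact h1
  · rw [h, Units.smul_def, Units.val_neg, Units.val_one, neg_smul, one_smul]
    exact neg_mem h1

end pow

variable {k K : Type u} [Field k] [Field K] [Algebra k K]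
variable {n : ℕ} {D : Fin (n + 1) → Derivation k K K} {z : Fin (n + 1) → K} {A : Subalgebra k K}

/-- The determinant is in a bounded power. -/
theorem Wr_mem_pow {V : Submodule k K} (h1 : (1 : K) ∈ V) {e : ℕ}
    (hD : ∀ i, ∀ v ∈ V, D i v ∈ V ^ e) {m : ℕ} (hm : (n + 2) * e ≤ m) {f : Fin (n + 2) → K}
    (hf : ∀ j, f j ∈ V ^ m) : Wr D f ∈ V ^ ((n + 3) * m) := by
  rw [TGh33.Wr_def]
  have h2 := det_mem_pow (P := V ^ (m + e)) (Matrix.of fun j => row D (f j)) fun i j => by
    rw [Matrix.of_apply]
    refine Fin.cases ?_ (fun j => ?_) j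
    · rw [TGh33.row_zero]
      exact pow_mono_one h1 (Nat.le_add_right _ _) (hf i)
    · rw [TGh33.row_succ]
      exact der_pow h1 (hD j) m _ (hf i)
  rw [← pow_mul] at h2
  refine pow_mono_one h1 ?_ h2
  have : (m + e) * (n + 1 + 1) = (n + 2) * m + (n + 2) * e := by ring
  rw [this]
  nlinarith

/-- The valuation ring `P` contains `k[V]` if `P.v ≥ 0` on `V`. -/
theorem adjoin_le_vs {V : Submodule k K} {t : Fin (n + 1) → K} {P : PL k t}
    (h : ∀ v ∈ V, v ∈ P.vs) : ∀ a ∈ Algebra.adjoin k (V : Set K), a ∈ P.vs := by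
  intro a ha
  induction ha using Algebra.adjoin_induction with
  | mem x hx => exact h x hx
  | algebraMap c => exact P.algebraMap_mem_vs (algebraMap k (kap k t) c)
  | add a b _ _ iha ihb => exact add_mem iha ihb
  | mul a b _ _ iha ihb => exact mul_mem iha ihb

/-- A generic element of a finite dimensional space. -/
theorem exists_gen [Infinite k] {t : Fin (n + 1) → K} (hF : PF.FF (kap k t) K)
    {S : Submodule k K} (hS : S.FG) {x : K} (hx : x ∈ S) (ht0 : t 0 ∈ S)
    (htr : Transcendental (kap k t) (x / t 0)) :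
    ∃ s ∈ S, Transcendental (kap k t) s ∧
      ∀ P : PL k t, ∀ y ∈ S, y ≠ 0 → min 0 (P.v s) ≤ P.v y := by
  classical
  obtain ⟨T, hT⟩ := id hS
  -- the places which are poles of elements of `S`
  let Q : Set (PL k t) := ⋃ a ∈ T, {P : PL k t | P.v a < 0}
  have hQ : Q.Finite := T.finite_toSet.biUnion fun a _ => PF.finite_poles hF a
  have hQ' : ∀ P : PL k t, P ∉ Q → ∀ y ∈ S, y ≠ 0 → 0 ≤ P.v y := by
    intro P hP y hy hy0
    clear hy0
    have h1 : ∀ a ∈ T, a ∈ P.vs := by
      intro a ha
      rw [PF.Pl.mem_vs']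
      by_contra h2
      exact hP (Set.mem_iUnion₂.2 ⟨a, ha, not_le.1 h2⟩)
    have h2 : y ∈ P.vs := by
      rw [← hT] at hy
      induction hy using Submodule.span_induction with
      | mem a ha => exact h1 a ha
      | zero => exact zero_mem _
      | add a b _ _ iha ihb => exact add_mem iha ihb
      | smul c a _ iha =>
        rw [Algebra.smul_def]
        exact mul_mem (P.algebraMap_mem_vs (algebraMap k (kap k t) c)) iha
    exact PF.Pl.mem_vs'.1 h2
  have hxt0 : t 0 ≠ 0 := by
    intro h
    rw [h, div_zero] at htr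
    exact htr isAlgebraic_zero
  obtain ⟨F, hF1, hF2, hF3⟩ := exists_generic_all Q hQ (fun P : PL k t => P.v) isOrd_v S hS
    LinearMap.id ⟨t 0, ht0, hxt0⟩
  -- algebraic elements
  let H₀ : Submodule k K :=
    (Subalgebra.toSubmodule (algebraicClosure (kap k t) K).toSubalgebra).restrictScalars k
  have hH₀ : ∀ y, y ∈ H₀ ↔ IsAlgebraic (kap k t) y := fun y => mem_algebraicClosure_iff
  obtain ⟨s, hsS, hs⟩ := exists_avoid S (insert H₀ F) (hF1.insert _) (by
    intro H hH
    rcases Set.mem_insert_iff.1 hH with rfl | hH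
    · intro hle
      apply htr
      have h1 := (hH₀ x).1 (hle hx)
      have h2 := (hH₀ _).1 (hle ht0)
      rw [div_eq_mul_inv]
      exact h1.mul h2.inv
    · exact hF2 H hH)
  have h1 := hF3 s hsS fun H hH => hs H (Set.mem_insert_of_mem _ hH)
  refine ⟨s, hsS, fun h => hs H₀ (Set.mem_insert _ _) ((hH₀ s).2 h), fun P y hy hy0 => ?_⟩
  by_cases hP : P ∈ Q
  · exact (min_le_right _ _).trans ((h1.2 P hP).1 y hy hy0)
  · exact (min_le_left _ _).trans (hQ' P hP y hy hy0)

/-- The degree of the poles as a `dsum`. -/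
theorem dsum_poles {t : Fin (n + 1) → K} (hF : PF.FF (kap k t) K) {s : K}
    (hs : Transcendental (kap k t) s) :
    dsum (fun P : PL k t => P.deg) (fun P => max 0 (-P.v s)) =
      (Module.finrank (IntermediateField.adjoin (kap k t) {s}) K : ℤ) := by
  rw [← PF.sum_poles hF hs]
  unfold dsum
  have h2 : ∀ P : PL k t, max 0 (-P.v s) * (P.deg : ℤ) = (((-P.v s).toNat * P.deg : ℕ) : ℤ) := by
    intro P
    push_cast
    congr 1
    omega
  rw [finsum_congr h2]
  exact ((Nat.castAddMonoidHom ℤ).map_finsum_of_injective Nat.cast_injective _).symm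

theorem supp_add {ι : Type*} {u v : ι → ℤ} (hu : (support u).Finite) (hv : (support v).Finite) :
    (support fun P => u P + v P).Finite := (hu.union hv).subset (support_add u v)

theorem supp_v {t : Fin (n + 1) → K} (hF : PF.FF (kap k t) K) (s : K) :
    (support fun P : PL k t => P.v s).Finite := PF.finite_support hF s

theorem supp_neg {t : Fin (n + 1) → K} (hF : PF.FF (kap k t) K) (s : K) :
    (support fun P : PL k t => max 0 (-P.v s)).Finite := (supp_v hF s).subset fun P hP => by
  rw [mem_support] at hP ⊢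
  intro h
  rw [h] at hP
  exact hP rfl

theorem supp_pos {t : Fin (n + 1) → K} (hF : PF.FF (kap k t) K) (s : K) :
    (support fun P : PL k t => max 0 (P.v s)).Finite := (supp_v hF s).subset fun P hP => by
  rw [mem_support] at hP ⊢
  intro h
  rw [h] at hP
  exact hP rfl

/-- Zeros and poles have the same degree. -/
theorem dsum_zeros {t : Fin (n + 1) → K} (hF : PF.FF (kap k t) K) (s : K) :
    dsum (fun P : PL k t => P.deg) (fun P => max 0 (P.v s)) =
      dsum (fun P : PL k t => P.deg) (fun P => max 0 (-P.v s)) := by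
  have h1 : dsum (fun P : PL k t => P.deg) (fun P => P.v s) = 0 := PF.product_formula hF s
  have h2 := dsum_sub (dg := fun P : PL k t => P.deg) (supp_pos hF s) (supp_neg hF s)
  have h3 : (fun P : PL k t => max 0 (P.v s) - max 0 (-P.v s)) = fun P : PL k t => P.v s := by
    funext P
    omega
  rw [h3, h1] at h2
  linarith

/-- **START**, the bound for the potential by the degree of a generic element. -/
theorem exists_s [IsAlgClosed k] (dat : Dat D z A) {V : Submodule k K} (hV : V.FG)
    (h1 : (1 : K) ∈ V) (hVA : Algebra.adjoin k (V : Set K) = A) :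
    ∃ c₀ : ℕ, ∀ m, c₀ ≤ m → ∀ (x : K) (t : Fin (n + 1) → K), Adm D (V ^ m) x t →
      ∃ s ∈ V ^ ((n + 3) * m), Transcendental (kap k t) s ∧
        Th D A x t ≤ 7 * (Module.finrank (IntermediateField.adjoin (kap k t) {s}) K : ℤ) := by
  have : Infinite k := IsAlgClosed.instInfinite
  have hex : ∀ i, ∃ e : ℕ, ∀ v ∈ V, D i v ∈ V ^ e := fun i =>
    exists_pow_of_map hV h1 (D i : K →ₗ[k] K) fun v hv => by
      rw [hVA]
      refine dat.stab i v ?_
      rw [← hVA]
      exact Algebra.subset_adjoin hv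
  choose e he using hex
  set e₀ := Finset.univ.sup e with he₀
  have he' : ∀ i, ∀ v ∈ V, D i v ∈ V ^ e₀ := fun i v hv =>
    pow_mono_one h1 (Finset.le_sup (f := e) (Finset.mem_univ i)) (he i v hv)
  refine ⟨(n + 2) * e₀ + 1, fun m hm x t hadm => ?_⟩
  have hW := hadm.ne
  have hF := ff dat hW
  have ht0 : t 0 ≠ 0 := ne_zero_of_Wr hW 0
  have hVm : V ^ m ≤ V ^ ((n + 3) * m) := pow_mono_one h1 (by nlinarith)
  have hVN : V ≤ V ^ ((n + 3) * m) := by
    conv_lhs => rw [← pow_one V]
    exact pow_mono_one h1 (by nlinarith)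
  have hVmA : ∀ y ∈ V ^ m, y ∈ A := by
    intro y hy
    rw [← hVA]
    have h2 : V ≤ Subalgebra.toSubmodule (Algebra.adjoin k (V : Set K)) :=
      Algebra.subset_adjoin
    have h3 : V ^ m ≤ Subalgebra.toSubmodule (Algebra.adjoin k (V : Set K)) := by
      refine (pow_le_pow_left' h2 m).trans ?_
      rcases Nat.eq_zero_or_pos m with h | h
      · omega
      · obtain ⟨r, rfl⟩ := Nat.exists_eq_succ_of_ne_zero h.ne'
        clear_value e₀
        clear hm h hadm hVm hVN hy
        induction r with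
        | zero => rw [Nat.succ_eq_add_one, zero_add, pow_one]
        | succ r ih =>
          rw [pow_succ]
          refine (mul_le_mul' ih le_rfl).trans ?_
          exact Submodule.mul_le.2 fun a ha b hb => mul_mem (S := Subalgebra k K) ha hb
    exact h3 hy
  have htA : ∀ j, t j ∈ A := fun j => hVmA _ (hadm.t_mem j)
  obtain ⟨s, hs, hstr, hmin⟩ := exists_gen hF (hV.pow ((n + 3) * m)) (hVm hadm.x_mem)
    (hVm (hadm.t_mem 0)) (transcendental_div dat hW)
  refine ⟨s, hs, hstr, ?_⟩
  set E : ℤ := dsum (fun P : PL k t => P.deg) (fun P => max 0 (-P.v s)) with hE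
  rw [← dsum_poles hF hstr, ← hE]
  -- the poles of the elements of `V ^ N`
  have hpole : ∀ y ∈ V ^ ((n + 3) * m),
      dsum (fun P : PL k t => P.deg) (fun P => max 0 (-P.v y)) ≤ E := by
    intro y hy
    refine dsum_mono (supp_neg hF y) (supp_neg hF s) fun P => ?_
    rcases eq_or_ne y 0 with rfl | hy0
    · rw [P.zero, neg_zero, max_self]
      exact le_max_left _ _
    · have := hmin P y hy hy0
      omega
  have hWmem : Wr D (Fin.cons x t) ∈ V ^ ((n + 3) * m) := by
    refine Wr_mem_pow h1 he' (by omega) fun j => ?_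
    refine Fin.cases ?_ (fun j => ?_) j
    · exact hadm.x_mem
    · exact hadm.t_mem j
  -- the weights
  have hbet : bet D A x t ≤ 3 * E := by
    have h2 : bet D A x t ≤ dsum (fun P : PL k t => P.deg) (fun P =>
        max 0 (P.v (Wr D (Fin.cons x t))) + (max 0 (-P.v s) + max 0 (P.v (t 0)))) := by
      refine dsum_mono (TGh71.wgt_fin (finite_gd_compl dat hW htA) (supp_v hF _))
        (supp_add (supp_pos hF _) (supp_add (supp_neg hF s) (supp_pos hF (t 0)))) fun P => ?_
      · show wgt (gd D A t) (fun P => P.v (t 0)) (fun P => P.v x)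
            (fun P => P.v (Wr D (Fin.cons x t))) P ≤
          max 0 (P.v (Wr D (Fin.cons x t))) + (max 0 (-P.v s) + max 0 (P.v (t 0)))
        have h3 : 0 ≤ max 0 (-P.v s) := le_max_left _ _
        have h4 : 0 ≤ max 0 (P.v (t 0)) := le_max_left _ _
        have h5 : 0 ≤ max 0 (P.v (Wr D (Fin.cons x t))) := le_max_left _ _
        unfold wgt
        split_ifs with hg hle
        · have h6 : P.v (Wr D (Fin.cons x t)) ≤ max 0 (P.v (Wr D (Fin.cons x t))) :=
            le_max_right _ _
          linarith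
        · by_cases hVP : ∀ v ∈ V, v ∈ P.vs
          · have hAP : ∀ a ∈ A, a ∈ P.vs := by
              rw [← hVA]
              exact adjoin_le_vs hVP
            have h6 : P.v (t 0) ≠ 0 := fun h7 =>
              hg ⟨good_of dat hW htA P hAP h7, h7⟩
            have h7 : 0 ≤ P.v (t 0) := PF.Pl.mem_vs'.1 (hAP _ (htA 0))
            have h8 : P.v (t 0) ≤ max 0 (P.v (t 0)) := le_max_right _ _
            omega
          · push Not at hVP
            obtain ⟨v, hv, hvP⟩ := hVP
            rw [PF.Pl.mem_vs', not_le] at hvP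
            have hv0 : v ≠ 0 := by
              rintro rfl
              rw [P.zero] at hvP
              exact lt_irrefl _ hvP
            have h6 := hmin P v (hVN hv) hv0
            have h7 : -P.v s ≤ max 0 (-P.v s) := le_max_right _ _
            omega
        · linarith
    rw [dsum_add (supp_pos hF _) (supp_add (supp_neg hF s) (supp_pos hF (t 0))),
      dsum_add (supp_neg hF s) (supp_pos hF (t 0)), dsum_zeros hF, dsum_zeros hF] at h2
    have h3 := hpole _ hWmem
    have h4 := hpole _ (hVm (hadm.t_mem 0))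
    linarith
  -- the degree
  have hdg : (dg k x t : ℤ) ≤ 2 * E := by
    rw [← pls_eq dat hW, pls]
    have h2 : dsum (fun P : PL k t => P.deg) (pol (fun P => P.v (t 0)) fun P => P.v x) ≤
        dsum (fun P : PL k t => P.deg) (fun P => max 0 (P.v (t 0)) + max 0 (-P.v x)) := by
      refine dsum_mono (TGh71.pol_fin (supp_v hF _) (supp_v hF _))
        (supp_add (supp_pos hF _) (supp_neg hF _)) fun P => ?_
      show max 0 (P.v (t 0) - P.v x) ≤ max 0 (P.v (t 0)) + max 0 (-P.v x)
      omega
    rw [dsum_add (supp_pos hF _) (supp_neg hF _), dsum_zeros hF] at h2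
    have h3 := hpole _ (hVm (hadm.t_mem 0))
    have h4 := hpole _ (hVm hadm.x_mem)
    linarith
  unfold Th
  linarith

end Pool.Agent.TG1
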