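import Pool.Agent.Lib.TG1.StartV
import Pool.Agent.Lib.TG1.StartB

/-!
# TANK G, block G1: row START
-/

set_option autoImplicit false

namespace Pool.Agent.TG1

open Module
open Pool.Agent.TG (Ov ZDim IsMin)
open Pool.Agent.TGh33 (Wr DB)
open Pool.Agent.TGh71 (dsum pol wgt)
open Pool.Agent.TGh62 (rf)

universe u

section

variable {k K : Type u} [Field k] [Field K] [Algebra k K]
variable {n : ℕ} {D : Fin (n + 1) → Derivation k K K} {z : Fin (n + 1) → K} {A : Subalgebra k K}

/-- `k(t_1 / t_0, .., t_n / t_0, s)`. -/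
theorem rf_snoc {t : Fin (n + 1) → K} (h0 : t 0 ≠ 0) (s : K) :
    (IntermediateField.adjoin (kap k t) {s}).restrictScalars k =
      rf k (Fin.cons (t 0) (Fin.snoc (fun i : Fin n => t i.succ) (t 0 * s)) :
        Fin (n + 1 + 1) → K) := by
  have hlast : (Fin.cons (t 0) (Fin.snoc (fun i : Fin n => t i.succ) (t 0 * s)) :
      Fin (n + 1 + 1) → K) (Fin.last n).succ /
      (Fin.cons (t 0) (Fin.snoc (fun i : Fin n => t i.succ) (t 0 * s)) :
      Fin (n + 1 + 1) → K) 0 = s := by
    rw [Fin.cons_succ, Fin.cons_zero, Fin.snoc_last, mul_div_cancel_left₀ _ h0]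
  have hcs : ∀ j : Fin n, (Fin.cons (t 0) (Fin.snoc (fun i : Fin n => t i.succ) (t 0 * s)) :
      Fin (n + 1 + 1) → K) j.castSucc.succ /
      (Fin.cons (t 0) (Fin.snoc (fun i : Fin n => t i.succ) (t 0 * s)) :
      Fin (n + 1 + 1) → K) 0 = t j.succ / t 0 := by
    intro j
    rw [Fin.cons_succ, Fin.cons_zero]
    congr 1
    exact Fin.snoc_castSucc (α := fun _ => K) (t 0 * s) (fun i : Fin n => t i.succ) j
  apply le_antisymm
  · have hkap : kap k t ≤ rf k (Fin.cons (t 0) (Fin.snoc (fun i : Fin n => t i.succ) (t 0 * s)) :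
        Fin (n + 1 + 1) → K) := by
      rw [kap, IntermediateField.adjoin_le_iff]
      rintro _ ⟨j, rfl⟩
      refine Fin.cases ?_ (fun i => ?_) j
      · change t 0 / t 0 ∈ _
        rw [div_self h0]
        exact one_mem _
      · change t i.succ / t 0 ∈ _
        rw [← hcs i]
        exact IntermediateField.subset_adjoin k _ ⟨i.castSucc, rfl⟩
    intro y hy
    have h1 : IntermediateField.adjoin (kap k t) {s} ≤
        IntermediateField.extendScalars hkap := by
      rw [IntermediateField.adjoin_le_iff]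
      intro y hy
      rw [Set.mem_singleton_iff] at hy
      rw [hy]
      exact IntermediateField.subset_adjoin k _ ⟨Fin.last n, hlast⟩
    exact h1 hy
  · rw [rf, IntermediateField.adjoin_le_iff]
    rintro _ ⟨i, rfl⟩
    refine Fin.lastCases ?_ (fun j => ?_) i
    · beta_reduce
      rw [hlast]
      exact IntermediateField.subset_adjoin (kap k t) _ rfl
    · beta_reduce
      rw [hcs]
      have h1 : t j.succ / t 0 ∈ kap k t := IntermediateField.subset_adjoin k _ ⟨j.succ, rfl⟩
      exact (IntermediateField.adjoin (kap k t) {s}).algebraMap_mem ⟨_, h1⟩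

theorem kap_le (dat : Dat D z A) {V : Submodule k K} (h1 : (1 : K) ∈ V) {d : ℕ}
    (hd : ∀ m, 1 ≤ m → ∀ F : Fin (n + 1 + 1) → K, (∀ i, F i ∈ V ^ m) → F 0 ≠ 0 →
      (AlgebraicIndependent k fun i : Fin (n + 1) => F i.succ / F 0) →
      ∀ (D : ℕ) (b : Fin D → K), LinearIndependent (rf k F) b → D ≤ d * m ^ (n + 1))
    {m : ℕ} (hm : 1 ≤ m) {x : K} {t : Fin (n + 1) → K} (ht : ∀ j, t j ∈ V ^ m)
    (hW : Wr D (Fin.cons x t) ≠ 0) {N : ℕ} {s : K} (hs : s ∈ V ^ N)
    (hst : Transcendental (kap k t) s) :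
    finrank (IntermediateField.adjoin (kap k t) {s}) K ≤ d * (m + N) ^ (n + 1) := by
  have h0 : t 0 ≠ 0 := ne_zero_of_Wr hW 0
  have hfin := (ff dat hW).fin s hst
  have heq := rf_snoc (k := k) h0 s
  set F : Fin (n + 1 + 1) → K := Fin.cons (t 0) (Fin.snoc (fun i : Fin n => t i.succ) (t 0 * s))
    with hF
  have hFm : ∀ i, F i ∈ V ^ (m + N) := by
    intro i
    refine Fin.cases ?_ (fun i => ?_) i
    · exact pow_mono' h1 (Nat.le_add_right _ _) (ht 0)
    · refine Fin.lastCases ?_ (fun j => ?_) i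
      · rw [hF, Fin.cons_succ, Fin.snoc_last, pow_add]
        exact Submodule.mul_mem_mul (ht 0) hs
      · rw [hF, Fin.cons_succ]
        have h2 : (Fin.snoc (fun i : Fin n => t i.succ) (t 0 * s) : Fin (n + 1) → K) j.castSucc =
            t j.succ := Fin.snoc_castSucc (α := fun _ => K) (t 0 * s)
              (fun i : Fin n => t i.succ) j
        rw [h2]
        exact pow_mono' h1 (Nat.le_add_right _ _) (ht _)
  have hfin' : FiniteDimensional ((IntermediateField.adjoin (kap k t) {s}).restrictScalars k) K :=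
    hfin
  have hrank : finrank ((IntermediateField.adjoin (kap k t) {s}).restrictScalars k) K =
    finrank (IntermediateField.adjoin (kap k t) {s}) K := rfl
  rw [← hrank]
  rw [heq] at hfin' ⊢
  have halg : Algebra.IsAlgebraic (rf k F) K := Algebra.IsAlgebraic.of_finite _ _
  have htr : Algebra.trdeg k K = ((n + 1 : ℕ) : Cardinal) := by
    rw [dat.trd]
    push_cast
    rfl
  exact hd (m + N) (by omega) F hFm h0 (TGh62.algebraicIndependent_of halg htr) _
    (Module.finBasis (rf k F) K) (Module.finBasis (rf k F) K).linearIndependent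

end

/-- **Row START.** -/
theorem start (n : ℕ) (J : Finset ℕ) : StartP.{u} n J := by
  classical
  refine ⟨7 * ((n + 4) ^ (n + 1) * (2 ^ (n + 1) * (n + 1).factorial)) +
    ∑ j ∈ J, (j + 1) ^ (n + 1) * 2 ^ (n + 1), fun k K _ _ _ _ D z A dat B => ?_⟩
  have : Infinite k := IsAlgClosed.instInfinite
  obtain ⟨V, sv⟩ := exists_SV dat
  have htr : Algebra.trdeg k K = ((n + 1 : ℕ) : Cardinal) := by
    rw [dat.trd]
    push_cast
    rfl
  have hfd : FiniteDimensional k V := Module.Finite.iff_fg.2 sv.fg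
  obtain ⟨d, c, hd0, hup, hlow, hdeg⟩ := TGh62.exists_dV V sv.one sv.top htr
  obtain ⟨c₀, hs⟩ := exists_s dat sv.fg sv.one sv.adj
  have hnum := numbers (a := fun N => finrank k (V ^ N : Submodule k K)) hup hlow
  set m := max (max c₀ (4 * (n + 1 + 1) * (c + 1)))
    (B * (2 ^ (n + 2) * (n + 1).factorial)) + 1 with hm
  have hm1 : c₀ ≤ m := by omega
  have hm2 : 4 * (n + 1 + 1) * (c + 1) ≤ m := by omega
  have hm3 : B * (2 ^ (n + 2) * (n + 1).factorial) ≤ m := by omega
  have hm4 : 1 ≤ m := by omega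
  obtain ⟨h1, h2, h3⟩ := hnum m hm2
  refine ⟨V ^ (m - 1), V ^ m, sv.fg.pow m, pow_mono' sv.one (Nat.sub_le _ _), sv.pow_le m, ?_, ?_,
    h3, ?_, ?_⟩
  · intro i g hg
    have : m = m - 1 + 1 := by omega
    rw [this, pow_succ]
    exact Submodule.mul_mem_mul hg (sv.zm i)
  · -- `B ≤ finrank V ^ (m - 1)`
    have h4 : m ≤ d * m ^ (n + 1) := by
      calc m = 1 * m ^ 1 := by ring
        _ ≤ d * m ^ (n + 1) := Nat.mul_le_mul hd0 (Nat.pow_le_pow_right hm4 (by omega))
    have h5 : B * (2 ^ (n + 2) * (n + 1).factorial) ≤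
        finrank k (V ^ (m - 1) : Submodule k K) * (2 ^ (n + 2) * (n + 1).factorial) := by
      calc B * (2 ^ (n + 2) * (n + 1).factorial) ≤ m := hm3
        _ ≤ d * m ^ (n + 1) := h4
        _ ≤ 2 ^ (n + 1) * (n + 1).factorial * finrank k (V ^ m : Submodule k K) := h1
        _ ≤ 2 ^ (n + 1) * (n + 1).factorial * (2 * finrank k (V ^ (m - 1) : Submodule k K)) :=
            Nat.mul_le_mul le_rfl h3
        _ = _ := by ring
    exact Nat.le_of_mul_le_mul_right h5 (by positivity)
  · intro x t hadm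
    obtain ⟨s, hsN, hst, hTh⟩ := hs m hm1 x t hadm
    have h4 := kap_le dat sv.one hdeg hm4 hadm.t_mem hadm.ne hsN hst
    have h5 : d * (m + (n + 3) * m) ^ (n + 1) ≤ (n + 4) ^ (n + 1) *
        (2 ^ (n + 1) * (n + 1).factorial) * finrank k (V ^ m : Submodule k K) := by
      calc d * (m + (n + 3) * m) ^ (n + 1) = (n + 4) ^ (n + 1) * (d * m ^ (n + 1)) := by
            rw [show m + (n + 3) * m = (n + 4) * m by ring, mul_pow]
            ring
        _ ≤ (n + 4) ^ (n + 1) * (2 ^ (n + 1) * (n + 1).factorial *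
            finrank k (V ^ m : Submodule k K)) := Nat.mul_le_mul le_rfl h1
        _ = _ := by ring
    have h6 : (finrank (IntermediateField.adjoin (kap k t) {s}) K : ℤ) ≤
        (((n + 4) ^ (n + 1) * (2 ^ (n + 1) * (n + 1).factorial) *
          finrank k (V ^ m : Submodule k K) : ℕ) : ℤ) := by
      exact_mod_cast h4.trans h5
    refine hTh.trans ?_
    have h7 : (0 : ℤ) ≤ ((∑ j ∈ J, (j + 1) ^ (n + 1) * 2 ^ (n + 1) : ℕ) : ℤ) *
      (finrank k (V ^ m : Submodule k K) : ℤ) := by positivity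
    calc 7 * (finrank (IntermediateField.adjoin (kap k t) {s}) K : ℤ) ≤
        7 * (((n + 4) ^ (n + 1) * (2 ^ (n + 1) * (n + 1).factorial) *
          finrank k (V ^ m : Submodule k K) : ℕ) : ℤ) := by linarith
      _ ≤ 7 * (((n + 4) ^ (n + 1) * (2 ^ (n + 1) * (n + 1).factorial) *
          finrank k (V ^ m : Submodule k K) : ℕ) : ℤ) +
          ((∑ j ∈ J, (j + 1) ^ (n + 1) * 2 ^ (n + 1) : ℕ) : ℤ) *
            (finrank k (V ^ m : Submodule k K) : ℤ) := by linarith
      _ = _ := by push_cast; ring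
  · intro j hj
    rw [← pow_mul]
    refine (h2 j).trans (Nat.mul_le_mul ?_ le_rfl)
    refine le_trans ?_ (Nat.le_add_left _ _)
    exact Finset.single_le_sum (f := fun j => (j + 1) ^ (n + 1) * 2 ^ (n + 1))
      (fun _ _ => Nat.zero_le _) hj

end Pool.Agent.TG1
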