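import Pool.Agent.Lib.TG1.Ext
import Pool.Agent.Lib.TG_h62.DV

/-!
# TANK G, block G1, row START: the choice of `V`, the numbers

`V` is a finite dimensional space which generates `A`.
-/

set_option autoImplicit false

namespace Pool.Agent.TG1

open Module
open Pool.Agent.TG (Ov ZDim IsMin)
open Pool.Agent.TGh33 (Wr DB)
open Pool.Agent.TGh71 (dsum pol wgt)

universe u

section

variable {k K : Type u} [Field k] [Field K] [Algebra k K]
variable {n : ℕ} {D : Fin (n + 1) → Derivation k K K} {z : Fin (n + 1) → K} {A : Subalgebra k K}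

/-- The space `V` of row START. -/
structure SV (z : Fin (n + 1) → K) (A : Subalgebra k K) (V : Submodule k K) : Prop where
  fg : V.FG
  one : (1 : K) ∈ V
  adj : Algebra.adjoin k (V : Set K) = A
  top : IntermediateField.adjoin k (V : Set K) = ⊤
  zm : ∀ i, z i ∈ V

theorem pow_mono' {V : Submodule k K} (h1 : (1 : K) ∈ V) {a b : ℕ} (h : a ≤ b) : V ^ a ≤ V ^ b :=
  pow_le_pow_right₀ (Submodule.one_le.2 h1) h

theorem exists_SV (dat : Dat D z A) : ∃ V, SV z A V := by
  classical
  obtain ⟨S, hS⟩ := dat.fg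
  let T : Finset K := insert 1 (S ∪ Finset.univ.image z)
  have hTA : ∀ x ∈ T, x ∈ A := by
    intro x hx
    rcases Finset.mem_insert.1 hx with rfl | hx
    · exact A.one_mem
    rcases Finset.mem_union.1 hx with hx | hx
    · rw [← hS]
      exact Algebra.subset_adjoin hx
    · obtain ⟨i, -, rfl⟩ := Finset.mem_image.1 hx
      exact dat.z_mem i
  let V : Submodule k K := Submodule.span k (T : Set K)
  have hone : (1 : K) ∈ V := Submodule.subset_span (Finset.mem_insert_self _ _)
  have hVA : ∀ x ∈ V, x ∈ A := by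
    intro x hx
    have h1 : V ≤ Subalgebra.toSubmodule A := Submodule.span_le.2 hTA
    exact h1 hx
  have hadj : Algebra.adjoin k (V : Set K) = A := by
    refine le_antisymm (Algebra.adjoin_le hVA) ?_
    rw [← hS]
    refine Algebra.adjoin_mono ?_
    intro x hx
    exact Submodule.subset_span (Finset.mem_insert_of_mem (Finset.mem_union_left _ hx))
  have htop : IntermediateField.adjoin k (V : Set K) = ⊤ := by
    rw [eq_top_iff]
    intro x _
    obtain ⟨a, ha, b, hb, -, rfl⟩ := dat.frac x
    have h1 : A ≤ (IntermediateField.adjoin k (V : Set K)).toSubalgebra := by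
      rw [← hadj]
      exact IntermediateField.algebra_adjoin_le_adjoin _ _
    exact div_mem (h1 ha) (h1 hb)
  exact ⟨V, ⟨T, rfl⟩, hone, hadj, htop, fun i => Submodule.subset_span (Finset.mem_insert_of_mem
    (Finset.mem_union_right _ (Finset.mem_image_of_mem _ (Finset.mem_univ i))))⟩

variable {V : Submodule k K}

theorem SV.le (h : SV z A V) : ∀ v ∈ V, v ∈ A := fun v hv => by
  rw [← h.adj]
  exact Algebra.subset_adjoin hv

theorem SV.pow_le (h : SV z A V) (m : ℕ) : ∀ v ∈ V ^ m, v ∈ A := by
  have h1 : V ^ m ≤ Subalgebra.toSubmodule A := by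
    induction m with
    | zero =>
      rw [pow_zero, Submodule.one_le]
      exact A.one_mem
    | succ m ih =>
      rw [pow_succ]
      exact Submodule.mul_le.2 fun a ha b hb => A.mul_mem (ih ha) (h.le b hb)
  exact fun v hv => h1 hv

end

section numbers

/-- The numbers: `n! a N = d N ^ n + O(N ^ (n - 1))`. -/
theorem numbers {n d c : ℕ} {a : ℕ → ℕ}
    (hup : ∀ N, n.factorial * a N ≤ d * (N + c) ^ n)
    (hlow : ∀ N, c ≤ N → d * (N - c) ^ n ≤ n.factorial * a N) :
    ∀ m, 4 * (n + 1) * (c + 1) ≤ m → d * m ^ n ≤ 2 ^ n * n.factorial * a m ∧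
      (∀ j, a (m * j) ≤ (j + 1) ^ n * 2 ^ n * a m) ∧ a m ≤ 2 * a (m - 1) := by
  intro m hm
  have hf : 0 < n.factorial := Nat.factorial_pos n
  have hc4 : 4 * (c + 1) ≤ m := by
    refine le_trans ?_ hm
    exact Nat.mul_le_mul (by omega) le_rfl
  have h1 : d * m ^ n ≤ 2 ^ n * n.factorial * a m := by
    calc d * m ^ n ≤ d * (2 * (m - c)) ^ n :=
          Nat.mul_le_mul le_rfl (Nat.pow_le_pow_left (by omega) n)
      _ = 2 ^ n * (d * (m - c) ^ n) := by rw [mul_pow]; ring
      _ ≤ 2 ^ n * (n.factorial * a m) := Nat.mul_le_mul le_rfl (hlow m (by omega))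
      _ = _ := by ring
  refine ⟨h1, fun j => ?_, ?_⟩
  · refine Nat.le_of_mul_le_mul_left ?_ hf
    calc n.factorial * a (m * j) ≤ d * (m * j + c) ^ n := hup _
      _ ≤ d * ((j + 1) * m) ^ n := by
          refine Nat.mul_le_mul le_rfl (Nat.pow_le_pow_left ?_ n)
          have : (j + 1) * m = m * j + m := by ring
          omega
      _ = (j + 1) ^ n * (d * m ^ n) := by rw [mul_pow]; ring
      _ ≤ (j + 1) ^ n * (2 ^ n * n.factorial * a m) := Nat.mul_le_mul le_rfl h1
      _ = _ := by ring
  · refine Nat.le_of_mul_le_mul_left ?_ hf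
    have h2 : (m + c) ^ n ≤ 2 * (m - 1 - c) ^ n := by
      have h3 : (m + c : ℝ) ^ n ≤ 2 * ((m - 1 - c : ℕ) : ℝ) ^ n := by
        have hm' : (4 * (n + 1) * (c + 1) : ℝ) ≤ m := by exact_mod_cast hm
        have hpos : (0 : ℝ) < m + c := by
          have : (0 : ℝ) < 4 * (n + 1) * (c + 1) := by positivity
          have hc0 : (0 : ℝ) ≤ c := Nat.cast_nonneg c
          linarith
        have hcast : ((m - 1 - c : ℕ) : ℝ) = (m + c) * (1 + (-((2 * c + 1) / (m + c)))) := by
          rw [Nat.cast_sub (by omega), Nat.cast_sub (by omega)]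
          field_simp
          push_cast
          ring
        have hle : (-2 : ℝ) ≤ -((2 * c + 1) / (m + c)) := by
          rw [neg_le_neg_iff, div_le_iff₀ hpos]
          have : (0 : ℝ) ≤ n * (c + 1) := by positivity
          nlinarith
        have hb := one_add_mul_le_pow hle n
        rw [hcast, mul_pow]
        have hpn : (0 : ℝ) < (m + c) ^ n := by positivity
        have hn2 : (n : ℝ) * ((2 * c + 1) / (m + c)) ≤ 1 / 2 := by
          rw [mul_div_assoc', div_le_div_iff₀ hpos (by norm_num)]
          have hc0 : (0 : ℝ) ≤ c := Nat.cast_nonneg c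
          have hn0 : (0 : ℝ) ≤ n := Nat.cast_nonneg n
          nlinarith [mul_nonneg hn0 hc0]
        have h5 : (1 / 2 : ℝ) ≤ (1 + (-((2 * c + 1) / (m + c)))) ^ n := by
          linarith
        calc (m + c : ℝ) ^ n = 2 * ((m + c : ℝ) ^ n * (1 / 2)) := by ring
          _ ≤ _ := by
              refine mul_le_mul_of_nonneg_left ?_ (by norm_num)
              exact mul_le_mul_of_nonneg_left h5 hpn.le
      exact_mod_cast h3
    calc n.factorial * a m ≤ d * (m + c) ^ n := hup _
      _ ≤ d * (2 * (m - 1 - c) ^ n) := Nat.mul_le_mul le_rfl h2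
      _ = 2 * (d * (m - 1 - c) ^ n) := by ring
      _ ≤ 2 * (n.factorial * a (m - 1)) := Nat.mul_le_mul le_rfl (hlow _ (by omega))
      _ = _ := by ring

end numbers

end Pool.Agent.TG1
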